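import Mathlib

-- part MP_b8fe60_gt.Basic
section

/-! Internal definitions.  We work in `Fin d → ℝ` with the sup norm. -/

namespace Pool.Agent.MP_b8fe60_gt

open Set

abbrev V (d : ℕ) : Type := Fin d → ℝ

/-- Lipschitz DC map with a Lipschitz control function -/
def DCV {X Y : Type} [NormedAddCommGroup X] [NormedSpace ℝ X] [NormedAddCommGroup Y]
    [NormedSpace ℝ Y] (T : X → Y) : Prop :=
  ∃ (K : ℝ) (Φ : X → ℝ), 0 ≤ K ∧ (∀ x y, ‖T x - T y‖ ≤ K * ‖x - y‖) ∧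
    (∀ x y, |Φ x - Φ y| ≤ K * ‖x - y‖) ∧
    ∀ (x y : X) (a b : ℝ), 0 ≤ a → 0 ≤ b → a + b = 1 →
      ‖a • T x + b • T y - T (a • x + b • y)‖ ≤ a * Φ x + b * Φ y - Φ (a • x + b • y)

variable {d : ℕ}

/-- `z` lies in the coordinate subspace spanned by the directions in `I` -/
def InE (I : Finset (Fin d)) (z : V d) : Prop := ∀ j, j ∉ I → z j = 0

/-- projection to the coordinate subspace -/
def prj (I : Finset (Fin d)) (z : V d) : V d := fun j => if j ∈ I then z j else 0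

/-- the standing assumptions -/
structure Ctx (f φ : V d → ℝ) (L : ℝ) : Prop where
  one_le : 1 ≤ L
  nonneg : ∀ x, 0 ≤ f x
  lipf : ∀ x y, |f x - f y| ≤ L * ‖x - y‖
  lipφ : ∀ x y, |φ x - φ y| ≤ L * ‖x - y‖
  cvxp : ConvexOn ℝ univ (fun x => φ x + f x)
  cvxm : ConvexOn ℝ univ (fun x => φ x - f x)

/-- near `y`, in the fibre of `y`, `f` descends at rate `c` along a direction of the fibre -/
def Desc (f : V d → ℝ) (I : Finset (Fin d)) (c : ℝ) (y : V d) : Prop :=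
  ∃ (e : V d) (δ : ℝ), 0 < δ ∧ InE I e ∧ ‖e‖ ≤ 1 ∧
    ∀ (z : V d) (s : ℝ), InE I (z - y) → ‖z - y‖ ≤ δ → 0 ≤ s → s ≤ δ → f (z - s • e) ≤ f z - c * s

/-- descent along `J` on the `I`-fibre ball of radius `r` around `x`, which lies in the box of
size `R` -/
def Hyp (f : V d → ℝ) (R : ℝ) (I J : Finset (Fin d)) (c : ℝ) (x : V d) (r : ℝ) : Prop :=
  ‖x‖ + r ≤ R ∧ ∀ y, InE I (y - x) → ‖y - x‖ ≤ r → 0 < f y → Desc f J c y

/-- admissible maps -/
def Adm (f : V d → ℝ) (I : Finset (Fin d)) (K : ℝ) (T : V d → V d) : Prop :=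
  0 ≤ K ∧ DCV T ∧ (∀ y, InE I (T y - y)) ∧ ∀ y, ‖T y - y‖ ≤ K * f y

/-- approximate subgradients along a fibre -/
def AS (φ : V d → ℝ) (I : Finset (Fin d)) (x : V d) (ω : ℝ) : Set (V d) :=
  {u | InE I u ∧ ∀ z, InE I z → φ x - ω + u ⬝ᵥ z ≤ φ (x + z)}

/-- `K` contains a parallelepiped over the coordinate cube in the directions of `J` -/
def Struct (K : Set (V d)) (J : Finset (Fin d)) (η B : ℝ) : Prop :=
  ∃ (n : V d) (m : Fin d → V d), (∀ i ∈ J, ∀ j ∈ J, m i j = if i = j then 1 else 0) ∧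
    (∀ i ∈ J, ‖m i‖ ≤ B) ∧ ∀ t : V d, ‖t‖ ≤ η → n + ∑ i ∈ J, t i • m i ∈ K

/-- `K` is thin along a direction with pivot `l` -/
def Thin (K : Set (V d)) (J : Finset (Fin d)) (l : Fin d) (κ B : ℝ) : Prop :=
  ∃ n τ : V d, τ l = 1 ∧ InE (insert l J) τ ∧ ‖τ‖ ≤ B ∧ ∀ u ∈ K, |(u - n) ⬝ᵥ τ| ≤ κ

/-- `v` minimises `φ - a ⬝ᵥ ·` on the part of the fibre of `y` that lies in the box -/
def IsMz (φ : V d → ℝ) (R : ℝ) (I : Finset (Fin d)) (a y v : V d) : Prop :=
  InE I (v - y) ∧ (∀ i ∈ I, |v i| ≤ R) ∧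
    ∀ z, InE I (z - y) → (∀ i ∈ I, |z i| ≤ R) → φ v - a ⬝ᵥ v ≤ φ z - a ⬝ᵥ z

/-- `T` is locally a DC graph over the coordinate subspace of `J` -/
def Man (J : Finset (Fin d)) (T : Set (V d)) : Prop :=
  ∀ a ∈ T, ∃ σ : V d → V d, DCV σ ∧ (∀ y, ∀ j ∈ J, σ y j = y j) ∧
    ∃ ε, 0 < ε ∧ ∀ y, ‖y - a‖ < ε → (y ∈ T ↔ y = σ (prj J y))

/-- `Y` is a finite disjoint union of local graphs -/
def Decomp (Y : Set (V d)) : Prop :=
  ∃ 𝒯 : Set (Set (V d)), 𝒯.Finite ∧ (∀ T ∈ 𝒯, ∃ J, Man J T) ∧ 𝒯.PairwiseDisjoint id ∧ ⋃₀ 𝒯 = Y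

theorem InE.zero (I : Finset (Fin d)) : InE I (0 : V d) := fun _ _ => rfl

theorem InE.add {I : Finset (Fin d)} {x y : V d} (hx : InE I x) (hy : InE I y) : InE I (x + y) :=
  fun j hj => by simp [hx j hj, hy j hj]

theorem InE.neg {I : Finset (Fin d)} {x : V d} (hx : InE I x) : InE I (-x) :=
  fun j hj => by simp [hx j hj]

theorem InE.sub {I : Finset (Fin d)} {x y : V d} (hx : InE I x) (hy : InE I y) : InE I (x - y) :=
  fun j hj => by simp [hx j hj, hy j hj]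

theorem InE.smul {I : Finset (Fin d)} {x : V d} (t : ℝ) (hx : InE I x) : InE I (t • x) :=
  fun j hj => by simp [hx j hj]

theorem InE.mono {I J : Finset (Fin d)} {x : V d} (h : I ⊆ J) (hx : InE I x) : InE J x :=
  fun j hj => hx j (fun h' => hj (h h'))

theorem InE.symm {I : Finset (Fin d)} {x y : V d} (h : InE I (x - y)) : InE I (y - x) := by
  simpa using h.neg

theorem InE.trans {I : Finset (Fin d)} {x y z : V d} (h : InE I (x - y)) (h' : InE I (y - z)) :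
    InE I (x - z) := by
  simpa using h.add h'

theorem InE.refl (I : Finset (Fin d)) (x : V d) : InE I (x - x) := by
  simpa using InE.zero I

theorem inE_prj (I : Finset (Fin d)) (z : V d) : InE I (prj I z) :=
  fun j hj => by simp [prj, hj]

theorem inE_single {I : Finset (Fin d)} {i : Fin d} (hi : i ∈ I) (t : ℝ) :
    InE I (Pi.single i t : V d) :=
  fun j hj => by
    have h : j ≠ i := fun h => hj (by rw [h]; exact hi)
    simp [h]

theorem Ctx.cvx {f φ : V d → ℝ} {L : ℝ} (h : Ctx f φ L) : ConvexOn ℝ univ φ := by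
  have := (h.cvxp.add h.cvxm).smul (show (0 : ℝ) ≤ 1 / 2 by norm_num)
  refine this.congr ?_
  intro x _
  simp only [Pi.add_apply, smul_eq_mul]
  ring

theorem Ctx.f_le {f φ : V d → ℝ} {L : ℝ} (h : Ctx f φ L) (x y : V d) :
    f x ≤ f y + L * ‖x - y‖ := by
  have := (abs_le.1 (h.lipf x y)).2
  linarith

theorem Hyp.fibre {f : V d → ℝ} {R : ℝ} {I I' J : Finset (Fin d)} {c : ℝ} {x : V d} {r : ℝ}
    (h : Hyp f R I J c x r) (hI : I' ⊆ I) : Hyp f R I' J c x r :=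
  ⟨h.1, fun y hy => h.2 y (hy.mono hI)⟩

theorem Hyp.sub {f : V d → ℝ} {R : ℝ} {I J : Finset (Fin d)} {c : ℝ} {x y : V d} {r r' : ℝ}
    (h : Hyp f R I J c x r) (hy : InE I (y - x)) (hr : ‖y - x‖ + r' ≤ r) :
    Hyp f R I J c y r' := by
  refine ⟨?_, fun z hz hzr hf => h.2 z (hz.trans hy) ?_ hf⟩
  · have : ‖y‖ ≤ ‖x‖ + ‖y - x‖ := by simpa using norm_add_le x (y - x)
    linarith [h.1]
  · have : ‖z - x‖ ≤ ‖z - y‖ + ‖y - x‖ := by simpa using norm_add_le (z - y) (y - x)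
    linarith

theorem Adm.fix {f : V d → ℝ} {I : Finset (Fin d)} {K : ℝ} {T : V d → V d} (h : Adm f I K T)
    {y : V d} (hy : f y = 0) : T y = y := by
  have := h.2.2.2 y
  rw [hy, mul_zero] at this
  exact sub_eq_zero.1 (norm_le_zero_iff.1 this)

theorem Adm.mono {f : V d → ℝ} {I J : Finset (Fin d)} {K K' : ℝ} {T : V d → V d}
    (h : Adm f I K T) (hf : ∀ x, 0 ≤ f x) (hI : I ⊆ J) (hK : K ≤ K') : Adm f J K' T :=
  ⟨h.1.trans hK, h.2.1, fun y => (h.2.2.1 y).mono hI,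
    fun y => (h.2.2.2 y).trans (mul_le_mul_of_nonneg_right hK (hf y))⟩

end Pool.Agent.MP_b8fe60_gt

end

-- part MP_b8fe60_gt.DC
section

/-
HINTS.  comp: new control = Φ_S ∘ T + (2 K_S) * Φ_T, triangle inequality through S (a T x + b T y); the gap of a control function is ≥ 0.
of_convex: control = g itself.  max: (u, v) ↦ max u v is convex and 1-Lipschitz on ℝ × ℝ, use comp and prodMk; min = - max (-u) (-v).
pi: control = sum of the controls (all gaps are ≥ 0), pi_norm_le_iff_of_nonneg.  dc: g = u + Φ, h = Φ.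
clamp: C (u, b) j = max (-b) (min (u j) b).
slide: Q (u, N) = sup over |a| ≤ 2 of (2 a u - a^2 N) is convex and Lipschitz on ℝ × ℝ (closed form is not needed: use sSup over Icc (-2) 2 or iSup), Q (u, N) = u^2 / N if 0 < N and |u| ≤ 2 N, Q (0, 0) = 0.  With N = ‖z‖, b' = min b N put S (z, b) j = z j - (Q (z j + b', N) - Q (z j - b', N)) / 4 = z j * (1 - b' / N).
-/

namespace Pool.Agent.MP_b8fe60_gt

open Set

variable {X Y Z : Type} [NormedAddCommGroup X] [NormedSpace ℝ X] [NormedAddCommGroup Y]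
  [NormedSpace ℝ Y] [NormedAddCommGroup Z] [NormedSpace ℝ Z]

theorem DCV.comp {S : Y → Z} {T : X → Y} (hS : DCV S) (hT : DCV T) : DCV (fun x => S (T x)) := by
  obtain ⟨K, Φ, hK, h1, h2, h3⟩ := hS
  obtain ⟨L, Ψ, hL, k1, k2, k3⟩ := hT
  refine ⟨3 * K * L, fun x => Φ (T x) + 2 * K * Ψ x, by positivity, fun x y => ?_,
    fun x y => ?_, fun x y a b ha hb hab => ?_⟩
  · have e1 := h1 (T x) (T y)
    have e2 := mul_le_mul_of_nonneg_left (k1 x y) hK
    have e3 : 0 ≤ K * (L * ‖x - y‖) := by positivity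
    nlinarith
  · have e1 := abs_le.1 (h2 (T x) (T y))
    have e2 := mul_le_mul_of_nonneg_left (k1 x y) hK
    have e3 := abs_le.1 (k2 x y)
    have e4 := mul_le_mul_of_nonneg_left e3.1 hK
    have e5 := mul_le_mul_of_nonneg_left e3.2 hK
    rw [abs_le]
    constructor <;> nlinarith
  · have e1 := h3 (T x) (T y) a b ha hb hab
    have e2 := h1 (a • T x + b • T y) (T (a • x + b • y))
    have e3 := (abs_le.1 (h2 (a • T x + b • T y) (T (a • x + b • y)))).1
    have e4 := mul_le_mul_of_nonneg_left (k3 x y a b ha hb hab) hK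
    have e5 := norm_add_le (a • S (T x) + b • S (T y) - S (a • T x + b • T y))
      (S (a • T x + b • T y) - S (T (a • x + b • y)))
    rw [sub_add_sub_cancel] at e5
    nlinarith

theorem DCV.const (c : Y) : DCV (fun _ : X => c) := by
  refine ⟨0, fun _ => 0, le_rfl, fun x y => by simp, fun x y => by simp,
    fun x y a b _ _ hab => ?_⟩
  rw [← add_smul, hab]
  simp

theorem DCV.clm (l : X →L[ℝ] Y) : DCV (fun x => l x) := by
  refine ⟨‖l‖, fun _ => 0, norm_nonneg _, fun x y => ?_, fun x y => ?_,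
    fun x y a b _ _ _ => by simp⟩
  · rw [← map_sub]
    exact l.le_opNorm _
  · simp only [sub_self, abs_zero]
    positivity

theorem DCV.id : DCV (fun x : X => x) := by
  exact DCV.clm (ContinuousLinearMap.id ℝ X)

theorem DCV.prodMk {S : X → Y} {T : X → Z} (hS : DCV S) (hT : DCV T) :
    DCV (fun x => (S x, T x)) := by
  obtain ⟨K, Φ, hK, h1, h2, h3⟩ := hS
  obtain ⟨L, Ψ, hL, k1, k2, k3⟩ := hT
  refine ⟨K + L, fun x => Φ x + Ψ x, by positivity, fun x y => ?_,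
    fun x y => ?_, fun x y a b ha hb hab => ?_⟩
  · have e1 : 0 ≤ K * ‖x - y‖ := by positivity
    have e2 : 0 ≤ L * ‖x - y‖ := by positivity
    rw [Prod.mk_sub_mk, Prod.norm_mk, max_le_iff]
    constructor <;> nlinarith [h1 x y, k1 x y]
  · have e1 := abs_le.1 (h2 x y)
    have e2 := abs_le.1 (k2 x y)
    rw [abs_le]
    constructor <;> nlinarith [e1.1, e1.2, e2.1, e2.2]
  · have e1 := h3 x y a b ha hb hab
    have e2 := k3 x y a b ha hb hab
    have e3 := (norm_nonneg _).trans e1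
    have e4 := (norm_nonneg _).trans e2
    simp only [Prod.smul_mk, Prod.mk_add_mk, Prod.mk_sub_mk, Prod.norm_mk, max_le_iff]
    constructor <;> nlinarith

theorem DCV.fst : DCV (fun x : X × Y => x.1) := by
  exact DCV.clm (ContinuousLinearMap.fst ℝ X Y)

theorem DCV.snd : DCV (fun x : X × Y => x.2) := by
  exact DCV.clm (ContinuousLinearMap.snd ℝ X Y)

theorem DCV.add {S T : X → Y} (hS : DCV S) (hT : DCV T) : DCV (fun x => S x + T x) := by
  exact (DCV.clm (ContinuousLinearMap.fst ℝ Y Y + ContinuousLinearMap.snd ℝ Y Y)).comp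
    (hS.prodMk hT)

theorem DCV.neg {S : X → Y} (hS : DCV S) : DCV (fun x => -S x) := by
  exact (DCV.clm (-ContinuousLinearMap.id ℝ Y)).comp hS

theorem DCV.sub {S T : X → Y} (hS : DCV S) (hT : DCV T) : DCV (fun x => S x - T x) := by
  simpa only [sub_eq_add_neg] using hS.add hT.neg

theorem DCV.smul (c : ℝ) {S : X → Y} (hS : DCV S) : DCV (fun x => c • S x) := by
  exact (DCV.clm (c • ContinuousLinearMap.id ℝ Y)).comp hS

theorem DCV.const_mul (c : ℝ) {u : X → ℝ} (hu : DCV u) : DCV (fun x => c * u x) := by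
  exact hu.smul c

theorem DCV.div_const {u : X → ℝ} (hu : DCV u) (c : ℝ) : DCV (fun x => u x / c) := by
  simpa only [div_eq_inv_mul] using hu.const_mul c⁻¹

theorem DCV.pi {ι : Type} [Fintype ι] {T : X → ι → ℝ} (h : ∀ j, DCV (fun x => T x j)) :
    DCV T := by
  choose K Φ hK h1 h2 h3 using h
  have hK' : ∀ j, K j ≤ ∑ i, K i := fun j =>
    Finset.single_le_sum (fun i _ => hK i) (Finset.mem_univ j)
  have h0 : 0 ≤ ∑ i, K i := Finset.sum_nonneg (fun i _ => hK i)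
  refine ⟨∑ i, K i, fun x => ∑ i, Φ i x, h0, fun x y => ?_,
    fun x y => ?_, fun x y a b ha hb hab => ?_⟩
  · rw [pi_norm_le_iff_of_nonneg (by positivity)]
    intro j
    exact (h1 j x y).trans (mul_le_mul_of_nonneg_right (hK' j) (norm_nonneg _))
  · rw [← Finset.sum_sub_distrib, Finset.sum_mul]
    exact (Finset.abs_sum_le_sum_abs _ _).trans (Finset.sum_le_sum fun i _ => h2 i x y)
  · have e : a * ∑ i, Φ i x + b * ∑ i, Φ i y - ∑ i, Φ i (a • x + b • y) =
        ∑ i, (a * Φ i x + b * Φ i y - Φ i (a • x + b • y)) := by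
      rw [Finset.sum_sub_distrib, Finset.sum_add_distrib, Finset.mul_sum, Finset.mul_sum]
    have g : ∀ i, 0 ≤ a * Φ i x + b * Φ i y - Φ i (a • x + b • y) := fun i =>
      (norm_nonneg _).trans (h3 i x y a b ha hb hab)
    rw [e, pi_norm_le_iff_of_nonneg (Finset.sum_nonneg fun i _ => g i)]
    intro j
    exact (h3 j x y a b ha hb hab).trans
      (Finset.single_le_sum (f := fun i => a * Φ i x + b * Φ i y - Φ i (a • x + b • y))
        (fun i _ => g i) (Finset.mem_univ j))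

theorem DCV.apply {ι : Type} [Fintype ι] {T : X → ι → ℝ} (h : DCV T) (j : ι) :
    DCV (fun x => T x j) := by
  exact (DCV.clm (ContinuousLinearMap.proj (R := ℝ) (φ := fun _ : ι => ℝ) j)).comp h

theorem DCV.of_convex {g : X → ℝ} {L : ℝ} (hL : 0 ≤ L) (hg : ConvexOn ℝ univ g)
    (hl : ∀ x y, |g x - g y| ≤ L * ‖x - y‖) : DCV g := by
  refine ⟨L, g, hL, hl, hl, fun x y a b ha hb hab => ?_⟩
  have e := hg.2 (mem_univ x) (mem_univ y) ha hb hab
  simp only [smul_eq_mul] at e ⊢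
  rw [Real.norm_eq_abs, abs_of_nonneg (by linarith)]

theorem DCV.max {u v : X → ℝ} (hu : DCV u) (hv : DCV v) : DCV (fun x => max (u x) (v x)) := by
  have h : DCV (fun p : ℝ × ℝ => Max.max p.1 p.2) := by
    refine DCV.of_convex zero_le_one ⟨convex_univ, fun p _ q _ a b ha hb _ => ?_⟩ fun p q => ?_
    · simp only [Prod.fst_add, Prod.snd_add, Prod.smul_fst, Prod.smul_snd, smul_eq_mul]
      exact max_le
        (add_le_add (mul_le_mul_of_nonneg_left (le_max_left _ _) ha)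
          (mul_le_mul_of_nonneg_left (le_max_left _ _) hb))
        (add_le_add (mul_le_mul_of_nonneg_left (le_max_right _ _) ha)
          (mul_le_mul_of_nonneg_left (le_max_right _ _) hb))
    · rw [one_mul]
      exact abs_max_sub_max_le_max _ _ _ _
  exact h.comp (hu.prodMk hv)

theorem DCV.min {u v : X → ℝ} (hu : DCV u) (hv : DCV v) : DCV (fun x => min (u x) (v x)) := by
  have h := (hu.neg.max hv.neg).neg
  simpa only [max_neg_neg, neg_neg] using h

theorem DCV.norm {T : X → Y} (h : DCV T) : DCV (fun x => ‖T x‖) := by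
  have k : DCV (fun y : Y => ‖y‖) :=
    DCV.of_convex zero_le_one convexOn_univ_norm fun x y => by
      rw [one_mul]
      exact abs_norm_sub_norm_le x y
  exact k.comp h

theorem DCV.sup' {α : Type} (s : Finset α) (hs : s.Nonempty) {u : α → X → ℝ}
    (h : ∀ a ∈ s, DCV (u a)) : DCV (fun x => s.sup' hs (fun a => u a x)) := by
  induction hs using Finset.Nonempty.cons_induction with
  | singleton a => simpa using h a (by simp)
  | cons a s ha hs ih =>
    have e := (h a (by simp)).max (ih fun b hb => h b (by simp [hb]))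
    simpa only [Finset.sup'_cons hs] using e

theorem DCV.inf' {α : Type} (s : Finset α) (hs : s.Nonempty) {u : α → X → ℝ}
    (h : ∀ a ∈ s, DCV (u a)) : DCV (fun x => s.inf' hs (fun a => u a x)) := by
  induction hs using Finset.Nonempty.cons_induction with
  | singleton a => simpa using h a (by simp)
  | cons a s ha hs ih =>
    have e := (h a (by simp)).min (ih fun b hb => h b (by simp [hb]))
    simpa only [Finset.inf'_cons hs] using e

theorem DCV.continuous {T : X → Y} (h : DCV T) : Continuous T := by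
  obtain ⟨K, Φ, hK, h1, -, -⟩ := h
  exact (LipschitzWith.of_dist_le_mul (K := ⟨K, hK⟩) fun x y => by
    rw [dist_eq_norm, dist_eq_norm]
    exact h1 x y).continuous

theorem DCV.dc {u : X → ℝ} (h : DCV u) :
    ∃ g k : X → ℝ, ConvexOn ℝ univ g ∧ ConvexOn ℝ univ k ∧ ∀ x, u x = g x - k x := by
  obtain ⟨K, Φ, -, -, -, h3⟩ := h
  refine ⟨fun x => u x + Φ x, Φ, ⟨convex_univ, fun x _ y _ a b ha hb hab => ?_⟩,
    ⟨convex_univ, fun x _ y _ a b ha hb hab => ?_⟩, fun x => by ring⟩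
  · have e := (abs_le.1 (h3 x y a b ha hb hab)).1
    simp only [smul_eq_mul] at e ⊢
    linarith
  · have e := (norm_nonneg _).trans (h3 x y a b ha hb hab)
    simp only [smul_eq_mul]
    linarith

theorem Ctx.dcv {d : ℕ} {f φ : V d → ℝ} {L : ℝ} (h : Ctx f φ L) : DCV f := by
  refine ⟨L, φ, zero_le_one.trans h.one_le, h.lipf, h.lipφ, fun x y a b ha hb hab => ?_⟩
  have e1 := h.cvxp.2 (mem_univ x) (mem_univ y) ha hb hab
  have e2 := h.cvxm.2 (mem_univ x) (mem_univ y) ha hb hab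
  simp only [smul_eq_mul] at e1 e2 ⊢
  rw [Real.norm_eq_abs, abs_le]
  constructor <;> linarith

theorem dcv_prj {d : ℕ} (I : Finset (Fin d)) : DCV (prj I) := by
  refine DCV.pi fun j => ?_
  by_cases hj : j ∈ I
  · simpa only [prj, if_pos hj] using (DCV.id (X := V d)).apply j
  · simpa only [prj, if_neg hj] using DCV.const (X := V d) (0 : ℝ)

theorem exists_clamp (d : ℕ) : ∃ C : V d × ℝ → V d, DCV C ∧ ∀ (u : V d) (b : ℝ), 0 ≤ b →
    ‖C (u, b)‖ ≤ b ∧ (‖u‖ ≤ b → C (u, b) = u) ∧ ∀ j, u j = 0 → C (u, b) j = 0 := by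
  refine ⟨fun p j => max (-p.2) (min (p.1 j) p.2),
    DCV.pi fun j => DCV.snd.neg.max ((DCV.fst.apply j).min DCV.snd), fun u b hb => ⟨?_, ?_, ?_⟩⟩
  · rw [pi_norm_le_iff_of_nonneg hb]
    intro j
    rw [Real.norm_eq_abs, abs_le]
    exact ⟨le_max_left _ _, max_le (by linarith) (min_le_right _ _)⟩
  · intro hu
    funext j
    have e := abs_le.1 ((norm_le_pi_norm u j).trans hu)
    show max (-b) (min (u j) b) = u j
    rw [min_eq_left e.2, max_eq_right e.1]
  · intro j hj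
    show max (-b) (min (u j) b) = 0
    rw [hj, min_eq_left hb, max_eq_right (by linarith)]

theorem dc_exists_Q : ∃ Q : ℝ × ℝ → ℝ, DCV Q ∧
    ∀ u N : ℝ, 0 < N → |u| ≤ 2 * N → Q (u, N) = u ^ 2 / N := by
  have hne : ∀ p : ℝ × ℝ, ((fun a : ℝ => 2 * a * p.1 - a ^ 2 * p.2) '' Icc (-2) 2).Nonempty :=
    fun p => ⟨_, 0, ⟨by norm_num, by norm_num⟩, rfl⟩
  have hlip : ∀ a ∈ Icc (-2 : ℝ) 2, ∀ p : ℝ × ℝ, 2 * a * p.1 - a ^ 2 * p.2 ≤ 8 * ‖p‖ := by
    intro a ha p
    have e1 := abs_le.1 (norm_fst_le p)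
    have e2 := abs_le.1 (norm_snd_le p)
    have e3 : a ^ 2 ≤ 4 := by nlinarith [ha.1, ha.2]
    have e4 : a * p.1 ≤ 2 * ‖p‖ := by
      rcases le_total 0 a with h | h <;> nlinarith [ha.1, ha.2, norm_nonneg p]
    have e5 : -(a ^ 2 * p.2) ≤ 4 * ‖p‖ := by nlinarith [sq_nonneg a, norm_nonneg p]
    linarith
  have hbd : ∀ p : ℝ × ℝ, BddAbove ((fun a : ℝ => 2 * a * p.1 - a ^ 2 * p.2) '' Icc (-2) 2) :=
    fun p => ⟨8 * ‖p‖, by
      rintro _ ⟨a, ha, rfl⟩
      exact hlip a ha p⟩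
  have hle : ∀ p : ℝ × ℝ, ∀ a ∈ Icc (-2 : ℝ) 2, 2 * a * p.1 - a ^ 2 * p.2 ≤
      sSup ((fun a : ℝ => 2 * a * p.1 - a ^ 2 * p.2) '' Icc (-2) 2) :=
    fun p a ha => le_csSup (hbd p) ⟨a, ha, rfl⟩
  have hone : ∀ p q : ℝ × ℝ, sSup ((fun a : ℝ => 2 * a * p.1 - a ^ 2 * p.2) '' Icc (-2) 2) ≤
      sSup ((fun a : ℝ => 2 * a * q.1 - a ^ 2 * q.2) '' Icc (-2) 2) + 8 * ‖p - q‖ := by
    intro p q
    refine csSup_le (hne p) ?_
    rintro _ ⟨a, ha, rfl⟩
    have e1 := hle q a ha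
    have e2 := hlip a ha (p - q)
    simp only [Prod.fst_sub, Prod.snd_sub] at e2 ⊢
    linarith
  refine ⟨fun p => sSup ((fun a : ℝ => 2 * a * p.1 - a ^ 2 * p.2) '' Icc (-2) 2),
    DCV.of_convex (L := 8) (by norm_num) ⟨convex_univ, fun p _ q _ s t hs ht _ => ?_⟩
      fun p q => ?_, fun u N hN hu => ?_⟩
  · refine csSup_le (hne _) ?_
    rintro _ ⟨a, ha, rfl⟩
    have e1 := mul_le_mul_of_nonneg_left (hle p a ha) hs
    have e2 := mul_le_mul_of_nonneg_left (hle q a ha) ht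
    simp only [Prod.fst_add, Prod.snd_add, Prod.smul_fst, Prod.smul_snd, smul_eq_mul]
    linarith
  · have e1 := hone p q
    have e2 := hone q p
    rw [norm_sub_rev] at e2
    rw [abs_le]
    constructor <;> linarith
  · refine le_antisymm (csSup_le (hne _) ?_) ?_
    · rintro _ ⟨a, -, rfl⟩
      rw [le_div_iff₀ hN]
      nlinarith [sq_nonneg (u - a * N)]
    · have e := abs_le.1 hu
      have e1 := hle (u, N) (u / N)
        ⟨by rw [le_div_iff₀ hN]; linarith [e.1], by rw [div_le_iff₀ hN]; exact e.2⟩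
      refine le_trans (le_of_eq ?_) e1
      field_simp
      ring

theorem exists_slide (d : ℕ) : ∃ S : V d × ℝ → V d, DCV S ∧ ∀ (z : V d) (b : ℝ), 0 ≤ b →
    ∃ t : ℝ, 0 ≤ t ∧ t ≤ 1 ∧ S (z, b) = t • z ∧ (1 - t) * ‖z‖ ≤ b ∧ (t = 0 ∨ b ≤ ‖z‖) := by
  obtain ⟨Q, hQ, hv⟩ := dc_exists_Q
  have hN : DCV (fun p : V d × ℝ => ‖p.1‖) := DCV.fst.norm
  have hb' : DCV (fun p : V d × ℝ => min p.2 ‖p.1‖) := DCV.snd.min hN
  refine ⟨fun p j => p.1 j - (Q (p.1 j + min p.2 ‖p.1‖, ‖p.1‖) -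
      Q (p.1 j - min p.2 ‖p.1‖, ‖p.1‖)) / 4, DCV.pi fun j => ?_, fun z b hb => ?_⟩
  · have hj : DCV (fun p : V d × ℝ => p.1 j) := DCV.fst.apply j
    exact hj.sub (((hQ.comp ((hj.add hb').prodMk hN)).sub
      (hQ.comp ((hj.sub hb').prodMk hN))).div_const 4)
  · rcases (norm_nonneg z).eq_or_lt with h0 | h0
    · have hz : z = 0 := norm_eq_zero.1 h0.symm
      subst hz
      refine ⟨0, le_rfl, zero_le_one, ?_, by simpa using hb, Or.inl rfl⟩
      funext j
      simp [min_eq_right hb]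
    · have m0 : 0 ≤ min b ‖z‖ := le_min hb h0.le
      have m1 : min b ‖z‖ ≤ ‖z‖ := min_le_right _ _
      refine ⟨1 - min b ‖z‖ / ‖z‖, ?_, ?_, ?_, ?_, ?_⟩
      · rw [sub_nonneg, div_le_one h0]
        exact m1
      · have : 0 ≤ min b ‖z‖ / ‖z‖ := div_nonneg m0 h0.le
        linarith
      · funext j
        have e := abs_le.1 (norm_le_pi_norm z j)
        have e1 := hv (z j + min b ‖z‖) ‖z‖ h0 (abs_le.2 ⟨by linarith [e.1], by linarith [e.2]⟩)
        have e2 := hv (z j - min b ‖z‖) ‖z‖ h0 (abs_le.2 ⟨by linarith [e.1], by linarith [e.2]⟩)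
        simp only [Pi.smul_apply, smul_eq_mul]
        rw [e1, e2]
        field_simp
        ring
      · rw [sub_sub_cancel, div_mul_cancel₀ _ h0.ne']
        exact min_le_left _ _
      · rcases le_total b ‖z‖ with h | h
        · exact Or.inr h
        · left
          rw [min_eq_right h, div_self h0.ne', sub_self]

end Pool.Agent.MP_b8fe60_gt

end

-- part MP_b8fe60_gt.Seq
section

/-! Sequential composition of admissible maps. -/

namespace Pool.Agent.MP_b8fe60_gt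

open Set

variable {d : ℕ} {f φ : V d → ℝ} {L : ℝ}

theorem Adm.id (f : V d → ℝ) (I : Finset (Fin d)) : Adm f I 0 (fun y => y) :=
  ⟨le_rfl, DCV.id, fun y => InE.refl I y, fun y => by simp⟩

theorem Adm.f_le (h : Ctx f φ L) {I : Finset (Fin d)} {K : ℝ} {T : V d → V d} (hT : Adm f I K T)
    (y : V d) : f (T y) ≤ (1 + L * K) * f y := by
  have h1 := h.f_le (T y) y
  have h2 := mul_le_mul_of_nonneg_left (hT.2.2.2 y) (le_trans zero_le_one h.one_le)
  nlinarith

theorem Adm.comp (h : Ctx f φ L) {I : Finset (Fin d)} {K K' : ℝ} {S T : V d → V d}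
    (hS : Adm f I K S) (hT : Adm f I K' T) :
    Adm f I (K' + K * (1 + L * K')) (fun y => S (T y)) := by
  have hL : 0 ≤ L := le_trans zero_le_one h.one_le
  refine ⟨?_, hS.2.1.comp hT.2.1, fun y => (hS.2.2.1 (T y)).trans (hT.2.2.1 y), fun y => ?_⟩
  · have := hS.1
    have := hT.1
    positivity
  · have h1 : ‖S (T y) - y‖ ≤ ‖S (T y) - T y‖ + ‖T y - y‖ := by
      simpa using norm_add_le (S (T y) - T y) (T y - y)
    have h2 := hS.2.2.2 (T y)
    have h3 := hT.2.2.2 y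
    have h4 := mul_le_mul_of_nonneg_left (hT.f_le h y) hS.1
    nlinarith

theorem Adm.zero {I : Finset (Fin d)} {K : ℝ} {T : V d → V d} (hT : Adm f I K T) {y : V d}
    (hy : f y = 0) : f (T y) = 0 := by
  rw [hT.fix hy, hy]

theorem seq_ball (h : Ctx f φ L) (I : Finset (Fin d)) {α : Type} (s : Finset α)
    (T : α → V d → V d) (hT : ∀ j ∈ s, ∃ K, Adm f I K (T j)) :
    ∃ K S, Adm f I K S ∧ ∀ x, ∀ j ∈ s,
      (∀ y, InE I (y - x) → ‖y - x‖ ≤ K * f x → f (T j y) = 0) → f (S x) = 0 := by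
  classical
  induction s using Finset.induction_on with
  | empty => exact ⟨0, _, Adm.id f I, fun x j hj => absurd hj (Finset.notMem_empty j)⟩
  | insert a s _ ih =>
    obtain ⟨K, S, hS, hK⟩ := ih (fun j hj => hT j (Finset.mem_insert_of_mem hj))
    obtain ⟨Ka, ha⟩ := hT a (Finset.mem_insert_self a s)
    have hL : 0 ≤ L := le_trans zero_le_one h.one_le
    have hle : K ≤ K + Ka * (1 + L * K) := by
      have := ha.1
      have := hS.1
      have : 0 ≤ Ka * (1 + L * K) := by positivity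
      linarith
    refine ⟨_, _, ha.comp h hS, fun x j hj hy => ?_⟩
    have hx := mul_le_mul_of_nonneg_right hle (h.nonneg x)
    rcases Finset.mem_insert.1 hj with rfl | hj
    · exact hy _ (hS.2.2.1 x) ((hS.2.2.2 x).trans hx)
    · exact ha.zero (hK x j hj (fun y h1 h2 => hy y h1 (h2.trans hx)))

theorem seq_inv (h : Ctx f φ L) (I : Finset (Fin d)) {α : Type} (s : Finset α)
    (T : α → V d → V d) (hT : ∀ j ∈ s, ∃ K, Adm f I K (T j)) :
    ∃ K S, Adm f I K S ∧ ∀ P : V d → Prop, (∀ j ∈ s, ∀ y, P y → P (T j y)) →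
      ∀ x, P x → P (S x) ∧ ∀ j ∈ s, (∀ y, P y → f (T j y) = 0) → f (S x) = 0 := by
  classical
  induction s using Finset.induction_on with
  | empty =>
    exact ⟨0, _, Adm.id f I, fun P _ x hx => ⟨hx, fun j hj => absurd hj (Finset.notMem_empty j)⟩⟩
  | insert a s _ ih =>
    obtain ⟨K, S, hS, hK⟩ := ih (fun j hj => hT j (Finset.mem_insert_of_mem hj))
    obtain ⟨Ka, ha⟩ := hT a (Finset.mem_insert_self a s)
    refine ⟨_, _, ha.comp h hS, fun P hP x hx => ?_⟩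
    obtain ⟨h1, h2⟩ := hK P (fun j hj => hP j (Finset.mem_insert_of_mem hj)) x hx
    refine ⟨hP a (Finset.mem_insert_self a s) _ h1, fun j hj hy => ?_⟩
    rcases Finset.mem_insert.1 hj with rfl | hj
    · exact hy _ h1
    · exact ha.zero (h2 j hj hy)

end Pool.Agent.MP_b8fe60_gt

end

-- part MP_b8fe60_gt.Drop
section

/-
HINTS.  slope_le (s ≥ 0; for s < 0 use -τ): φ + f convex gives (φ+f)(z + sτ) - (φ+f) z ≤ (s/T) ((φ+f)(z + Tτ) - (φ+f) z); φ convex gives φ (z + sτ) - φ z ≥ -(s/T) (φ (z - Tτ) - φ z); φ - f convex at the midpoint x and f ≥ 0 give f (x ± Tτ) ≤ 2 f x + κ T; move from x to z with the Lipschitz bounds (L δ for f, 4 L δ for the second difference of φ).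
desc_drop: e' = e - ∑_{l ∈ Λ} e l • τ l lies in E_{J \ Λ}, ‖e'‖ ≤ 1 + d B; f (z - s e') ≤ f (z - s e) + d ε s by adding the terms (s * e l) • τ l one at a time (Finset induction, all intermediate points stay within δ of y); normalise e'' = (1 + d B)⁻¹ • e'.
-/

namespace Pool.Agent.MP_b8fe60_gt

open Set

variable {d : ℕ} {f φ : V d → ℝ} {L : ℝ}

theorem drop_mid {g : V d → ℝ} (hg : ConvexOn ℝ univ g) (x v : V d) :
    2 * g x ≤ g (x + v) + g (x - v) := by
  have h := hg.2 (mem_univ (x + v)) (mem_univ (x - v)) (show (0 : ℝ) ≤ 1 / 2 by norm_num)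
    (show (0 : ℝ) ≤ 1 / 2 by norm_num) (by norm_num)
  rw [show (1 / 2 : ℝ) • (x + v) + (1 / 2 : ℝ) • (x - v) = x by module] at h
  simp only [smul_eq_mul] at h
  linarith

theorem drop_slope (h : Ctx f φ L) {x τ : V d} {κ T δ : ℝ} (hT : 0 < T)
    (hsec : φ (x + T • τ) + φ (x - T • τ) - 2 * φ x ≤ κ * T) (z : V d) (s : ℝ)
    (hz : ‖z - x‖ ≤ δ) (hs0 : 0 ≤ s) (hs : s ≤ T) :
    f (z + s • τ) ≤ f z + (2 * κ + (2 * f x + 5 * L * δ) / T) * s := by
  obtain ⟨a, rfl⟩ : ∃ a, s = a * T := ⟨s / T, by field_simp⟩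
  have ha0 : 0 ≤ a := nonneg_of_mul_nonneg_left hs0 hT
  have ha1 : a ≤ 1 := by
    by_contra h1
    nlinarith
  have h1 := h.cvxp.2 (mem_univ z) (mem_univ (z + T • τ)) (sub_nonneg.2 ha1) ha0 (by ring)
  rw [show (1 - a) • z + a • (z + T • τ) = z + (a * T) • τ by module] at h1
  have hb : 0 < 1 + a := by linarith
  have h2 := h.cvx.2 (mem_univ (z + (a * T) • τ)) (mem_univ (z - T • τ)) (inv_nonneg.2 hb.le)
    (mul_nonneg (inv_nonneg.2 hb.le) ha0) (by field_simp)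
  rw [mul_smul (1 + a)⁻¹ a, ← smul_add,
    show z + (a * T) • τ + a • (z - T • τ) = (1 + a) • z by module, inv_smul_smul₀ hb.ne'] at h2
  simp only [smul_eq_mul] at h1 h2
  have h3 : (1 + a) * φ z ≤ φ (z + (a * T) • τ) + a * φ (z - T • τ) := by
    refine (mul_le_mul_of_nonneg_left h2 hb.le).trans (le_of_eq ?_)
    field_simp
  have hL : L * ‖z - x‖ ≤ L * δ := mul_le_mul_of_nonneg_left hz (zero_le_one.trans h.one_le)
  have h4 := (abs_le.1 (h.lipφ (z + T • τ) (x + T • τ))).2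
  have h5 := (abs_le.1 (h.lipφ (z - T • τ) (x - T • τ))).2
  have h6 := (abs_le.1 (h.lipφ z x)).1
  have h7 := h.f_le (z + T • τ) (x + T • τ)
  rw [add_sub_add_right_eq_sub] at h4 h7
  rw [sub_sub_sub_cancel_right] at h5
  have h8 := drop_mid h.cvxm x (T • τ)
  have h9 : φ (z + T • τ) + φ (z - T • τ) - 2 * φ z + f (z + T • τ) - f z ≤
      2 * (κ * T) + 2 * f x + 5 * (L * δ) := by
    linarith [h.nonneg z, h.nonneg (x - T • τ)]
  have h10 := mul_le_mul_of_nonneg_left h9 ha0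
  have h11 : (2 * κ + (2 * f x + 5 * L * δ) / T) * (a * T) =
      a * (2 * (κ * T) + 2 * f x + 5 * (L * δ)) := by field_simp; ring
  rw [h11]
  linarith

theorem drop_sum {Λ : Finset (Fin d)} {B δ ε ρ : ℝ} {y w : V d} {τ : Fin d → V d} {t : V d}
    (hρ : 0 ≤ ρ) (hρδ : ρ ≤ δ) (hB : 0 ≤ B) (hε : 0 ≤ ε) (ht : ∀ l, |t l| ≤ ρ)
    (hτ : ∀ l ∈ Λ, ‖τ l‖ ≤ B)
    (hsl : ∀ l ∈ Λ, ∀ (z : V d) (s : ℝ), ‖z - y‖ ≤ δ → |s| ≤ δ → f (z + s • τ l) ≤ f z + ε * |s|)
    (hw : ‖w - y‖ + Λ.card * (ρ * B) ≤ δ) :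
    f (w + ∑ l ∈ Λ, t l • τ l) ≤ f w + Λ.card * (ε * ρ) := by
  induction Λ using Finset.induction_on with
  | empty => simp
  | insert l S hl ih =>
    rw [Finset.card_insert_of_notMem hl] at hw ⊢
    push_cast at hw ⊢
    have h0 : 0 ≤ ρ * B := mul_nonneg hρ hB
    have h1 := ih (fun l' hl' => hτ l' (Finset.mem_insert_of_mem hl'))
      (fun l' hl' => hsl l' (Finset.mem_insert_of_mem hl')) (by linarith)
    have h2 : ‖∑ l ∈ S, t l • τ l‖ ≤ S.card * (ρ * B) := by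
      refine (norm_sum_le _ _).trans ?_
      rw [← nsmul_eq_mul]
      refine Finset.sum_le_card_nsmul _ _ _ fun l' hl' => ?_
      rw [norm_smul, Real.norm_eq_abs]
      exact mul_le_mul (ht l') (hτ l' (Finset.mem_insert_of_mem hl')) (norm_nonneg _) hρ
    have h3 : ‖w + ∑ l ∈ S, t l • τ l - y‖ ≤ δ := by
      rw [add_sub_right_comm]
      exact (norm_add_le _ _).trans (by linarith)
    have h4 := hsl l (Finset.mem_insert_self _ _) _ (t l) h3 ((ht l).trans hρδ)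
    have h5 := mul_le_mul_of_nonneg_left (ht l) hε
    rw [Finset.sum_insert hl, add_comm (t l • τ l), ← add_assoc]
    linarith

theorem slope_le (h : Ctx f φ L) {x τ : V d} {κ T δ : ℝ} (hT : 0 < T)
    (hsec : φ (x + T • τ) + φ (x - T • τ) - 2 * φ x ≤ κ * T) (z : V d) (s : ℝ)
    (hz : ‖z - x‖ ≤ δ) (hs : |s| ≤ T) :
    f (z + s • τ) ≤ f z + (2 * κ + (2 * f x + 5 * L * δ) / T) * |s| := by
  rcases le_total 0 s with h0 | h0
  · rw [abs_of_nonneg h0] at hs ⊢
    exact drop_slope h hT hsec z s hz h0 hs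
  · rw [abs_of_nonpos h0] at hs ⊢
    have h1 := drop_slope h (τ := -τ) (κ := κ) hT (by
      rw [smul_neg, sub_neg_eq_add, ← sub_eq_add_neg]; linarith) z (-s) hz (neg_nonneg.2 h0) hs
    rwa [neg_smul_neg] at h1

theorem desc_drop {J Λ : Finset (Fin d)} {c B δ ε : ℝ} {y : V d} (hD : Desc f J c y) (hc : 0 < c)
    (hB : 1 ≤ B) (τ : Fin d → V d)
    (hτ : ∀ l ∈ Λ, InE J (τ l) ∧ τ l l = 1 ∧ (∀ l' ∈ Λ, l' ≠ l → τ l l' = 0) ∧ ‖τ l‖ ≤ B)
    (hδ : 0 < δ) (hε : 0 ≤ ε)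
    (hsl : ∀ l ∈ Λ, ∀ (z : V d) (s : ℝ), ‖z - y‖ ≤ δ → |s| ≤ δ → f (z + s • τ l) ≤ f z + ε * |s|)
    (hεc : d * ε ≤ c / 2) : Desc f (J \ Λ) (c / (2 * (1 + d * B))) y := by
  obtain ⟨e, δ₀, hδ₀, he, he1, hd⟩ := hD
  have hB0 : 0 ≤ B := zero_le_one.trans hB
  have hcard : (Λ.card : ℝ) ≤ d := by exact_mod_cast card_finset_fin_le Λ
  have hdB : 0 ≤ d * B := by positivity
  have hN : 0 < 1 + d * B := by linarith
  have hel : ∀ l, |e l| ≤ 1 := fun l => (norm_le_pi_norm e l).trans he1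
  refine ⟨(1 + d * B)⁻¹ • (e - ∑ l ∈ Λ, e l • τ l), min δ₀ (δ / 2), lt_min hδ₀ (half_pos hδ),
    InE.smul _ fun j hj => ?_, ?_, fun z s hz hzy hs0 hs => ?_⟩
  · rw [Pi.sub_apply, Finset.sum_apply, sub_eq_zero]
    by_cases hjΛ : j ∈ Λ
    · rw [Finset.sum_eq_single_of_mem j hjΛ fun l hl hlj => by
        simp [(hτ l hl).2.2.1 j hjΛ hlj.symm]]
      simp [(hτ j hjΛ).2.1]
    · have hjJ : j ∉ J := fun h => hj (Finset.mem_sdiff.2 ⟨h, hjΛ⟩)
      rw [he j hjJ]
      exact (Finset.sum_eq_zero fun l hl => by simp [(hτ l hl).1 j hjJ]).symm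
  · rw [norm_smul, Real.norm_of_nonneg (inv_nonneg.2 hN.le), inv_mul_le_iff₀ hN, mul_one]
    have h2 : ‖∑ l ∈ Λ, e l • τ l‖ ≤ Λ.card * B := by
      refine (norm_sum_le _ _).trans ?_
      rw [← nsmul_eq_mul]
      refine Finset.sum_le_card_nsmul _ _ _ fun l hl => ?_
      rw [norm_smul, Real.norm_eq_abs]
      exact (mul_le_mul (hel l) (hτ l hl).2.2.2 (norm_nonneg _) zero_le_one).trans_eq (one_mul B)
    exact (norm_sub_le _ _).trans (add_le_add he1 (h2.trans (by gcongr)))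
  · obtain ⟨ρ, rfl⟩ : ∃ ρ, s = ρ * (1 + d * B) := ⟨s / (1 + d * B), by field_simp⟩
    have hρ : 0 ≤ ρ := nonneg_of_mul_nonneg_left hs0 hN
    have h1 := hzy.trans (min_le_left _ _)
    have h2 := hzy.trans (min_le_right _ _)
    have h3 := hs.trans (min_le_left _ _)
    have h4 := hs.trans (min_le_right _ _)
    have h5 : 0 ≤ ρ * (d * B) := mul_nonneg hρ hdB
    have h6 := hd z ρ (hz.mono Finset.sdiff_subset) h1 hρ (by linarith)
    have h7 : ‖z - ρ • e - y‖ ≤ δ / 2 + ρ := by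
      rw [sub_right_comm]
      refine (norm_sub_le _ _).trans (add_le_add h2 ?_)
      rw [norm_smul, Real.norm_of_nonneg hρ]
      exact mul_le_of_le_one_right hρ he1
    have h8 : Λ.card * (ρ * B) ≤ d * (ρ * B) := by gcongr
    have h9 := drop_sum (w := z - ρ • e) (t := ρ • e) hρ (by linarith) hB0 hε
      (fun l => by
        rw [Pi.smul_apply, smul_eq_mul, abs_mul, abs_of_nonneg hρ]
        exact mul_le_of_le_one_right hρ (hel l))
      (fun l hl => (hτ l hl).2.2.2) hsl (by linarith)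
    have h10 : Λ.card * (ε * ρ) ≤ d * (ε * ρ) := by gcongr
    have h11 := mul_le_mul_of_nonneg_right hεc hρ
    have h12 : c / (2 * (1 + d * B)) * (ρ * (1 + d * B)) = c / 2 * ρ := by field_simp
    have h13 : z - (ρ * (1 + d * B)) • (1 + d * B)⁻¹ • (e - ∑ l ∈ Λ, e l • τ l) =
        z - ρ • e + ∑ l ∈ Λ, (ρ • e) l • τ l := by
      rw [smul_smul, mul_inv_cancel_right₀ hN.ne', smul_sub, Finset.smul_sum]
      simp only [Pi.smul_apply, smul_eq_mul, mul_smul]
      abel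
    rw [h12, h13]
    linarith

theorem hyp_drop (h : Ctx f φ L) {R c B κ T r δ : ℝ} {I : Finset (Fin d)} {x τ : V d} {l : Fin d}
    (hH : Hyp f R I I c x r) (hc : 0 < c) (hB : 1 ≤ B) (hτ : InE I τ) (hl : τ l = 1)
    (hτB : ‖τ‖ ≤ B) (hT : 0 < T) (hsec : φ (x + T • τ) + φ (x - T • τ) - 2 * φ x ≤ κ * T)
    (hr : 0 ≤ r) (hδ : r < δ) (hsm : d * (2 * κ + (2 * f x + 5 * L * δ) / T) ≤ c / 2) :
    Hyp f R I (I.erase l) (c / (2 * (1 + d * B))) x r := by
  refine ⟨hH.1, fun y hy hyr hf => ?_⟩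
  have hκ : 0 ≤ κ := nonneg_of_mul_nonneg_left (b := T)
    (by linarith [drop_mid h.cvx x (T • τ)]) hT
  have hL := zero_le_one.trans h.one_le
  have hδ0 : 0 ≤ δ := hr.trans hδ.le
  have hfx := h.nonneg x
  rw [← Finset.sdiff_singleton_eq_erase]
  refine desc_drop (δ := min (δ - r) T) (hH.2 y hy hyr hf) hc hB (fun _ => τ)
    (fun l' hl' => ?_) (lt_min (sub_pos.2 hδ) hT) (by positivity) (fun _ _ z s hz hs => ?_) hsm
  · obtain rfl := Finset.mem_singleton.1 hl'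
    exact ⟨hτ, hl, fun l'' h1 h2 => absurd (Finset.mem_singleton.1 h1) h2, hτB⟩
  · refine slope_le h hT hsec z s ?_ (hs.trans (min_le_right _ _))
    have h1 : ‖z - x‖ ≤ ‖z - y‖ + ‖y - x‖ := by simpa using norm_add_le (z - y) (y - x)
    linarith [hz.trans (min_le_left _ _)]

end Pool.Agent.MP_b8fe60_gt

end

-- part MP_b8fe60_gt.Flow
section

/-! Approximate retraction by Euler steps of a pseudo-gradient field. -/

namespace Pool.Agent.MP_b8fe60_gt

open Set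

variable {d : ℕ}

theorem flow_sum {I : Finset (Fin d)} {F : V d → ℝ} {c δ₀ : ℝ} {t : Finset (V d)}
    {e : V d → V d} {δ σ : V d → ℝ} {y : V d} (hy : InE I y) (ht : ∀ x ∈ t, InE I x)
    (he : ∀ x ∈ t, InE I (e x) ∧ ‖e x‖ ≤ 1)
    (hD : ∀ x ∈ t, ∀ (z : V d) (s : ℝ), InE I (z - x) → ‖z - x‖ ≤ δ x → 0 ≤ s → s ≤ δ x →
      F (z - s • e x) ≤ F z - c * s)
    (hδ : ∀ x ∈ t, δ₀ ≤ δ x) (hσ : ∀ x, 0 ≤ σ x) (hs : ∑ x ∈ t, σ x ≤ δ₀ / 2)
    (hn : ∀ x ∈ t, σ x ≠ 0 → ‖y - x‖ ≤ δ x / 2) (u : Finset (V d)) (hu : u ⊆ t) :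
    InE I (y - ∑ x ∈ u, σ x • e x) ∧ ‖∑ x ∈ u, σ x • e x‖ ≤ ∑ x ∈ u, σ x ∧
      F (y - ∑ x ∈ u, σ x • e x) ≤ F y - c * ∑ x ∈ u, σ x := by
  classical
  induction u using Finset.induction_on with
  | empty => simpa using hy
  | insert x u hx ih =>
    have hxt : x ∈ t := hu (Finset.mem_insert_self _ _)
    have hut : u ⊆ t := (Finset.subset_insert _ _).trans hu
    obtain ⟨h1, h2, h3⟩ := ih hut
    have e1 : y - (σ x • e x + ∑ x ∈ u, σ x • e x) = y - ∑ x ∈ u, σ x • e x - σ x • e x := by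
      abel
    have h4 : ‖σ x • e x‖ ≤ σ x := by
      rw [norm_smul, Real.norm_eq_abs, abs_of_nonneg (hσ x)]
      exact mul_le_of_le_one_right (hσ x) (he x hxt).2
    rw [Finset.sum_insert hx, Finset.sum_insert hx, e1]
    refine ⟨h1.sub ((he x hxt).1.smul _), (norm_add_le _ _).trans (add_le_add h4 h2), ?_⟩
    by_cases h0 : σ x = 0
    · simpa [h0] using h3
    · have h5 : ∑ x ∈ u, σ x ≤ δ₀ / 2 :=
        (Finset.sum_le_sum_of_subset_of_nonneg hut fun x _ _ => hσ x).trans hs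
      have h6 : σ x ≤ δ₀ / 2 := (Finset.single_le_sum (fun x _ => hσ x) hxt).trans hs
      have h7 : ‖y - ∑ x ∈ u, σ x • e x - x‖ ≤ δ x := by
        rw [sub_right_comm]
        have := norm_sub_le (y - x) (∑ x ∈ u, σ x • e x)
        linarith [hn x hxt h0, hδ x hxt]
      have h8 := hD x hxt _ (σ x) (h1.sub (ht x hxt)) h7 (hσ x) (by linarith [hδ x hxt, hσ x])
      linarith

theorem flow_step (I : Finset (Fin d)) (F : V d → ℝ) (c R η : ℝ) (hη : 0 < η)
    (hF : Continuous F) (hD : ∀ y, InE I y → ‖y‖ ≤ R → 0 < F y → Desc F I c y) :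
    ∃ (T : V d → V d) (s : V d → ℝ) (m : ℝ), Continuous T ∧ 0 < m ∧ ∀ y, InE I y →
      InE I (T y) ∧ ‖T y - y‖ ≤ s y ∧ F (T y) ≤ F y - c * s y ∧
        (‖y‖ ≤ R → η ≤ F y → m ≤ s y) := by
  classical
  set Y : Set (V d) := {y | InE I y ∧ ‖y‖ ≤ R ∧ η ≤ F y} with hY
  have hc : IsCompact Y := by
    refine (isCompact_closedBall (0 : V d) R).of_isClosed_subset ?_ fun y hy => by
      simpa using hy.2.1
    have h1 : IsClosed {y : V d | InE I y} := by
      simp only [InE, Set.ofPred_forall]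
      exact isClosed_iInter fun j => isClosed_iInter fun _ =>
        isClosed_eq (continuous_apply j) continuous_const
    exact h1.inter ((isClosed_le continuous_norm continuous_const).inter
      (isClosed_le continuous_const hF))
  have hex : ∀ y, ∃ (e : V d) (δ : ℝ), 0 < δ ∧ (y ∈ Y → InE I e ∧ ‖e‖ ≤ 1 ∧
      ∀ (z : V d) (s : ℝ), InE I (z - y) → ‖z - y‖ ≤ δ → 0 ≤ s → s ≤ δ →
        F (z - s • e) ≤ F z - c * s) := by
    intro y
    by_cases hy : y ∈ Y
    · obtain ⟨e, δ, h1, h2⟩ := hD y hy.1 hy.2.1 (hη.trans_le hy.2.2)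
      exact ⟨e, δ, h1, fun _ => h2⟩
    · exact ⟨0, 1, one_pos, fun h => absurd h hy⟩
  choose e δ hδ he using hex
  obtain ⟨t, htY, hcov⟩ := hc.elim_nhds_subcover (fun x => Metric.ball x (δ x / 4))
    fun x _ => Metric.ball_mem_nhds x (by linarith [hδ x])
  obtain ⟨δ₀, hδ₀, hle⟩ : ∃ δ₀ : ℝ, 0 < δ₀ ∧ ∀ x ∈ t, δ₀ ≤ δ x := by
    rcases t.eq_empty_or_nonempty with rfl | hne
    · exact ⟨1, one_pos, by simp⟩
    · obtain ⟨x, -, hx⟩ := t.exists_min_image δ hne
      exact ⟨δ x, hδ x, hx⟩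
  set A : ℝ := ∑ x ∈ t, δ x / 2 with hA
  have hA0 : 0 ≤ A := Finset.sum_nonneg fun x _ => by linarith [hδ x]
  set l : ℝ := δ₀ / 2 / (A + 1) with hl
  have hl0 : 0 < l := by positivity
  set σ : V d → V d → ℝ := fun y x => l * max 0 (δ x / 2 - ‖y - x‖) with hσ
  have hσ0 : ∀ y x, 0 ≤ σ y x := fun y x => mul_nonneg hl0.le (le_max_left _ _)
  refine ⟨fun y => y - ∑ x ∈ t, σ y x • e x, fun y => ∑ x ∈ t, σ y x, l * (δ₀ / 4), ?_,
    by positivity, fun y hy => ?_⟩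
  · refine continuous_id.sub (continuous_finsetSum _ fun x _ => ?_)
    simp only [hσ]
    fun_prop
  · have hs : ∑ x ∈ t, σ y x ≤ δ₀ / 2 := by
      have h1 : ∑ x ∈ t, σ y x ≤ l * A := by
        rw [hA, Finset.mul_sum]
        refine Finset.sum_le_sum fun x _ => mul_le_mul_of_nonneg_left ?_ hl0.le
        exact max_le (by linarith [hδ x]) (by linarith [norm_nonneg (y - x)])
      have h2 : l * (A + 1) = δ₀ / 2 := by rw [hl]; field_simp
      linarith
    obtain ⟨h1, h2, h3⟩ := flow_sum (F := F) (c := c) (σ := σ y) hy (fun x hx => (htY x hx).1)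
      (fun x hx => ⟨(he x (htY x hx)).1, (he x (htY x hx)).2.1⟩)
      (fun x hx => (he x (htY x hx)).2.2) hle (hσ0 y) hs (fun x _ h0 => by
        by_contra h
        exact h0 (by simp only [hσ]; rw [max_eq_left (by linarith), mul_zero])) t subset_rfl
    refine ⟨h1, by simpa using h2, h3, fun hR hη' => ?_⟩
    obtain ⟨x, hx, hb⟩ := mem_iUnion₂.1 (hcov ⟨hy, hR, hη'⟩)
    rw [mem_ball_iff_norm] at hb
    refine le_trans ?_ (Finset.single_le_sum (fun x _ => hσ0 y x) hx)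
    exact mul_le_mul_of_nonneg_left (le_max_of_le_right (by linarith [hle x hx])) hl0.le

theorem approx_retr (I : Finset (Fin d)) (F : V d → ℝ) (L c R η : ℝ) (hL : 0 ≤ L) (hc : 0 < c)
    (hR : 0 ≤ R) (hη : 0 < η) (hl : ∀ x y, |F x - F y| ≤ L * ‖x - y‖) (h0 : ∀ x, 0 ≤ F x)
    (h1 : F 0 ≤ 1)
    (hD : ∀ y, InE I y → ‖y‖ ≤ R + (1 + L * R) / c → 0 < F y → Desc F I c y) :
    ∃ ϖ : V d → V d, Continuous ϖ ∧ ∀ z, InE I z → ‖z‖ ≤ R →
      InE I (ϖ z) ∧ F (ϖ z) ≤ η ∧ ‖ϖ z - z‖ ≤ F z / c := by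
  have hF : Continuous F := by
    refine (LipschitzWith.of_dist_le_mul (K := ⟨L, hL⟩) fun x y => ?_).continuous
    rw [Real.dist_eq, dist_eq_norm]
    exact hl x y
  obtain ⟨T, s, m, hT, hm, h⟩ := flow_step I F c _ η hη hF hD
  obtain ⟨N, hN⟩ := exists_nat_ge ((1 + L * R) / (c * m))
  rw [div_le_iff₀ (by positivity)] at hN
  refine ⟨T^[N], hT.iterate N, fun z hz hzR => ?_⟩
  have hz1 : F z ≤ 1 + L * R := by
    have h2 := (abs_le.1 (hl z 0)).2
    rw [sub_zero] at h2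
    have h3 := mul_le_mul_of_nonneg_left hzR hL
    linarith
  have key : ∀ n : ℕ, InE I (T^[n] z) ∧ c * ‖T^[n] z - z‖ ≤ F z - F (T^[n] z) ∧
      (F (T^[n] z) ≤ η ∨ F (T^[n] z) ≤ F z - n * (c * m)) := by
    intro n
    induction n with
    | zero => simpa using hz
    | succ n ih =>
      obtain ⟨i1, i2, i3⟩ := ih
      rw [Function.iterate_succ_apply']
      set y := T^[n] z
      obtain ⟨k1, k2, k3, k4⟩ := h y i1
      have k5 : ‖T y - z‖ ≤ ‖T y - y‖ + ‖y - z‖ := by simpa using norm_add_le (T y - y) (y - z)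
      have k6 : 0 ≤ c * s y := mul_nonneg hc.le ((norm_nonneg _).trans k2)
      refine ⟨k1, ?_, ?_⟩
      · have := mul_le_mul_of_nonneg_left (k5.trans (add_le_add k2 le_rfl)) hc.le
        linarith
      · rcases le_total (F y) η with k7 | k7
        · exact Or.inl (by linarith)
        · rcases i3 with i3 | i3
          · exact Or.inl (by linarith)
          · have k8 : ‖y - z‖ ≤ (1 + L * R) / c := by
              rw [le_div_iff₀ hc]
              linarith [h0 y]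
            have k9 : ‖y‖ ≤ ‖z‖ + ‖y - z‖ := by simpa using norm_add_le z (y - z)
            have := mul_le_mul_of_nonneg_left (k4 (by linarith) k7) hc.le
            right
            push_cast
            linarith
  obtain ⟨i1, i2, i3⟩ := key N
  refine ⟨i1, ?_, ?_⟩
  · rcases i3 with i3 | i3
    · exact i3
    · linarith
  · rw [le_div_iff₀ hc]
    linarith [h0 (T^[N] z)]

end Pool.Agent.MP_b8fe60_gt

end

-- part MP_b8fe60_gt.Templ
section

/-
HINTS.  hom_approx: the restrictions z ↦ G (1, z) to the compact ball of the scalar functions G : ℝ × V d → ℝ that are DCV and positively homogeneous form a sublattice of C(closedBall 0 R, ℝ) containing the affine functions (G linear), hence dense by ContinuousMap.sublattice_closure_eq_top (SeparatesPointsStrongly: given x y and values, use an affine function of one coordinate where x and y differ, or a constant).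
finite_net: finite η'-net Zs of the ball; the map F ↦ (⌊F z / η'⌋)_{z ∈ Zs} has finite range on the class; pick one representative per value.
templates: for each representative F' take ϖ from approx_retr with a small η₀, approximate its coordinates with hom_approx, put 0 outside I; then compare F with F' on the ball of radius R + (1 + L R) / c + 1.
-/

namespace Pool.Agent.MP_b8fe60_gt

open Set

variable {d : ℕ}

theorem hom_approx (u : V d → ℝ) (hu : Continuous u) (R η : ℝ) (hη : 0 < η) :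
    ∃ G : ℝ × V d → ℝ, DCV G ∧ (∀ (t : ℝ) (p : ℝ × V d), 0 < t → G (t • p) = t * G p) ∧
      ∀ z, ‖z‖ ≤ R → |G (1, z) - u z| ≤ η := by
  let X := Metric.closedBall (0 : V d) R
  let P : (ℝ × V d → ℝ) → Prop := fun G =>
    DCV G ∧ ∀ (t : ℝ) (p : ℝ × V d), 0 < t → G (t • p) = t * G p
  let S : Set C(X, ℝ) := {g | ∃ G, P G ∧ ∀ z : X, g z = G (1, z)}
  have aff : ∀ l : (ℝ × V d) →L[ℝ] ℝ, ∃ g ∈ S, ∀ z : X, g z = l (1, z) := fun l =>
    ⟨⟨fun z => l (1, z), by fun_prop⟩,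
      ⟨l, ⟨DCV.clm l, fun t p _ => by simp only [map_smul, smul_eq_mul]⟩, fun _ => rfl⟩, fun _ => rfl⟩
  have hS : closure S = ⊤ := by
    refine ContinuousMap.sublattice_closure_eq_top S ?_ ?_ ?_ ?_
    · obtain ⟨g, hg, -⟩ := aff 0
      exact ⟨g, hg⟩
    · rintro f ⟨F, hF, hf⟩ g ⟨G, hG, hg⟩
      refine ⟨fun p => min (F p) (G p), ⟨hF.1.min hG.1, fun t p ht => ?_⟩, fun z => ?_⟩
      · simp only [hF.2 t p ht, hG.2 t p ht, mul_min_of_nonneg _ _ ht.le]
      · rw [ContinuousMap.inf_apply, hf, hg]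
    · rintro f ⟨F, hF, hf⟩ g ⟨G, hG, hg⟩
      refine ⟨fun p => max (F p) (G p), ⟨hF.1.max hG.1, fun t p ht => ?_⟩, fun z => ?_⟩
      · simp only [hF.2 t p ht, hG.2 t p ht, mul_max_of_nonneg _ _ ht.le]
      · rw [ContinuousMap.sup_apply, hf, hg]
    · intro v x y
      by_cases hxy : x = y
      · obtain ⟨g, hg, h⟩ := aff (v x • ContinuousLinearMap.fst ℝ ℝ (V d))
        exact ⟨g, hg, by simp [h], by simp [h, hxy]⟩
      · obtain ⟨j, hj⟩ : ∃ j, x.1 j ≠ y.1 j := by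
          by_contra hn
          push Not at hn
          exact hxy (Subtype.ext (funext hn))
        have hj' := sub_ne_zero.2 hj
        obtain ⟨g, hg, h⟩ := aff
          ((v y - (v x - v y) / (x.1 j - y.1 j) * y.1 j) • ContinuousLinearMap.fst ℝ ℝ (V d) +
            ((v x - v y) / (x.1 j - y.1 j)) •
              ((ContinuousLinearMap.proj j).comp (ContinuousLinearMap.snd ℝ ℝ (V d))))
        refine ⟨g, hg, ?_, ?_⟩
        · rw [h]; simp; field_simp; ring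
        · rw [h]; simp
  have h1 : (⟨fun z : X => u z, by fun_prop⟩ : C(X, ℝ)) ∈ closure S := by rw [hS]; trivial
  obtain ⟨g, ⟨G, hG, hg⟩, h2⟩ := Metric.mem_closure_iff.1 h1 η hη
  refine ⟨G, hG.1, hG.2, fun z hz => ?_⟩
  have h3 := ContinuousMap.dist_apply_le_dist (f := g) (g := ⟨fun z : X => u z, by fun_prop⟩)
    (⟨z, mem_closedBall_zero_iff.2 hz⟩ : X)
  rw [dist_comm] at h2
  rw [hg, Real.dist_eq] at h3
  exact h3.trans h2.le

theorem finite_net (𝒮 : Set (V d → ℝ)) (L R η : ℝ) (hL : 0 ≤ L) (hη : 0 < η)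
    (h : ∀ F ∈ 𝒮, (∀ x y, |F x - F y| ≤ L * ‖x - y‖) ∧ |F 0| ≤ 1) :
    ∃ 𝒮₀ : Set (V d → ℝ), 𝒮₀.Finite ∧ 𝒮₀ ⊆ 𝒮 ∧
      ∀ F ∈ 𝒮, ∃ F' ∈ 𝒮₀, ∀ z, ‖z‖ ≤ R → |F z - F' z| ≤ η := by
  have hε : 0 < η / (2 * L + 1) := by positivity
  set ε := η / (2 * L + 1) with hεd
  have hεη : ε * (2 * L + 1) = η := div_mul_cancel₀ _ (by positivity)
  obtain ⟨Z, hZ, hc⟩ := Metric.totallyBounded_iff.1
    (isCompact_closedBall (0 : V d) R).totallyBounded ε hε
  have : Finite Z := hZ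
  let Ψ : (V d → ℝ) → Z → ℤ := fun F z => ⌊F z / ε⌋
  have hfin : (Ψ '' 𝒮).Finite := by
    refine (Set.Finite.pi' (t := fun z : Z =>
      Icc ⌊-(1 + L * ‖z.1‖) / ε⌋ ⌊(1 + L * ‖z.1‖) / ε⌋) fun _ => finite_Icc _ _).subset ?_
    rintro _ ⟨F, hF, rfl⟩ z
    have h1 := abs_le.1 ((h F hF).1 z 0)
    have h2 := abs_le.1 (h F hF).2
    rw [sub_zero] at h1
    exact ⟨Int.floor_le_floor (div_le_div_of_nonneg_right (by linarith [h1.1, h2.1]) hε.le),
      Int.floor_le_floor (div_le_div_of_nonneg_right (by linarith [h1.2, h2.2]) hε.le)⟩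
  obtain ⟨T, hT, hTf, hTe⟩ := (Set.exists_subset_image_finite_and (f := Ψ) (s := 𝒮)
    (p := fun t => t = Ψ '' 𝒮)).1 ⟨_, subset_rfl, hfin, rfl⟩
  refine ⟨T, hTf, hT, fun F hF => ?_⟩
  obtain ⟨F', hF', he⟩ : Ψ F ∈ Ψ '' T := hTe ▸ mem_image_of_mem Ψ hF
  refine ⟨F', hF', fun z hz => ?_⟩
  obtain ⟨w, hw, hzw⟩ := mem_iUnion₂.1 (hc (mem_closedBall_zero_iff.2 hz))
  have h1 : ‖z - w‖ ≤ ε := by rw [← dist_eq_norm]; exact (Metric.mem_ball.1 hzw).le
  have h2 := abs_le.1 (((h F hF).1 z w).trans (mul_le_mul_of_nonneg_left h1 hL))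
  have h3 := abs_le.1 (((h F' (hT hF')).1 z w).trans (mul_le_mul_of_nonneg_left h1 hL))
  have h4 : |F' w / ε - F w / ε| < 1 := Int.abs_sub_lt_one_of_floor_eq_floor (congrFun he ⟨w, hw⟩)
  rw [← sub_div, abs_div, abs_of_pos hε, div_lt_one hε] at h4
  have h5 := abs_lt.1 h4
  exact abs_le.2 ⟨by nlinarith [h2.1, h3.2, h5.2], by nlinarith [h2.2, h3.1, h5.1]⟩

theorem templates (I : Finset (Fin d)) (L c R η : ℝ) (hL : 0 ≤ L) (hc : 0 < c) (hR : 0 ≤ R)
    (hη : 0 < η) :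
    ∃ 𝒢 : Set (ℝ × V d → V d), 𝒢.Finite ∧
      (∀ G ∈ 𝒢, DCV G ∧ (∀ p, InE I (G p)) ∧
        ∀ (t : ℝ) (p : ℝ × V d), 0 < t → G (t • p) = t • G p) ∧
      ∀ F : V d → ℝ, (∀ x y, |F x - F y| ≤ L * ‖x - y‖) → (∀ x, 0 ≤ F x) → F 0 ≤ 1 →
        (∀ y, InE I y → ‖y‖ ≤ R + (1 + L * R) / c → 0 < F y → Desc F I c y) →
        ∃ G ∈ 𝒢, ∀ z, InE I z → ‖z‖ ≤ R → F (G (1, z)) ≤ η ∧ ‖G (1, z) - z‖ ≤ F z / c + η := by
  have hε : 0 < η / (2 + L + 1 / c) := by positivity
  set ε := η / (2 + L + 1 / c) with hεd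
  have hεη : ε * (2 + L + 1 / c) = η := div_mul_cancel₀ _ (by positivity)
  have hLε := mul_nonneg hL hε.le
  have hεc : 0 < ε / c := by positivity
  have hsum : 2 * ε + L * ε + ε / c = η := by rw [← hεη]; ring
  let 𝒮 : Set (V d → ℝ) := {F | (∀ x y, |F x - F y| ≤ L * ‖x - y‖) ∧ (∀ x, 0 ≤ F x) ∧ F 0 ≤ 1 ∧
    ∀ y, InE I y → ‖y‖ ≤ R + (1 + L * R) / c → 0 < F y → Desc F I c y}
  obtain ⟨T, hTf, hT, hN⟩ := finite_net 𝒮 L (R + (1 + L * R) / c) ε hL hε
    fun F hF => ⟨hF.1, by rw [abs_of_nonneg (hF.2.1 0)]; exact hF.2.2.1⟩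
  have key : ∀ F ∈ 𝒮, ∃ G : ℝ × V d → V d, (DCV G ∧ (∀ p, InE I (G p)) ∧
      ∀ (t : ℝ) (p : ℝ × V d), 0 < t → G (t • p) = t • G p) ∧ ∀ z, InE I z → ‖z‖ ≤ R →
        ∃ w, ‖G (1, z) - w‖ ≤ ε ∧ F w ≤ ε ∧ ‖w - z‖ ≤ F z / c := by
    intro F hF
    obtain ⟨ϖ, hϖ, h1⟩ := approx_retr I F L c R ε hL hc hR hε hF.1 hF.2.1 hF.2.2.1 hF.2.2.2
    choose G hG hG1 hG2 using fun j => hom_approx (fun z => ϖ z j) (by fun_prop) R ε hε
    refine ⟨fun p => prj I fun j => G j p, ⟨(dcv_prj I).comp (DCV.pi hG), fun p => inE_prj _ _,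
      fun t p ht => ?_⟩, fun z hz hzR => ⟨ϖ z, ?_, (h1 z hz hzR).2⟩⟩
    · funext j
      by_cases hj : j ∈ I <;> simp [prj, hj, hG1 j t p ht]
    · refine (pi_norm_le_iff_of_nonneg hε.le).2 fun j => ?_
      by_cases hj : j ∈ I
      · simpa [prj, hj] using hG2 j z hzR
      · simpa [prj, hj, (h1 z hz hzR).1 j hj] using hε.le
  choose! G hG hG' using key
  refine ⟨G '' T, hTf.image _, ?_, fun F h1 h2 h3 h4 => ?_⟩
  · rintro _ ⟨F, hF, rfl⟩
    exact hG F (hT hF)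
  · obtain ⟨F', hF', h5⟩ := hN F ⟨h1, h2, h3, h4⟩
    refine ⟨G F', mem_image_of_mem _ hF', fun z hz hzR => ?_⟩
    obtain ⟨w, hw1, hw2, hw3⟩ := hG' F' (hT hF') z hz hzR
    have h6 : F' z ≤ 1 + L * R := by
      have := (abs_le.1 ((hT hF').1 z 0)).2
      rw [sub_zero] at this
      linarith [(hT hF').2.2.1, mul_le_mul_of_nonneg_left hzR hL]
    have h7 : ‖w‖ ≤ R + (1 + L * R) / c := by
      have : ‖w‖ ≤ ‖z‖ + ‖w - z‖ := by simpa using norm_add_le z (w - z)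
      linarith [div_le_div_of_nonneg_right h6 hc.le]
    have h8 := (abs_le.1 (h5 w h7)).2
    have h9 := (abs_le.1 ((h1 (G F' (1, z)) w).trans (mul_le_mul_of_nonneg_left hw1 hL))).2
    have h10 : 0 ≤ (1 + L * R) / c := by positivity
    have h11 := (abs_le.1 (h5 z (by linarith))).1
    have h12 : F' z / c ≤ F z / c + ε / c := by
      rw [← add_div]; exact div_le_div_of_nonneg_right (by linarith) hc.le
    have h13 : ‖G F' (1, z) - z‖ ≤ ‖G F' (1, z) - w‖ + ‖w - z‖ := by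
      simpa using norm_add_le (G F' (1, z) - w) (w - z)
    exact ⟨by linarith, by linarith⟩

end Pool.Agent.MP_b8fe60_gt

end

-- part MP_b8fe60_gt.Neck
section

/-! The retraction in a region where the control function is almost a cone about a centre. -/

namespace Pool.Agent.MP_b8fe60_gt

open Set

variable {d : ℕ} {f φ : V d → ℝ} {L : ℝ}

/-- almost a cone about `p` up to radius `ρ` -/
def Cone (φ : V d → ℝ) (I : Finset (Fin d)) (p : V d) (ρ ε ω : ℝ) : Prop :=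
  ∀ (z : V d) (t : ℝ), InE I z → ‖z‖ ≤ ρ → 0 ≤ t → t ≤ 1 →
    t * φ (p + z) + (1 - t) * φ p - φ (p + t • z) ≤ ε * t * ‖z‖ + ω

theorem neck_pivot (τ : V d) (hτ : ‖τ‖ = 1) : ∃ l, |τ l| = 1 := by
  by_contra hne
  push Not at hne
  have : ‖τ‖ < 1 := by
    rw [pi_norm_lt_iff one_pos]
    intro i
    have h1 : ‖τ i‖ ≤ 1 := hτ ▸ norm_le_pi_norm τ i
    exact lt_of_le_of_ne h1 (hne i)
  linarith

theorem neck_second (h : Ctx f φ L) {I : Finset (Fin d)} {p w : V d} {ρ ε ω : ℝ}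
    (hC : Cone φ I p ρ ε ω) (hw : InE I w) (hρ : 2 * ‖w‖ ≤ ρ) :
    φ (p + w + (1 / 2 : ℝ) • w) + φ (p + w - (1 / 2 : ℝ) • w) - 2 * φ (p + w)
      ≤ 2 * ε * ‖w‖ + 2 * ω := by
  have hn : ‖(3 / 2 : ℝ) • w‖ = 3 / 2 * ‖w‖ := by
    rw [norm_smul, Real.norm_eq_abs, abs_of_pos (by norm_num)]
  have h1 := hC ((3 / 2 : ℝ) • w) (2 / 3) (hw.smul _) (by rw [hn]; linarith [norm_nonneg w])
    (by norm_num) (by norm_num)
  have h2 := h.cvx.2 (mem_univ (p + (3 / 2 : ℝ) • w)) (mem_univ p) (show (0 : ℝ) ≤ 1 / 3 by norm_num)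
    (show (0 : ℝ) ≤ 2 / 3 by norm_num) (by norm_num)
  have e1 : p + w + (1 / 2 : ℝ) • w = p + (3 / 2 : ℝ) • w := by module
  have e2 : p + w - (1 / 2 : ℝ) • w = (1 / 3 : ℝ) • (p + (3 / 2 : ℝ) • w) + (2 / 3 : ℝ) • p := by
    module
  have e3 : p + (2 / 3 : ℝ) • (3 / 2 : ℝ) • w = p + w := by module
  rw [e3, hn] at h1
  rw [e1, e2]
  simp only [smul_eq_mul] at h2
  linarith

theorem neck_radial (h : Ctx f φ L) (R : ℝ) (I : Finset (Fin d)) (c B K₀ : ℝ) (hc : 0 < c)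
    (hB : 1 ≤ B) (hK₀ : 0 ≤ K₀) :
    ∃ θ, 0 < θ ∧ θ ≤ 1 ∧ ∀ (ε ω ρ : ℝ) (p y : V d), Hyp f R I I c p ρ → InE I (y - p) → 0 < f y →
      Cone φ I p ρ ε ω → 2 * ‖y - p‖ ≤ ρ → ε ≤ θ → ω ≤ θ * ‖y - p‖ → f y ≤ θ * ‖y - p‖ →
      ∃ l ∈ I, Hyp f R I (I.erase l) (c / (2 * (1 + d * B))) y (K₀ * f y) := by
  have hL : 0 < L := lt_of_lt_of_le one_pos h.one_le
  obtain ⟨D, hD⟩ : ∃ D, D = 20 + 10 * L * (K₀ + 1) := ⟨_, rfl⟩
  have hD0 : 0 < D := by rw [hD]; positivity
  have hd0 : (0 : ℝ) ≤ d := Nat.cast_nonneg d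
  refine ⟨min (1 / (K₀ + 1)) (c / (2 * (d + 1) * D)), by positivity,
    (min_le_left _ _).trans (by rw [div_le_one (by linarith)]; linarith), ?_⟩
  intro ε ω ρ p y hH hy hf hC hρ hε hω hfy
  obtain ⟨θ, hθ⟩ : ∃ θ, θ = min (1 / (K₀ + 1)) (c / (2 * (d + 1) * D)) := ⟨_, rfl⟩
  rw [← hθ] at hε hω hfy
  have hθ0 : 0 < θ := by rw [hθ]; positivity
  have hθ1 : θ * (K₀ + 1) ≤ 1 := by
    have := min_le_left (1 / (K₀ + 1)) (c / (2 * (d + 1) * D))
    rw [← hθ, le_div_iff₀ (by linarith)] at this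
    exact this
  have hθ2 : θ * (2 * (d + 1) * D) ≤ c := by
    have := min_le_right (1 / (K₀ + 1)) (c / (2 * (d + 1) * D))
    rw [← hθ, le_div_iff₀ (by positivity)] at this
    exact this
  obtain ⟨w, hw⟩ : ∃ w, w = y - p := ⟨_, rfl⟩
  have hyw : y = p + w := by rw [hw]; abel
  rw [← hw] at hy hρ hω hfy
  have hn : 0 < ‖w‖ := by
    by_contra hh
    have : ‖w‖ = 0 := le_antisymm (not_lt.1 hh) (norm_nonneg _)
    rw [this, mul_zero] at hfy
    linarith
  have hτ0 : ‖‖w‖⁻¹ • w‖ = 1 := by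
    rw [norm_smul, norm_inv, norm_norm, inv_mul_cancel₀ hn.ne']
  obtain ⟨l, hl⟩ := neck_pivot _ hτ0
  have hlI : l ∈ I := by
    by_contra hh
    rw [(hy.smul ‖w‖⁻¹) l hh, abs_zero] at hl
    exact zero_ne_one hl
  have hsec := neck_second h hC hy hρ
  rw [← hyw] at hsec
  have hH' : Hyp f R I I c y (K₀ * f y) := by
    refine hH.sub (hw ▸ hy) ?_
    rw [← hw]
    have : K₀ * f y ≤ K₀ * (θ * ‖w‖) := mul_le_mul_of_nonneg_left hfy hK₀
    nlinarith
  have hsm : (d : ℝ) * (2 * (8 * θ) + (2 * f y + 5 * L * ((K₀ + 1) * f y)) / (‖w‖ / 2)) ≤ c / 2 := by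
    have h1 : (2 * f y + 5 * L * ((K₀ + 1) * f y)) / (‖w‖ / 2) ≤ (4 + 10 * L * (K₀ + 1)) * θ := by
      rw [div_le_iff₀ (by positivity)]
      have : (2 + 5 * L * (K₀ + 1)) * f y ≤ (2 + 5 * L * (K₀ + 1)) * (θ * ‖w‖) :=
        mul_le_mul_of_nonneg_left hfy (by positivity)
      nlinarith
    have h2 : 2 * (8 * θ) + (2 * f y + 5 * L * ((K₀ + 1) * f y)) / (‖w‖ / 2) ≤ D * θ := by
      rw [hD]; linarith
    have h3 := mul_le_mul_of_nonneg_left h2 hd0
    have h4 : 0 ≤ D * θ := by positivity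
    nlinarith
  have hb : 2 * ε * ‖w‖ + 2 * ω ≤ 8 * θ * (‖w‖ / 2) := by
    have := mul_le_mul_of_nonneg_right hε hn.le
    nlinarith
  have e1 : (‖w‖ / 2) • ‖w‖⁻¹ • w = (1 / 2 : ℝ) • w := by
    rw [smul_smul]; congr 1; field_simp
  refine ⟨l, hlI, ?_⟩
  rcases (abs_eq zero_le_one).1 hl with hl | hl
  · exact hyp_drop h hH' hc hB (hy.smul _) hl (by rw [hτ0]; exact hB) (T := ‖w‖ / 2)
      (κ := 8 * θ) (δ := (K₀ + 1) * f y) (by positivity) (by rw [e1]; linarith) (by positivity)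
      (by nlinarith) hsm
  · refine hyp_drop h hH' hc hB (hy.smul ‖w‖⁻¹).neg (by rw [Pi.neg_apply, hl, neg_neg])
      (by rw [norm_neg, hτ0]; exact hB) (T := ‖w‖ / 2)
      (κ := 8 * θ) (δ := (K₀ + 1) * f y) (by positivity) ?_ (by positivity) (by nlinarith) hsm
    rw [smul_neg, e1, ← sub_eq_add_neg, sub_neg_eq_add]
    linarith

theorem neck_scale {I : Finset (Fin d)} {c r : ℝ} {p y : V d} (hr : 0 < r)
    (hD : Desc f I c (p + r • y)) : Desc (fun z => f (p + r • z) / r) I c y := by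
  obtain ⟨e, δ, hδ, he, he1, hd⟩ := hD
  refine ⟨e, δ / r, by positivity, he, he1, fun z s hz hzn hs0 hs => ?_⟩
  have e1 : p + r • z - (p + r • y) = r • (z - y) := by module
  have := hd (p + r • z) (r * s) (by rw [e1]; exact hz.smul r)
    (by
      rw [e1, norm_smul, Real.norm_eq_abs, abs_of_pos hr]
      rw [le_div_iff₀ hr] at hzn
      linarith)
    (by positivity) (by rw [le_div_iff₀ hr] at hs; linarith)
  have e2 : p + r • (z - s • e) = p + r • z - (r * s) • e := by module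
  show f (p + r • (z - s • e)) / r ≤ f (p + r • z) / r - c * s
  rw [e2, div_le_iff₀ hr, sub_mul, div_mul_cancel₀ _ hr.ne']
  linarith

theorem neck_slide (h : Ctx f φ L) (I : Finset (Fin d)) (θ : ℝ) (hθ : 0 < θ) (p : V d → V d)
    (hp : DCV p) (hpI : ∀ y, InE I (p y - y)) :
    ∃ S, Adm f I (3 / θ) S ∧ ∀ (y : V d) (ρ ω : ℝ), Cone φ I (p y) ρ (θ / 3) ω →
      ‖y - p y‖ ≤ ρ → ‖S y - p y‖ ≤ ‖y - p y‖ ∧
        (S y = p y ∨ f (S y) ≤ 2 * θ / 3 * ‖S y - p y‖ + (f (p y) + ω)) := by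
  obtain ⟨Sl, hSl, hS⟩ := exists_slide d
  have hb : ∀ y, 0 ≤ 3 / θ * f y := fun y => mul_nonneg (by positivity) (h.nonneg y)
  refine ⟨fun y => p y + Sl (y - p y, 3 / θ * f y), ⟨by positivity, ?_, fun y => ?_, fun y => ?_⟩,
    fun y ρ ω hC hρ => ?_⟩
  · exact hp.add (hSl.comp ((DCV.id.sub hp).prodMk (h.dcv.const_mul _)))
  · obtain ⟨t, -, -, e, -, -⟩ := hS (y - p y) _ (hb y)
    show InE I (p y + Sl (y - p y, 3 / θ * f y) - y)
    have : p y + Sl (y - p y, 3 / θ * f y) - y = (1 - t) • (p y - y) := by rw [e]; module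
    rw [this]
    exact (hpI y).smul _
  · obtain ⟨t, -, ht1, e, hle, -⟩ := hS (y - p y) _ (hb y)
    show ‖p y + Sl (y - p y, 3 / θ * f y) - y‖ ≤ _
    have : p y + Sl (y - p y, 3 / θ * f y) - y = (1 - t) • (p y - y) := by rw [e]; module
    rw [this, norm_smul, Real.norm_eq_abs, abs_of_nonneg (by linarith), norm_sub_rev]
    exact hle
  · obtain ⟨t, ht0, ht1, e, -, hor⟩ := hS (y - p y) _ (hb y)
    have en : ‖p y + Sl (y - p y, 3 / θ * f y) - p y‖ = t * ‖y - p y‖ := by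
      rw [e, add_sub_cancel_left, norm_smul, Real.norm_eq_abs, abs_of_nonneg ht0]
    show ‖p y + Sl (y - p y, 3 / θ * f y) - p y‖ ≤ _ ∧ (p y + Sl (y - p y, 3 / θ * f y) = p y ∨
      f (p y + Sl (y - p y, 3 / θ * f y)) ≤ 2 * θ / 3 * ‖p y + Sl (y - p y, 3 / θ * f y) - p y‖ + _)
    rw [en]
    refine ⟨by nlinarith [norm_nonneg (y - p y)], ?_⟩
    rcases hor with rfl | hor
    · left; rw [e]; simp
    · right
      have h1 := hC (y - p y) t (hpI y).symm hρ ht0 ht1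
      have h2 := h.cvxp.2 (mem_univ y) (mem_univ (p y)) ht0 (show 0 ≤ 1 - t by linarith) (by ring)
      have e2 : t • y + (1 - t) • p y = p y + t • (y - p y) := by module
      simp only [smul_eq_mul] at h2
      rw [e2] at h2
      rw [add_sub_cancel] at h1
      rw [e]
      have h3 : f y ≤ θ / 3 * ‖y - p y‖ := by
        rw [div_mul_eq_mul_div, div_le_iff₀ hθ] at hor
        linarith
      have h4 := mul_le_mul_of_nonneg_left h3 ht0
      have h5 := mul_nonneg ht0 (h.nonneg (p y))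
      nlinarith

theorem neck_templ (h : Ctx f φ L) (I : Finset (Fin d)) (c R₁ η : ℝ) (hc : 0 < c) (hR : 0 ≤ R₁)
    (hη : 0 < η) (p : V d → V d) (rc : V d → ℝ) (hp : DCV p) (hrc : DCV rc)
    (hpI : ∀ y, InE I (p y - y)) :
    ∃ s : Finset (V d → V d), (∀ T ∈ s, Adm f I (2 / c) T) ∧
      ∀ (q : V d) (r : ℝ), 0 < r → f q ≤ r →
        (∀ y, InE I (y - q) → ‖y - q‖ ≤ (R₁ + (1 + L * R₁) / c) * r → 0 < f y → Desc f I c y) →
        ∃ T ∈ s, ∀ y, p y = q → rc y = r → ‖y - q‖ ≤ R₁ * r → f (T y) ≤ η * r := by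
  classical
  have hL : 0 < L := lt_of_lt_of_le one_pos h.one_le
  obtain ⟨η₀, hη₀⟩ : ∃ η₀, η₀ = η / (1 + c + 2 * L) := ⟨_, rfl⟩
  have hη0 : 0 < η₀ := by rw [hη₀]; positivity
  have hηe : η₀ * (1 + c + 2 * L) = η := by rw [hη₀]; field_simp
  obtain ⟨𝒢, hfin, hG, hT⟩ := templates I L c R₁ η₀ hL.le hc hR hη0
  obtain ⟨C, hC, hCp⟩ := exists_clamp d
  have hb : ∀ y, 0 ≤ 2 / c * f y := fun y => mul_nonneg (by positivity) (h.nonneg y)
  have hadm : ∀ G ∈ 𝒢, Adm f I (2 / c)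
      (fun y => y + C (p y + G (rc y, y - p y) - y, 2 / c * f y)) := by
    intro G hG'
    obtain ⟨h1, h2, -⟩ := hG G hG'
    refine ⟨by positivity, ?_, fun y j hj => ?_, fun y => ?_⟩
    · exact DCV.id.add (hC.comp (((hp.add (h1.comp (hrc.prodMk (DCV.id.sub hp)))).sub
        DCV.id).prodMk (h.dcv.const_mul _)))
    · rw [add_sub_cancel_left]
      refine (hCp _ _ (hb y)).2.2 j ?_
      have e : p y + G (rc y, y - p y) - y = (p y - y) + G (rc y, y - p y) := by abel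
      rw [e]
      exact ((hpI y).add (h2 _)) j hj
    · rw [add_sub_cancel_left]
      exact (hCp _ _ (hb y)).1
  refine ⟨hfin.toFinset.image
    (fun G => fun y => y + C (p y + G (rc y, y - p y) - y, 2 / c * f y)), ?_, ?_⟩
  · intro T hT'
    obtain ⟨G, hG', rfl⟩ := Finset.mem_image.1 hT'
    exact hadm G (hfin.mem_toFinset.1 hG')
  · intro q r hr hfq hD
    obtain ⟨G, hG', hv⟩ := hT (fun z => f (q + r • z) / r) (fun x y => by
        rw [← sub_div, abs_div, abs_of_pos hr, div_le_iff₀ hr]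
        have := h.lipf (q + r • x) (q + r • y)
        have e : q + r • x - (q + r • y) = r • (x - y) := by module
        rw [e, norm_smul, Real.norm_eq_abs, abs_of_pos hr] at this
        linarith)
      (fun x => div_nonneg (h.nonneg _) hr.le) (by simpa [div_le_one hr] using hfq)
      (fun y hy hyn hf => by
        refine neck_scale hr (hD _ (by rw [add_sub_cancel_left]; exact hy.smul r) ?_ ?_)
        · rw [add_sub_cancel_left, norm_smul, Real.norm_eq_abs, abs_of_pos hr, mul_comm]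
          exact mul_le_mul_of_nonneg_right hyn hr.le
        · exact (div_pos_iff_of_pos_right hr).1 hf)
    refine ⟨_, Finset.mem_image.2 ⟨G, hfin.mem_toFinset.2 hG', rfl⟩, fun y hpy hry hy => ?_⟩
    obtain ⟨z, hz⟩ : ∃ z, z = r⁻¹ • (y - q) := ⟨_, rfl⟩
    have hzy : y - q = r • z := by rw [hz, smul_smul, mul_inv_cancel₀ hr.ne', one_smul]
    have hyz : y = q + r • z := by rw [← hzy]; abel
    have hzI : InE I z := by rw [hz, ← hpy]; exact (hpI y).symm.smul _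
    have hzn : ‖z‖ ≤ R₁ := by
      rw [hzy, norm_smul, Real.norm_eq_abs, abs_of_pos hr, mul_comm] at hy
      exact le_of_mul_le_mul_right hy hr
    obtain ⟨h1, h2⟩ := hv z hzI hzn
    have hGe : G (rc y, y - p y) = r • G (1, z) := by
      rw [← (hG G hG').2.2 r (1, z) hr, hry, hpy, hzy]
      simp
    rw [← hyz] at h2
    rw [div_le_iff₀ hr] at h1
    by_cases hcase : c * η₀ * r ≤ f y
    · have hn : ‖p y + G (rc y, y - p y) - y‖ ≤ 2 / c * f y := by
        have e : p y + G (rc y, y - p y) - y = r • (G (1, z) - z) := by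
          rw [hGe, hpy]
          conv_lhs => rw [hyz]
          module
        rw [e, norm_smul, Real.norm_eq_abs, abs_of_pos hr]
        have h3 := mul_le_mul_of_nonneg_left h2 hr.le
        have h4 : r * (f y / r / c + η₀) = f y / c + η₀ * r := by field_simp
        have h5 : η₀ * r ≤ f y / c := by rw [le_div_iff₀ hc]; linarith
        have h6 : 2 / c * f y = f y / c + f y / c := by ring
        linarith
      show f (y + C (p y + G (rc y, y - p y) - y, 2 / c * f y)) ≤ η * r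
      rw [(hCp _ _ (hb y)).2.1 hn, add_sub_cancel, hGe, hpy, ← hηe]
      have : 0 ≤ η₀ * (c + 2 * L) * r := by positivity
      nlinarith
    · have h3 := (hadm G hG').f_le h y
      have h4 : (1 + L * (2 / c)) * f y ≤ (1 + L * (2 / c)) * (c * η₀ * r) :=
        mul_le_mul_of_nonneg_left (not_le.1 hcase).le (by positivity)
      have h5 : (1 + L * (2 / c)) * (c * η₀ * r) = (c + 2 * L) * η₀ * r := by field_simp
      have h6 : 0 ≤ η₀ * r := by positivity
      rw [← hηe]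
      nlinarith

theorem neck_grow (h : Ctx f φ L) {I : Finset (Fin d)} {K : ℝ} {T : V d → V d}
    (hT : Adm f I K T) {q y : V d} {r A : ℝ} (hq : f q ≤ r) (hy : ‖y - q‖ ≤ A * r) :
    ‖T y - q‖ ≤ (A + K * (1 + L * A)) * r := by
  have hL : 0 ≤ L := le_trans zero_le_one h.one_le
  have h1 : ‖T y - q‖ ≤ ‖T y - y‖ + ‖y - q‖ := by
    simpa using norm_add_le (T y - y) (y - q)
  have h2 := hT.2.2.2 y
  have h3 := h.f_le y q
  have h4 := mul_le_mul_of_nonneg_left hy hL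
  have h5 : K * f y ≤ K * ((1 + L * A) * r) := mul_le_mul_of_nonneg_left (by linarith) hT.1
  nlinarith

theorem neck (h : Ctx f φ L) (R : ℝ) (I : Finset (Fin d)) (c B K₀ : ℝ) (hc : 0 < c) (hB : 1 ≤ B)
    (hK₀ : 0 ≤ K₀) :
    ∃ ε, 0 < ε ∧ ε ≤ 1 ∧ ∀ (K₁ : ℝ) (Cl : V d → V d) (Q : V d → ℝ → Prop) (p : V d → V d)
      (rA : V d → ℝ), Adm f I K₁ Cl →
      (∀ x, (∃ l ∈ I, Hyp f R I (I.erase l) (c / (2 * (1 + d * B))) x (K₀ * f x)) →
        f (Cl x) = 0) →
      (∀ x, Hyp f R I I c x (K₁ * f x) → Q x (K₁ * f x) → f (Cl x) = 0) →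
      DCV p → DCV rA → (∀ y, InE I (p y - y)) → (∀ y, 0 ≤ rA y) →
      (∀ y y', InE I (y' - y) → p y' = p y ∧ rA y' = rA y) →
      ∃ (K : ℝ) (N : V d → V d) (R₄ : ℝ), Adm f I K N ∧ 0 ≤ R₄ ∧ ∀ (y : V d) (ρ : ℝ),
        R₄ * (f (p y) + rA y) ≤ ρ → 2 * ‖y - p y‖ ≤ ρ → Hyp f R I I c (p y) ρ →
        Cone φ I (p y) ρ ε ((2 * L + 1) * rA y) →
        (∀ (x : V d) (r : ℝ), InE I (x - y) → ‖x - p y‖ + r ≤ ρ → r < rA y → Q x r) →
        f (N y) = 0 := by
  have hL1 := h.one_le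
  have hL : 0 < L := lt_of_lt_of_le one_pos h.one_le
  obtain ⟨θ, hθ, hθ1, hrad⟩ := neck_radial h R I c B K₀ hc hB hK₀
  refine ⟨θ / 3, by positivity, by linarith, ?_⟩
  intro K₁ Cl Q p rA hCl hP1 hP2 hp hrA hpI hr0 hinv
  have hK₁ := hCl.1
  obtain ⟨W, hW⟩ : ∃ W, W = 2 * L + 1 := ⟨_, rfl⟩
  have hW1 : 1 ≤ W := by linarith
  rw [← hW]
  obtain ⟨Rc, hRc⟩ : ∃ Rc, Rc = 3 * W / θ := ⟨_, rfl⟩
  have hRc0 : 0 ≤ Rc := by rw [hRc]; positivity
  have hRce : Rc * θ = 3 * W := by rw [hRc]; field_simp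
  obtain ⟨R₁, hR₁⟩ : ∃ R₁, R₁ = Rc + K₁ * (1 + L * Rc) := ⟨_, rfl⟩
  have hR₁0 : 0 ≤ R₁ := by rw [hR₁]; positivity
  obtain ⟨R₂, hR₂⟩ : ∃ R₂, R₂ = R₁ + 2 / c * (1 + L * R₁) := ⟨_, rfl⟩
  have hR₁₂ : R₁ + (1 + L * R₁) / c ≤ R₂ := by
    have : 0 ≤ (1 + L * R₁) / c := by positivity
    have e : 2 / c * (1 + L * R₁) = (1 + L * R₁) / c + (1 + L * R₁) / c := by ring
    linarith
  have hR₁₂' : R₁ ≤ R₂ := by
    have : 0 ≤ (1 + L * R₁) / c := by positivity
    linarith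
  obtain ⟨R₃, hR₃⟩ : ∃ R₃, R₃ = R₂ + K₁ * (1 + L * R₂) := ⟨_, rfl⟩
  have hR₂₃ : R₂ ≤ R₃ := by
    have : 0 ≤ R₂ := hR₁0.trans hR₁₂'
    have : 0 ≤ K₁ * (1 + L * R₂) := by positivity
    linarith
  obtain ⟨κ, hκ⟩ : ∃ κ, κ = θ / (4 * L * W) := ⟨_, rfl⟩
  have hκ0 : 0 < κ := by rw [hκ]; positivity
  have hκe : κ * (4 * L * W) = θ := by rw [hκ]; field_simp
  have hκL : κ * (4 * L) ≤ θ := by
    have : 0 ≤ κ * (4 * L) * (W - 1) := mul_nonneg (by positivity) (by linarith)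
    nlinarith
  have hκ4 : κ ≤ 1 / 4 := by
    have : 0 ≤ κ * (L - 1) := mul_nonneg hκ0.le (by linarith)
    nlinarith
  obtain ⟨η, hη⟩ : ∃ η, η = κ / (K₁ + 1) := ⟨_, rfl⟩
  have hη0 : 0 < η := by rw [hη]; positivity
  have hηe : η * (K₁ + 1) = κ := by rw [hη]; field_simp
  have hηκ : η ≤ κ := by nlinarith
  obtain ⟨S, hS, hSp⟩ := neck_slide h I θ hθ p hp hpI
  obtain ⟨s, hs, hsv⟩ := neck_templ h I c R₁ η hc hR₁0 hη0 p (fun y => f (p y) + rA y) hp
    ((h.dcv.comp hp).add hrA) hpI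
  have hCS := hCl.comp h hS
  obtain ⟨K, N, hN, hNp⟩ := seq_inv h I s (fun T y => Cl (T (Cl (S y))))
    (fun T hT => ⟨_, hCl.comp h ((hs T hT).comp h hCS)⟩)
  refine ⟨_, _, 2 * R₃ + 2, hN.comp h hCS, by linarith, ?_⟩
  intro y₀ ρ hρ hy₀ hH hC hQ
  obtain ⟨q, hq⟩ : ∃ q, q = p y₀ := ⟨_, rfl⟩
  obtain ⟨a, ha⟩ : ∃ a, a = rA y₀ := ⟨_, rfl⟩
  rw [← hq, ← ha] at hρ hC hQ
  rw [← hq] at hy₀ hH
  have ha0 : 0 ≤ a := ha ▸ hr0 y₀
  have hfq := h.nonneg q
  obtain ⟨r, hr⟩ : ∃ r, r = f q + a := ⟨_, rfl⟩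
  rw [← hr] at hρ
  have hr0' : 0 ≤ r := by linarith
  have hqr : f q ≤ r := by linarith
  have hqI : InE I (y₀ - q) := hq ▸ (hpI y₀).symm
  have hpe : ∀ y, InE I (y - q) → p y = q ∧ rA y = a := fun y hy => by
    rw [hq, ha]; exact hinv y₀ y (hy.trans hqI.symm)
  have hR3r : R₂ * r ≤ R₃ * r := mul_le_mul_of_nonneg_right hR₂₃ hr0'
  have hR2r : R₁ * r ≤ R₂ * r := mul_le_mul_of_nonneg_right hR₁₂' hr0'
  have hR1r : 0 ≤ R₁ * r := mul_nonneg hR₁0 hr0'
  -- radial cleaning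
  have hrc : ∀ y, InE I (y - q) → 2 * ‖y - q‖ ≤ ρ → W * a ≤ θ * ‖y - q‖ → f y ≤ θ * ‖y - q‖ →
      f (Cl y) = 0 := by
    intro y hy h1 h2 h3
    rcases (h.nonneg y).eq_or_lt with h0 | h0
    · exact hCl.zero h0.symm
    · exact hP1 y (hrad (θ / 3) (W * a) ρ q y hH hy h0 hC h1 (by linarith) h2 h3)
  -- slide and clean
  have hA : ∀ y, InE I (y - q) → 2 * ‖y - q‖ ≤ ρ →
      f (Cl (S y)) = 0 ∨ ‖Cl (S y) - q‖ ≤ R₁ * r := by
    intro y hy h1
    obtain ⟨e1, e2⟩ := hpe y hy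
    obtain ⟨h2, h3⟩ := hSp y ρ (W * a) (e1 ▸ hC) (by rw [e1]; linarith [norm_nonneg (y - q)])
    rw [e1] at h2 h3
    have hSI : InE I (S y - q) := (hS.2.2.1 y).trans hy
    by_cases hcore : ‖S y - q‖ ≤ Rc * r
    · right
      rw [hR₁]
      exact neck_grow h hCl hqr hcore
    · left
      have hlt := not_le.1 hcore
      have h4 : W * r ≤ θ / 3 * ‖S y - q‖ := by
        have := mul_le_mul_of_nonneg_left hlt.le hθ.le
        nlinarith
      have h5 : W * a ≤ W * r := mul_le_mul_of_nonneg_left (by linarith) (by linarith)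
      have h6 : f q + W * a ≤ W * r := by rw [hr]; nlinarith
      have h7 : 0 ≤ θ * ‖S y - q‖ := by positivity
      rcases h3 with h3 | h3
      · rw [h3, sub_self, norm_zero] at hlt
        exact absurd hlt (not_lt.2 (mul_nonneg hRc0 hr0'))
      · exact hrc _ hSI (by linarith) (by linarith) (by linarith)
  -- the invariant
  obtain ⟨P, hP⟩ : ∃ P : V d → Prop, ∀ y, P y ↔ InE I (y - q) ∧ (f y = 0 ∨ 2 * ‖y - q‖ ≤ ρ) :=
    ⟨_, fun _ => Iff.rfl⟩
  have hA' : ∀ y, P y → InE I (Cl (S y) - q) ∧ (f (Cl (S y)) = 0 ∨ ‖Cl (S y) - q‖ ≤ R₁ * r) := by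
    intro y hy
    obtain ⟨h1, h2⟩ := (hP y).1 hy
    refine ⟨(hCS.2.2.1 y).trans h1, ?_⟩
    rcases h2 with h2 | h2
    · exact Or.inl (hCS.zero h2)
    · exact hA y h1 h2
  have hP0 : P (Cl (S y₀)) := by
    obtain ⟨h1, h2⟩ := hA' y₀ ((hP y₀).2 ⟨hqI, Or.inr hy₀⟩)
    exact (hP _).2 ⟨h1, h2.imp id (fun h2 => by linarith)⟩
  have hPs : ∀ T ∈ s, ∀ y, P y → P (Cl (T (Cl (S y)))) := by
    intro T hT y hy
    obtain ⟨h1, h2⟩ := hA' y hy
    refine (hP _).2 ⟨(hCl.2.2.1 _).trans (((hs T hT).2.2.1 _).trans h1), ?_⟩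
    rcases h2 with h2 | h2
    · exact Or.inl (hCl.zero ((hs T hT).zero h2))
    · right
      have h3 := neck_grow h (hs T hT) hqr h2
      rw [← hR₂] at h3
      have h4 := neck_grow h hCl hqr h3
      rw [← hR₃] at h4
      linarith
  obtain ⟨-, hfin⟩ := hNp P hPs _ hP0
  rcases hr0'.eq_or_lt with hz | hpos
  · refine hN.zero ?_
    rcases hA y₀ hqI hy₀ with h2 | h2
    · exact h2
    · rw [← hz, mul_zero] at h2
      rw [sub_eq_zero.1 (norm_le_zero_iff.1 h2)]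
      linarith
  · obtain ⟨T, hT, hTv⟩ := hsv q r hpos hqr (fun y hy hn hf => hH.2 y hy (by
      have := mul_le_mul_of_nonneg_right hR₁₂ hr0'
      linarith) hf)
    refine hfin T hT (fun y hy => ?_)
    obtain ⟨h1, h2⟩ := hA' y hy
    rcases h2 with h2 | h2
    · exact hCl.zero ((hs T hT).zero h2)
    obtain ⟨x, hx⟩ : ∃ x, x = T (Cl (S y)) := ⟨_, rfl⟩
    have hxI : InE I (x - q) := hx ▸ ((hs T hT).2.2.1 _).trans h1
    have hxf : f x ≤ η * r := by
      obtain ⟨e1, e2⟩ := hpe _ h1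
      rw [hx]
      exact hTv _ e1 (by rw [e1, e2, hr]) h2
    have hxn : ‖x - q‖ ≤ R₂ * r := by
      rw [hx, hR₂]
      exact neck_grow h (hs T hT) hqr h2
    show f (Cl (T (Cl (S y)))) = 0
    rw [← hx]
    have hK1 : K₁ * f x < κ * r := by
      have h3 : K₁ * f x ≤ K₁ * (η * r) := mul_le_mul_of_nonneg_left hxf hK₁
      have h4 : 0 < η * r := by positivity
      nlinarith
    have hκr : κ * r ≤ 1 / 4 * r := mul_le_mul_of_nonneg_right hκ4 hr0'
    have hηr : η * r ≤ κ * r := mul_le_mul_of_nonneg_right hηκ hr0'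
    by_cases hcase : κ * r ≤ a
    · exact hP2 x (hH.sub hxI (by linarith))
        (hQ x _ (hxI.trans hqI.symm) (by linarith) (by linarith))
    · have h3 := not_le.1 hcase
      have h4 := h.f_le q x
      rw [norm_sub_rev] at h4
      have h5 : r ≤ 4 * L * ‖x - q‖ := by linarith
      have h6 : κ * r ≤ κ * (4 * L * ‖x - q‖) := mul_le_mul_of_nonneg_left h5 hκ0.le
      have h7 : κ * (4 * L) * ‖x - q‖ ≤ θ * ‖x - q‖ :=
        mul_le_mul_of_nonneg_right hκL (norm_nonneg _)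
      refine hrc x hxI (by linarith) ?_ (by linarith)
      have h8 : W * a ≤ W * (κ * (4 * L * ‖x - q‖)) :=
        mul_le_mul_of_nonneg_left (by linarith) (by linarith)
      rw [← hκe]
      linarith

end Pool.Agent.MP_b8fe60_gt

end

-- part MP_b8fe60_gt.Sub
section

/-
HINTS.  exists_subgrad: geometric_hahn_banach_open_point for the open convex set {(y, t) | φ y < t} and the point (x, φ x); write the functional as l y + β t, β < 0; vector u i = l (Pi.single i 1) / (-β).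
AS.dot_le: apply the defining inequality to s • z and s • (-z), s → ∞ (or argue by contradiction with an explicit s).
AS.nonempty: prj I of a subgradient.  thin_second: take u₊ ∈ AS φ I (x + T • τ) 0, u₋ ∈ AS φ I (x - T • τ) 0, shift them to x.
mz_near: take t = Pi.single i (± δ) for a coordinate i where the sup norm of v - x is attained (Pi.exists_apply_eq_norm or a coordinatewise bound through pi_norm_le_iff_of_nonneg).
exists_grid: the set {u | InE I u ∧ ‖u‖ ≤ L} is compact; finite cover by balls centred in the set.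
-/

namespace Pool.Agent.MP_b8fe60_gt

open Set

variable {d : ℕ} {f φ : V d → ℝ} {L : ℝ}

theorem sub_prj_dot {I : Finset (Fin d)} (u : V d) {z : V d} (hz : InE I z) :
    prj I u ⬝ᵥ z = u ⬝ᵥ z := by
  refine Finset.sum_congr rfl fun j _ => ?_
  by_cases hj : j ∈ I
  · simp [prj, hj]
  · simp [hz j hj]

theorem sub_lin_eq (l : V d →L[ℝ] ℝ) (z : V d) : (fun i => l (Pi.single i 1)) ⬝ᵥ z = l z := by
  conv_rhs => rw [← Finset.univ_sum_single z, map_sum]
  refine Finset.sum_congr rfl fun j _ => ?_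
  rw [show (Pi.single j (z j) : V d) = z j • Pi.single j 1 by
    rw [← Pi.single_smul, smul_eq_mul, mul_one], map_smul, smul_eq_mul, mul_comm]

theorem exists_subgrad (hφ : ConvexOn ℝ univ φ) (hc : Continuous φ) (x : V d) :
    ∃ u : V d, ∀ z, φ x + u ⬝ᵥ z ≤ φ (x + z) := by
  have hconv : Convex ℝ {p : V d × ℝ | φ p.1 < p.2} := by
    simpa using hφ.convex_strict_epigraph
  have hopen : IsOpen {p : V d × ℝ | φ p.1 < p.2} :=
    isOpen_lt (hc.comp continuous_fst) continuous_snd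
  obtain ⟨g, hg⟩ := geometric_hahn_banach_open_point hconv hopen
    (show (x, φ x) ∉ {p : V d × ℝ | φ p.1 < p.2} by simp)
  set l : V d →L[ℝ] ℝ := g.comp (ContinuousLinearMap.inl ℝ (V d) ℝ) with hl
  set β : ℝ := g (0, 1) with hβ
  have hsplit : ∀ (y : V d) (t : ℝ), g (y, t) = l y + t * β := by
    intro y t
    rw [show ((y, t) : V d × ℝ) = (y, 0) + t • ((0, 1) : V d × ℝ) by simp, map_add, map_smul]
    rfl
  have hneg : β < 0 := by
    have := hg (x, φ x + 1) (by simp)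
    rw [hsplit, hsplit] at this
    linarith
  refine ⟨(-β)⁻¹ • fun i => l (Pi.single i 1), fun z => ?_⟩
  rw [smul_dotProduct, sub_lin_eq, smul_eq_mul]
  refine le_of_forall_pos_le_add fun ε hε => ?_
  have h1 := hg (x + z, φ (x + z) + ε) (by simp [hε])
  rw [hsplit, hsplit, map_add] at h1
  have h2 : (-β)⁻¹ * l z ≤ φ (x + z) + ε - φ x := by
    rw [inv_mul_le_iff₀ (by linarith)]
    nlinarith
  linarith

theorem AS.convex (φ : V d → ℝ) (I : Finset (Fin d)) (x : V d) (ω : ℝ) :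
    Convex ℝ (AS φ I x ω) := by
  intro u hu v hv a b ha hb hab
  refine ⟨(hu.1.smul a).add (hv.1.smul b), fun z hz => ?_⟩
  have h1 := mul_le_mul_of_nonneg_left (hu.2 z hz) ha
  have h2 := mul_le_mul_of_nonneg_left (hv.2 z hz) hb
  rw [add_dotProduct, smul_dotProduct, smul_dotProduct, smul_eq_mul, smul_eq_mul]
  obtain rfl : b = 1 - a := by linarith
  nlinarith

theorem AS.dot_le (h : Ctx f φ L) {I : Finset (Fin d)} {x u z : V d} {ω : ℝ}
    (hu : u ∈ AS φ I x ω) (hz : InE I z) : |u ⬝ᵥ z| ≤ L * ‖z‖ := by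
  have key : ∀ z : V d, InE I z → u ⬝ᵥ z ≤ L * ‖z‖ := by
    intro z hz
    by_contra hlt
    have hpos : 0 < u ⬝ᵥ z - L * ‖z‖ := by linarith [not_le.1 hlt]
    set s : ℝ := (|ω| + 1) / (u ⬝ᵥ z - L * ‖z‖) with hs
    have hs0 : 0 ≤ s := by positivity
    have h1 := hu.2 (s • z) (hz.smul s)
    have h2 := (abs_le.1 (h.lipφ (x + s • z) x)).2
    rw [add_sub_cancel_left, norm_smul, Real.norm_of_nonneg hs0] at h2
    rw [dotProduct_smul, smul_eq_mul] at h1
    have h3 : s * (u ⬝ᵥ z - L * ‖z‖) = |ω| + 1 := div_mul_cancel₀ _ hpos.ne'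
    nlinarith [le_abs_self ω]
  have h1 := key z hz
  have h2 := key (-z) hz.neg
  rw [dotProduct_neg, norm_neg] at h2
  exact abs_le.2 ⟨by linarith, h1⟩

theorem AS.norm_le (h : Ctx f φ L) {I : Finset (Fin d)} {x u : V d} {ω : ℝ}
    (hu : u ∈ AS φ I x ω) : ‖u‖ ≤ L := by
  have hL : 0 ≤ L := zero_le_one.trans h.one_le
  refine (pi_norm_le_iff_of_nonneg hL).2 fun i => ?_
  by_cases hi : i ∈ I
  · simpa [Pi.norm_single] using AS.dot_le h hu (inE_single hi 1)
  · simpa [hu.1 i hi] using hL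

theorem AS.mono {I : Finset (Fin d)} {x : V d} {ω ω' : ℝ} (hω : ω ≤ ω') :
    AS φ I x ω ⊆ AS φ I x ω' := by
  intro u hu
  exact ⟨hu.1, fun z hz => by linarith [hu.2 z hz]⟩

theorem AS.shift (h : Ctx f φ L) {I : Finset (Fin d)} {x y u : V d} {ω : ℝ}
    (hy : InE I (y - x)) (hu : u ∈ AS φ I y ω) : u ∈ AS φ I x (ω + 2 * L * ‖y - x‖) := by
  refine ⟨hu.1, fun z hz => ?_⟩
  have h1 := hu.2 (z - (y - x)) (hz.sub hy)
  have h2 := (abs_le.1 (AS.dot_le h hu hy)).2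
  have h3 := (abs_le.1 (h.lipφ y x)).1
  rw [dotProduct_sub, show y + (z - (y - x)) = x + z by abel] at h1
  linarith

theorem AS.nonempty (h : Ctx f φ L) (I : Finset (Fin d)) (x : V d) : (AS φ I x 0).Nonempty := by
  have hL : 0 ≤ L := zero_le_one.trans h.one_le
  have hc : Continuous φ :=
    (LipschitzWith.of_dist_le_mul (K := ⟨L, hL⟩) fun a b => by
      rw [Real.dist_eq, dist_eq_norm]
      exact h.lipφ a b).continuous
  obtain ⟨u, hu⟩ := exists_subgrad h.cvx hc x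
  exact ⟨prj I u, inE_prj I u, fun z hz => by simpa [sub_prj_dot u hz] using hu z⟩

theorem thin_second (h : Ctx f φ L) {I : Finset (Fin d)} {x n τ : V d} {ω κ T : ℝ}
    (hτ : InE I τ) (hT : 0 ≤ T) (hω : 2 * L * (T * ‖τ‖) ≤ ω)
    (hth : ∀ u ∈ AS φ I x ω, |(u - n) ⬝ᵥ τ| ≤ κ) :
    φ (x + T • τ) + φ (x - T • τ) - 2 * φ x ≤ 2 * κ * T := by
  obtain ⟨u, hu⟩ := AS.nonempty h I (x + T • τ)
  obtain ⟨v, hv⟩ := AS.nonempty h I (x - T • τ)
  have hn : ‖T • τ‖ = T * ‖τ‖ := by rw [norm_smul, Real.norm_of_nonneg hT]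
  have hu' : u ∈ AS φ I x ω := AS.mono (by simpa [hn] using hω)
    (AS.shift h (by simpa using hτ.smul T) hu)
  have hv' : v ∈ AS φ I x ω := AS.mono (by simpa [hn] using hω)
    (AS.shift h (by simpa using (hτ.smul T).neg) hv)
  have h1 := hu.2 _ (hτ.smul T).neg
  have h2 := hv.2 _ (hτ.smul T)
  rw [dotProduct_neg, dotProduct_smul, smul_eq_mul, add_neg_cancel_right] at h1
  rw [dotProduct_smul, smul_eq_mul, sub_add_cancel] at h2
  have h3 := mul_le_mul_of_nonneg_left (abs_le.1 (hth u hu')).2 hT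
  have h4 := mul_le_mul_of_nonneg_left (abs_le.1 (hth v hv')).1 hT
  rw [sub_dotProduct] at h3 h4
  nlinarith

theorem struct_cube {I : Finset (Fin d)} {x : V d} {ω η B : ℝ}
    (hs : Struct (AS φ Finset.univ x ω) I η B) :
    ∃ n, InE I n ∧ ∀ t, InE I t → ‖t‖ ≤ η → n + t ∈ AS φ I x ω := by
  obtain ⟨n, m, hm, -, hK⟩ := hs
  refine ⟨prj I n, inE_prj I n, fun t ht htη => ?_⟩
  have h1 : prj I n + t = prj I (n + ∑ i ∈ I, t i • m i) := by
    funext j
    by_cases hj : j ∈ I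
    · simp only [prj, if_pos hj, Pi.add_apply, Finset.sum_apply, Pi.smul_apply, smul_eq_mul]
      rw [Finset.sum_congr rfl fun i hi => by rw [hm i hi j hj]]
      simp [hj]
    · simp [prj, hj, ht j hj]
  rw [h1]
  refine ⟨inE_prj I _, fun z hz => ?_⟩
  rw [sub_prj_dot _ hz]
  exact (hK t htη).2 z fun j hj => absurd (Finset.mem_univ j) hj

theorem mz_near {I : Finset (Fin d)} {x a v : V d} {R ω δ : ℝ} (hx : ∀ i ∈ I, |x i| ≤ R)
    (hδ : 0 < δ) (ha : ∀ t, InE I t → ‖t‖ ≤ δ → a + t ∈ AS φ I x ω) (hv : IsMz φ R I a x v) :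
    δ * ‖v - x‖ ≤ ω := by
  have key : ∀ t, InE I t → ‖t‖ ≤ δ → t ⬝ᵥ (v - x) ≤ ω := by
    intro t ht htδ
    have h1 := (ha t ht htδ).2 (v - x) hv.1
    have h2 := hv.2.2 x (InE.refl I x) hx
    rw [add_dotProduct, add_sub_cancel, dotProduct_sub a] at h1
    linarith
  have h0 : 0 ≤ ω := by simpa using key 0 (InE.zero I) (by simpa using hδ.le)
  rw [mul_comm, ← le_div_iff₀ hδ]
  refine (pi_norm_le_iff_of_nonneg (div_nonneg h0 hδ.le)).2 fun i => ?_
  by_cases hi : i ∈ I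
  · have h1 := key _ (inE_single hi δ) (by simp [Pi.norm_single, abs_of_pos hδ])
    have h2 := key _ (inE_single hi (-δ)) (by simp [Pi.norm_single, abs_of_pos hδ])
    rw [single_dotProduct] at h1 h2
    rw [le_div_iff₀ hδ, Real.norm_eq_abs, ← abs_of_pos hδ, ← abs_mul, abs_le]
    constructor <;> nlinarith
  · rw [hv.1 i hi, norm_zero]
    exact div_nonneg h0 hδ.le

theorem exists_grid (I : Finset (Fin d)) (L η : ℝ) (hη : 0 < η) :
    ∃ G : Finset (V d), (∀ a ∈ G, InE I a) ∧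
      ∀ u, InE I u → ‖u‖ ≤ L → ∃ a ∈ G, ‖a - u‖ ≤ η := by
  have hcl : IsClosed {u : V d | InE I u} := by
    simp only [InE, ofPred_forall]
    exact isClosed_iInter fun j => isClosed_iInter fun _ =>
      isClosed_eq (continuous_apply j) continuous_const
  obtain ⟨t, ht, hf, hcov⟩ := ((isCompact_closedBall (0 : V d) L).inter_left hcl).finite_cover_balls hη
  refine ⟨hf.toFinset, fun a ha => (ht (hf.mem_toFinset.1 ha)).1, fun u hu huL => ?_⟩
  obtain ⟨a, ha, hua⟩ := mem_iUnion₂.1 (hcov ⟨hu, by simpa using huL⟩)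
  refine ⟨a, hf.mem_toFinset.2 ha, ?_⟩
  rw [← dist_eq_norm, dist_comm]
  exact (Metric.mem_ball.1 hua).le

end Pool.Agent.MP_b8fe60_gt

end

-- part MP_b8fe60_gt.PC
section

/-
HINTS.  partial_inf: the infimum over the compact set is attained (IsCompact.exists_isMinOn); convexity and the Lipschitz bound follow by plugging in the minimisers.
exists_boxes: mrg y v j = if j ∈ I then v j else y j; pc a y = min over v ∈ closedBall 0 R of φ (mrg y v) - a ⬝ᵥ mrg y v (convex and Lipschitz in y by partial_inf; if IsMz φ R I a y v then pc a y = φ v - a ⬝ᵥ v);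
hi a i y = (pc a y - pc (a + Pi.single i η) y) / η, lo a i y = (pc (a - Pi.single i η) y - pc a y) / η.
lip_ext: g is Lipschitz on the closed ball of radius R with some constant L (ConvexOn.exists_lipschitzOnWith_of_isBounded, ConvexOn.continuousOn); g' x = min over v ∈ closedBall 0 R of g v + L * ‖x - v‖.
-/

namespace Pool.Agent.MP_b8fe60_gt

open Set

variable {d : ℕ}

theorem partial_inf {Ψ : V d → V d → ℝ} {S : Set (V d)} {L : ℝ} (hS : IsCompact S)
    (hne : S.Nonempty) (hcS : Convex ℝ S) (hc : ∀ y, Continuous (Ψ y))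
    (hl : ∀ y y' v, |Ψ y v - Ψ y' v| ≤ L * ‖y - y'‖)
    (hcv : ∀ (y y' v v' : V d) (a b : ℝ), 0 ≤ a → 0 ≤ b → a + b = 1 →
      Ψ (a • y + b • y') (a • v + b • v') ≤ a * Ψ y v + b * Ψ y' v') :
    ∃ m : V d → ℝ, ConvexOn ℝ univ m ∧ (∀ y y', |m y - m y'| ≤ L * ‖y - y'‖) ∧
      (∀ y, ∀ v ∈ S, m y ≤ Ψ y v) ∧ ∀ y, ∃ v ∈ S, m y = Ψ y v := by
  have hex : ∀ y, ∃ v ∈ S, IsMinOn (Ψ y) S v := fun y =>
    hS.exists_isMinOn hne (hc y).continuousOn
  choose v hvS hv using hex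
  have hle : ∀ y, ∀ w ∈ S, Ψ y (v y) ≤ Ψ y w := fun y w hw => hv y hw
  refine ⟨fun y => Ψ y (v y), ⟨convex_univ, ?_⟩, ?_, hle, fun y => ⟨v y, hvS y, rfl⟩⟩
  · intro y _ y' _ a b ha hb hab
    have h1 := hle (a • y + b • y') (a • v y + b • v y') (hcS (hvS y) (hvS y') ha hb hab)
    have h2 := hcv y y' (v y) (v y') a b ha hb hab
    simp only [smul_eq_mul]
    linarith
  · intro y y'
    have h1 := hle y (v y') (hvS y')
    have h2 := hle y' (v y) (hvS y)
    have h3 := abs_le.1 (hl y y' (v y'))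
    have h4 := abs_le.1 (hl y y' (v y))
    rw [abs_le]
    constructor <;> linarith [h3.1, h3.2, h4.1, h4.2]

/-- coordinates in `I` from `v`, the others from `y` -/
def pc_mrg (I : Finset (Fin d)) (y v : V d) : V d := fun j => if j ∈ I then v j else y j

theorem pc_mrg_comb (I : Finset (Fin d)) (y y' v v' : V d) (a b : ℝ) :
    pc_mrg I (a • y + b • y') (a • v + b • v') = a • pc_mrg I y v + b • pc_mrg I y' v' := by
  funext j
  by_cases hj : j ∈ I <;> simp [pc_mrg, hj]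

theorem pc_mrg_norm (I : Finset (Fin d)) (y y' v : V d) :
    ‖pc_mrg I y v - pc_mrg I y' v‖ ≤ ‖y - y'‖ := by
  refine (pi_norm_le_iff_of_nonneg (norm_nonneg _)).2 fun j => ?_
  by_cases hj : j ∈ I
  · simp [pc_mrg, hj]
  · have := norm_le_pi_norm (y - y') j
    simpa [pc_mrg, hj] using this

theorem pc_mrg_cont (I : Finset (Fin d)) (y : V d) : Continuous (pc_mrg I y) := by
  refine continuous_pi fun j => ?_
  by_cases hj : j ∈ I
  · simp only [pc_mrg, hj, if_true]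
    exact continuous_apply j
  · simp only [pc_mrg, hj, if_false]
    exact continuous_const

theorem pc_dot_le (a w : V d) : |a ⬝ᵥ w| ≤ (∑ j, |a j|) * ‖w‖ := by
  rw [Finset.sum_mul]
  refine (Finset.abs_sum_le_sum_abs _ _).trans (Finset.sum_le_sum fun j _ => ?_)
  rw [abs_mul]
  exact mul_le_mul_of_nonneg_left (by simpa using norm_le_pi_norm w j) (abs_nonneg _)

theorem pc_cont {g : V d → ℝ} {L : ℝ} (hL : 0 ≤ L) (h : ∀ x y, |g x - g y| ≤ L * ‖x - y‖) :
    Continuous g := by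
  refine (LipschitzWith.of_dist_le_mul (K := ⟨L, hL⟩) fun x y => ?_).continuous
  rw [Real.dist_eq, dist_eq_norm]
  exact h x y

theorem pc_exists {f φ : V d → ℝ} {L : ℝ} (h : Ctx f φ L) (R : ℝ) (hR : 0 ≤ R)
    (I : Finset (Fin d)) (a : V d) :
    ∃ m : V d → ℝ, DCV m ∧ (∀ y y', InE I (y' - y) → m y' = m y) ∧
      (∀ y z, InE I (z - y) → (∀ i ∈ I, |z i| ≤ R) → m y ≤ φ z - a ⬝ᵥ z) ∧
      (∀ y, ∃ v, IsMz φ R I a y v) ∧ ∀ y v, IsMz φ R I a y v → m y = φ v - a ⬝ᵥ v := by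
  have hL : 0 ≤ L := zero_le_one.trans h.one_le
  have hA : 0 ≤ ∑ j, |a j| := Finset.sum_nonneg fun j _ => abs_nonneg _
  obtain ⟨m, hcv, hlip, hle, hex⟩ := partial_inf
    (Ψ := fun y v => φ (pc_mrg I y v) - a ⬝ᵥ pc_mrg I y v) (S := Metric.closedBall 0 R)
    (L := L + ∑ j, |a j|) (isCompact_closedBall 0 R) ⟨0, Metric.mem_closedBall_self hR⟩
    (convex_closedBall 0 R)
    (fun y => ((pc_cont hL h.lipφ).comp (pc_mrg_cont I y)).sub
      (continuous_const.dotProduct (pc_mrg_cont I y)))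
    (fun y y' v => by
      have h1 := abs_le.1 (h.lipφ (pc_mrg I y v) (pc_mrg I y' v))
      have h2 := abs_le.1 (pc_dot_le a (pc_mrg I y v - pc_mrg I y' v))
      have h3 := pc_mrg_norm I y y' v
      have h4 := mul_le_mul_of_nonneg_left h3 hL
      have h5 := mul_le_mul_of_nonneg_left h3 hA
      rw [dotProduct_sub] at h2
      rw [abs_le, add_mul]
      constructor <;> linarith [h1.1, h1.2, h2.1, h2.2])
    (fun y y' v v' s t hs ht hst => by
      have h1 := h.cvx.2 (mem_univ (pc_mrg I y v)) (mem_univ (pc_mrg I y' v')) hs ht hst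
      rw [pc_mrg_comb, dotProduct_add, dotProduct_smul, dotProduct_smul]
      simp only [smul_eq_mul] at h1 ⊢
      linarith)
  have hP1 : ∀ y z, InE I (z - y) → (∀ i ∈ I, |z i| ≤ R) → m y ≤ φ z - a ⬝ᵥ z := by
    intro y z hz hzR
    have hmem : prj I z ∈ Metric.closedBall (0 : V d) R := by
      rw [mem_closedBall_zero_iff]
      refine (pi_norm_le_iff_of_nonneg hR).2 fun j => ?_
      by_cases hj : j ∈ I
      · simpa [prj, hj] using hzR j hj
      · simpa [prj, hj] using hR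
    have he : pc_mrg I y (prj I z) = z := by
      funext j
      by_cases hj : j ∈ I
      · simp [pc_mrg, prj, hj]
      · have := hz j hj
        simp only [Pi.sub_apply] at this
        simp only [pc_mrg, hj, if_false]
        linarith
    have := hle y _ hmem
    simp only [he] at this
    exact this
  have hP2 : ∀ y, ∃ v, InE I (v - y) ∧ (∀ i ∈ I, |v i| ≤ R) ∧ m y = φ v - a ⬝ᵥ v := by
    intro y
    obtain ⟨v, hv, hm⟩ := hex y
    refine ⟨pc_mrg I y v, fun j hj => by simp [pc_mrg, hj], fun i hi => ?_, hm⟩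
    rw [mem_closedBall_zero_iff] at hv
    have := (norm_le_pi_norm v i).trans hv
    simpa [pc_mrg, hi] using this
  refine ⟨m, DCV.of_convex (add_nonneg hL hA) hcv hlip, ?_, hP1, ?_, ?_⟩
  · intro y y' hy
    obtain ⟨v, hv, hvR, hm⟩ := hP2 y
    obtain ⟨v', hv', hvR', hm'⟩ := hP2 y'
    have h1 := hP1 y v' (hv'.trans hy) hvR'
    have h2 := hP1 y' v (hv.trans hy.symm) hvR
    linarith
  · intro y
    obtain ⟨v, hv, hvR, hm⟩ := hP2 y
    exact ⟨v, hv, hvR, fun z hz hzR => hm ▸ hP1 y z hz hzR⟩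
  · intro y v hv
    obtain ⟨w, hw, hwR, hm⟩ := hP2 y
    have h1 := hP1 y v hv.1 hv.2.1
    have h2 := hv.2.2 w hw hwR
    linarith

theorem exists_boxes {f φ : V d → ℝ} {L : ℝ} (h : Ctx f φ L) (R : ℝ) (hR : 0 ≤ R)
    (I : Finset (Fin d)) (η : ℝ) (hη : 0 < η) :
    ∃ lo hi : V d → Fin d → V d → ℝ, (∀ a i, DCV (lo a i)) ∧ (∀ a i, DCV (hi a i)) ∧
      (∀ a i y y', InE I (y' - y) → lo a i y' = lo a i y ∧ hi a i y' = hi a i y) ∧
      (∀ a y, ∃ v, IsMz φ R I a y v) ∧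
      (∀ a y v, ∀ i ∈ I, IsMz φ R I a y v → lo a i y ≤ v i ∧ v i ≤ hi a i y) ∧
      (∀ a y v, ∀ i ∈ I, IsMz φ R I (a + Pi.single i η) y v → hi a i y ≤ v i) ∧
      (∀ a y v, ∀ i ∈ I, IsMz φ R I (a - Pi.single i η) y v → v i ≤ lo a i y) := by
  choose pc hdc hinv hle hex heq using pc_exists h R hR I
  have hp : ∀ (a v : V d) (i : Fin d), (a + Pi.single i η) ⬝ᵥ v = a ⬝ᵥ v + η * v i := by
    intro a v i
    rw [add_dotProduct, single_dotProduct]
  have hm : ∀ (a v : V d) (i : Fin d), (a - Pi.single i η) ⬝ᵥ v = a ⬝ᵥ v - η * v i := by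
    intro a v i
    rw [sub_dotProduct, single_dotProduct]
  refine ⟨fun a i y => (pc (a - Pi.single i η) y - pc a y) / η,
    fun a i y => (pc a y - pc (a + Pi.single i η) y) / η,
    fun a i => ((hdc _).sub (hdc _)).div_const η, fun a i => ((hdc _).sub (hdc _)).div_const η,
    ?_, hex, ?_, ?_, ?_⟩
  · intro a i y y' hy
    simp only [hinv _ y y' hy, and_self]
  · intro a y v i _ hv
    have h1 := heq a y v hv
    have h2 := hle (a + Pi.single i η) y v hv.1 hv.2.1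
    have h3 := hle (a - Pi.single i η) y v hv.1 hv.2.1
    rw [hp] at h2
    rw [hm] at h3
    constructor
    · rw [div_le_iff₀ hη]
      linarith
    · rw [le_div_iff₀ hη]
      linarith
  · intro a y v i _ hv
    have h1 := heq _ y v hv
    have h2 := hle a y v hv.1 hv.2.1
    rw [hp] at h1
    rw [div_le_iff₀ hη]
    linarith
  · intro a y v i _ hv
    have h1 := heq _ y v hv
    have h2 := hle a y v hv.1 hv.2.1
    rw [hm] at h1
    rw [le_div_iff₀ hη]
    linarith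

theorem lip_ext {g : V d → ℝ} (hg : ConvexOn ℝ univ g) (R : ℝ) (hR : 0 ≤ R) :
    ∃ (g' : V d → ℝ) (L : ℝ), 0 ≤ L ∧ ConvexOn ℝ univ g' ∧
      (∀ x y, |g' x - g' y| ≤ L * ‖x - y‖) ∧ ∀ x, ‖x‖ ≤ R → g' x = g x := by
  have hc : Continuous g := hg.locallyLipschitz.continuous
  have hb : Bornology.IsBounded (g '' Metric.ball (0 : V d) (R + 2)) :=
    (((isCompact_closedBall (0 : V d) (R + 2)).image hc).isBounded).subset
      (image_mono Metric.ball_subset_closedBall)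
  obtain ⟨K, hK⟩ := (hg.subset (subset_univ _) (convex_ball (0 : V d) (R + 2))).exists_lipschitzOnWith_of_isBounded
    (show R + 1 < R + 2 by linarith) hb
  have hK0 : (0 : ℝ) ≤ K := K.2
  obtain ⟨m, hcv, hlip, hle, hex⟩ := partial_inf
    (Ψ := fun x v => g v + K * ‖x - v‖) (S := Metric.closedBall 0 R)
    (L := K) (isCompact_closedBall 0 R) ⟨0, Metric.mem_closedBall_self hR⟩
    (convex_closedBall 0 R)
    (fun y => hc.add (continuous_const.mul (continuous_const.sub continuous_id).norm))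
    (fun y y' v => by
      have h1 := abs_norm_sub_norm_le (y - v) (y' - v)
      rw [sub_sub_sub_cancel_right] at h1
      have h2 : g v + K * ‖y - v‖ - (g v + K * ‖y' - v‖) = K * (‖y - v‖ - ‖y' - v‖) := by ring
      rw [h2, abs_mul, abs_of_nonneg hK0]
      exact mul_le_mul_of_nonneg_left h1 hK0)
    (fun y y' v v' s t hs ht hst => by
      have h1 := hg.2 (mem_univ v) (mem_univ v') hs ht hst
      have h2 : s • y + t • y' - (s • v + t • v') = s • (y - v) + t • (y' - v') := by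
        simp only [smul_sub]
        abel
      have h3 := norm_add_le (s • (y - v)) (t • (y' - v'))
      rw [norm_smul, norm_smul, Real.norm_of_nonneg hs, Real.norm_of_nonneg ht] at h3
      have h4 := mul_le_mul_of_nonneg_left h3 hK0
      rw [h2]
      simp only [smul_eq_mul] at h1
      linarith)
  refine ⟨m, K, hK0, hcv, hlip, fun x hx => le_antisymm ?_ ?_⟩
  · have := hle x x (mem_closedBall_zero_iff.2 hx)
    simpa using this
  · obtain ⟨v, hv, hm⟩ := hex x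
    rw [mem_closedBall_zero_iff] at hv
    have h1 := hK.dist_le_mul x (mem_ball_zero_iff.2 (by linarith)) v
      (mem_ball_zero_iff.2 (by linarith))
    rw [Real.dist_eq, dist_eq_norm] at h1
    have h2 := (abs_le.1 h1).2
    rw [hm]
    linarith

end Pool.Agent.MP_b8fe60_gt

end

-- part MP_b8fe60_gt.Elim
section

/-
HINTS.  elim_step: data (n, m) of Struct K J η B.  τ = e_l - ∑_{i ∈ J} (m i l) e_i.  If not thin there is u ∈ K with γ = (u - n) ⬝ᵥ τ, |γ| > κ.  ν = u - n (‖ν‖ ≤ 2 L as n ∈ K), μ = ν - ∑_{i ∈ J} ν i • m i vanishes on J and μ l = γ.  m' l = γ⁻¹ • μ, m' i = m i - (m i l) • m' l, n' = n + (1/2) • ν.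
For ‖t‖ ≤ η' put s = t l - ∑_{i ∈ J} t i * m i l, λ = 1/2 + s/γ ∈ [1/4, 3/4]; the point n' + ∑ t i • m' i equals (1 - λ) • (n + ∑_{i ∈ J} ((t i - s * ν i / γ) / (1 - λ)) • m i) + λ • u.
elim: recursion on pairs (η, B) with choice.  dichotomy: grow J inside I (induction on J ⊆ I); in the fat case the points lie in E_I so n + ∑ t i • m i = n + t.
-/

namespace Pool.Agent.MP_b8fe60_gt

open Set

variable {d : ℕ}

theorem elim_abs_sum (J : Finset (Fin d)) (a b : Fin d → ℝ) (A B : ℝ) (hA : 0 ≤ A) (hB : 0 ≤ B)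
    (ha : ∀ i ∈ J, |a i| ≤ A) (hb : ∀ i ∈ J, |b i| ≤ B) :
    |∑ i ∈ J, a i * b i| ≤ d * (A * B) := by
  calc |∑ i ∈ J, a i * b i| ≤ ∑ i ∈ J, |a i * b i| := Finset.abs_sum_le_sum_abs _ _
    _ ≤ ∑ _i ∈ J, A * B := by
        refine Finset.sum_le_sum fun i hi => ?_
        rw [abs_mul]
        exact mul_le_mul (ha i hi) (hb i hi) (abs_nonneg _) hA
    _ = J.card * (A * B) := by simp
    _ ≤ d * (A * B) := by
        have h : J.card ≤ d := by simpa using J.card_le_univ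
        have h' : (J.card : ℝ) ≤ d := by exact_mod_cast h
        exact mul_le_mul_of_nonneg_right h' (mul_nonneg hA hB)

theorem elim_coord (x : V d) (j : Fin d) : |x j| ≤ ‖x‖ := by
  simpa using norm_le_pi_norm x j

theorem elim_norm (x : V d) (C : ℝ) (hC : 0 ≤ C) (h : ∀ j, |x j| ≤ C) : ‖x‖ ≤ C :=
  (pi_norm_le_iff_of_nonneg hC).2 fun j => by simpa using h j

theorem elim_dot (J : Finset (Fin d)) (l : Fin d) (hl : l ∉ J) (c ν : V d) :
    ν ⬝ᵥ (fun j => if j = l then 1 else if j ∈ J then -c j else 0) =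
      ν l - ∑ i ∈ J, ν i * c i := by
  have h : ∀ j, ν j * (if j = l then 1 else if j ∈ J then -c j else 0) =
      (if j = l then ν j else 0) - (if j ∈ J then ν j * c j else 0) := by
    intro j
    by_cases h1 : j = l
    · subst h1
      simp [hl]
    · by_cases h2 : j ∈ J <;> simp [h1, h2]
  simp only [dotProduct, h, Finset.sum_sub_distrib]
  simp

theorem elim_step (κ L η B : ℝ) (hκ : 0 < κ) (hL : 0 < L) (hη : 0 < η) (hB : 1 ≤ B) :
    ∃ η' B' : ℝ, 0 < η' ∧ η' ≤ η ∧ B ≤ B' ∧ ∀ K : Set (V d), Convex ℝ K → (∀ u ∈ K, ‖u‖ ≤ L) →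
      ∀ (J : Finset (Fin d)) (l : Fin d), l ∉ J → Struct K J η B →
        Thin K J l κ B ∨ Struct K (insert l J) η' B' := by
  have hd : (0 : ℝ) ≤ d := Nat.cast_nonneg d
  have hB0 : 0 < B := by linarith
  have hE : 1 ≤ 1 + d * B := by nlinarith
  have hE0 : 0 < 1 + d * B := by linarith
  set M : ℝ := 2 * L * (1 + d * B) / κ with hM
  have hM0 : 0 < M := by positivity
  refine ⟨min (η / (4 * (1 + M))) (κ / (4 * (1 + d * B))), B + M + B * M,
    lt_min (by positivity) (by positivity), ?_, by nlinarith [mul_pos hB0 hM0], ?_⟩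
  · refine (min_le_left _ _).trans ?_
    rw [div_le_iff₀ (by positivity)]
    nlinarith [mul_pos hη hM0]
  intro K hK hKL J l hl hS
  obtain ⟨n, m, hm, hmB, hmK⟩ := hS
  have hn : n ∈ K := by simpa using hmK 0 (by simpa using hη.le)
  have hml : ∀ i ∈ J, ∀ j, |m i j| ≤ B := fun i hi j => (elim_coord _ _).trans (hmB i hi)
  by_cases hT : ∀ u ∈ K, |(u - n) l - ∑ i ∈ J, (u - n) i * m i l| ≤ κ
  · left
    refine ⟨n, fun j => if j = l then 1 else if j ∈ J then -m j l else 0, by simp, ?_, ?_, ?_⟩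
    · intro j hj
      simp only [Finset.mem_insert, not_or] at hj
      simp [hj.1, hj.2]
    · refine elim_norm _ _ hB0.le fun j => ?_
      by_cases h1 : j = l
      · simpa [h1] using hB
      · by_cases h2 : j ∈ J
        · simpa [h1, h2] using hml j h2 l
        · simpa [h1, h2] using hB0.le
    · intro u hu
      rw [elim_dot J l hl (fun j => m j l) (u - n)]
      exact hT u hu
  right
  push Not at hT
  obtain ⟨u, hu, hγ⟩ := hT
  set ν : V d := u - n with hν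
  set γ : ℝ := ν l - ∑ i ∈ J, ν i * m i l with hγdef
  have hγ0 : γ ≠ 0 := by
    intro h
    rw [h, abs_zero] at hγ
    linarith
  have hγpos : 0 < |γ| := abs_pos.2 hγ0
  have hνL : ∀ j, |ν j| ≤ 2 * L := by
    intro j
    refine (elim_coord _ _).trans ?_
    have := norm_sub_le u n
    linarith [hKL u hu, hKL n hn]
  set w : V d := fun j => (ν j - ∑ i ∈ J, ν i * m i j) / γ with hw
  have hwM : ∀ j, |w j| ≤ M := by
    intro j
    have h1 := elim_abs_sum J ν (fun i => m i j) (2 * L) B (by positivity) hB0.le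
      (fun i _ => hνL i) (fun i hi => hml i hi j)
    have h2 : |ν j - ∑ i ∈ J, ν i * m i j| ≤ 2 * L * (1 + d * B) := by
      have := abs_sub (ν j) (∑ i ∈ J, ν i * m i j)
      nlinarith [hνL j]
    simp only [hw, abs_div]
    rw [hM]
    exact div_le_div₀ (by positivity) h2 hκ hγ.le
  have hwl : w l = 1 := by
    simp only [hw]
    exact div_self hγ0
  have hwJ : ∀ j ∈ J, w j = 0 := by
    intro j hj
    have : ∑ i ∈ J, ν i * m i j = ν j := by
      rw [Finset.sum_congr rfl (fun i hi => by rw [hm i hi j hj])]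
      simp [hj]
    simp [hw, this]
  refine ⟨n + (1 / 2 : ℝ) • ν, fun i => if i = l then w else m i - m i l • w, ?_, ?_, ?_⟩
  · intro i hi j hj
    rcases Finset.mem_insert.1 hi with hi | hi
    · rcases Finset.mem_insert.1 hj with hj | hj
      · simp [hi, hj, hwl]
      · have hjl : l ≠ j := fun h => hl (h ▸ hj)
        simp [hi, hjl, hwJ j hj]
    · have hil : i ≠ l := fun h => hl (h ▸ hi)
      rcases Finset.mem_insert.1 hj with hj | hj
      · simp [hil, hj, hwl]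
      · simp [hil, hwJ j hj, hm i hi j hj]
  · intro i hi
    have hBM : 0 < B * M := mul_pos hB0 hM0
    refine elim_norm _ _ (by linarith) fun j => ?_
    rcases Finset.mem_insert.1 hi with hi | hi
    · simp only [hi, if_true]
      linarith [hwM j]
    · have hil : i ≠ l := fun h => hl (h ▸ hi)
      simp only [hil, if_false, Pi.sub_apply, Pi.smul_apply, smul_eq_mul]
      have h1 := abs_sub (m i j) (m i l * w j)
      have h2 : |m i l * w j| ≤ B * M := by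
        rw [abs_mul]
        exact mul_le_mul (hml i hi l) (hwM j) (abs_nonneg _) hB0.le
      linarith [hml i hi j]
  · intro t ht
    set e : ℝ := min (η / (4 * (1 + M))) (κ / (4 * (1 + d * B))) with he
    have he0 : 0 ≤ e := (norm_nonneg t).trans ht
    have he1 : e * (4 * (1 + M)) ≤ η := (le_div_iff₀ (by positivity)).1 (min_le_left _ _)
    have he2 : e * (4 * (1 + d * B)) ≤ κ := (le_div_iff₀ (by positivity)).1 (min_le_right _ _)
    have hte : ∀ j, |t j| ≤ e := fun j => (elim_coord _ _).trans ht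
    set s : ℝ := t l - ∑ i ∈ J, t i * m i l with hs
    have hsb : |s| ≤ e * (1 + d * B) := by
      have h1 := elim_abs_sum J t (fun i => m i l) e B he0 hB0.le
        (fun i _ => hte i) (fun i hi => hml i hi l)
      have := abs_sub (t l) (∑ i ∈ J, t i * m i l)
      nlinarith [hte l]
    set q : ℝ := s / γ with hq
    have hqb : |q| ≤ e * (1 + d * B) / κ := by
      rw [hq, abs_div]
      exact div_le_div₀ (by positivity) hsb hκ hγ.le
    have hq4 : |q| ≤ 1 / 4 := by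
      refine hqb.trans ?_
      rw [div_le_iff₀ hκ]
      linarith
    have hq1 := (abs_le.1 hq4).1
    have hq2 := (abs_le.1 hq4).2
    have hp : 0 < 1 / 2 - q := by linarith
    have hmem := hmK (fun j => (t j - q * ν j) / (1 / 2 - q)) (by
      refine elim_norm _ _ hη.le fun j => ?_
      rw [abs_div, abs_of_pos hp, div_le_iff₀ hp]
      have h1 := abs_sub (t j) (q * ν j)
      have h2 : |q * ν j| ≤ e * M := by
        rw [abs_mul]
        calc |q| * |ν j| ≤ e * (1 + d * B) / κ * (2 * L) :=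
              mul_le_mul hqb (hνL j) (abs_nonneg _) (by positivity)
          _ = e * M := by rw [hM]; ring
      nlinarith [hte j])
    have hc := hK hmem hu hp.le (show 0 ≤ 1 / 2 + q by linarith) (by ring)
    have hsum : ∑ i ∈ J, t i • (if i = l then w else m i - m i l • w) =
        ∑ i ∈ J, t i • (m i - m i l • w) := by
      refine Finset.sum_congr rfl fun i hi => ?_
      have hil : i ≠ l := fun h => hl (h ▸ hi)
      simp [hil]
    have hu' : u = n + ν := by simp [hν]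
    have heq : n + (1 / 2 : ℝ) • ν +
        ∑ i ∈ insert l J, t i • (if i = l then w else m i - m i l • w) =
        (1 / 2 - q) • (n + ∑ i ∈ J, ((t i - q * ν i) / (1 / 2 - q)) • m i) + (1 / 2 + q) • u := by
      rw [Finset.sum_insert hl, hsum, hu']
      funext j
      simp only [if_true, Pi.add_apply, Pi.smul_apply, Finset.sum_apply, Pi.sub_apply, smul_eq_mul]
      have e1 : ∑ i ∈ J, t i * (m i j - m i l * w j) =
          ∑ i ∈ J, t i * m i j - (∑ i ∈ J, t i * m i l) * w j := by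
        rw [Finset.sum_mul, ← Finset.sum_sub_distrib]
        exact Finset.sum_congr rfl fun i _ => by ring
      have e2 : (1 / 2 - q) * ∑ i ∈ J, (t i - q * ν i) / (1 / 2 - q) * m i j =
          ∑ i ∈ J, t i * m i j - q * ∑ i ∈ J, ν i * m i j := by
        rw [Finset.mul_sum, Finset.mul_sum, ← Finset.sum_sub_distrib]
        refine Finset.sum_congr rfl fun i _ => ?_
        rw [← mul_assoc, mul_div_cancel₀ _ hp.ne']
        ring
      have e3 : s * w j = q * (ν j - ∑ i ∈ J, ν i * m i j) := by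
        simp only [hw, hq]
        ring
      rw [e1, mul_add (1 / 2 - q), e2]
      rw [hs] at e3
      linarith
    rw [heq]
    exact hc

theorem elim (κ L : ℝ) (hκ : 0 < κ) (hL : 0 < L) :
    ∃ η B : ℕ → ℝ, (∀ j, 0 < η j) ∧ (∀ j, 1 ≤ B j) ∧ Antitone η ∧ Monotone B ∧
      (∀ K : Set (V d), K.Nonempty → Struct K ∅ (η 0) (B 0)) ∧
      ∀ K : Set (V d), Convex ℝ K → (∀ u ∈ K, ‖u‖ ≤ L) →
        ∀ (J : Finset (Fin d)) (l : Fin d), l ∉ J → Struct K J (η J.card) (B J.card) →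
          Thin K J l κ (B J.card) ∨ Struct K (insert l J) (η (J.card + 1)) (B (J.card + 1)) := by
  have h : ∀ p : {p : ℝ × ℝ // 0 < p.1 ∧ 1 ≤ p.2}, ∃ q : {p : ℝ × ℝ // 0 < p.1 ∧ 1 ≤ p.2},
      q.1.1 ≤ p.1.1 ∧ p.1.2 ≤ q.1.2 ∧ ∀ K : Set (V d), Convex ℝ K → (∀ u ∈ K, ‖u‖ ≤ L) →
      ∀ (J : Finset (Fin d)) (l : Fin d), l ∉ J → Struct K J p.1.1 p.1.2 →
        Thin K J l κ p.1.2 ∨ Struct K (insert l J) q.1.1 q.1.2 := by
    intro p
    obtain ⟨η', B', h1, h2, h3, h4⟩ := elim_step (d := d) κ L p.1.1 p.1.2 hκ hL p.2.1 p.2.2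
    exact ⟨⟨(η', B'), h1, p.2.2.trans h3⟩, h2, h3, h4⟩
  choose F hF using h
  let x : ℕ → {p : ℝ × ℝ // 0 < p.1 ∧ 1 ≤ p.2} := fun k =>
    Nat.rec ⟨(1, 1), one_pos, le_rfl⟩ (fun _ p => F p) k
  have hx : ∀ k, x (k + 1) = F (x k) := fun _ => rfl
  refine ⟨fun k => (x k).1.1, fun k => (x k).1.2, fun k => (x k).2.1, fun k => (x k).2.2,
    antitone_nat_of_succ_le fun k => ?_, monotone_nat_of_le_succ fun k => ?_, ?_, ?_⟩
  · rw [hx]
    exact (hF _).1
  · rw [hx]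
    exact (hF _).2.1
  · rintro K ⟨n, hn⟩
    exact ⟨n, fun _ => 0, by simp, by simp, by simpa using fun _ _ => hn⟩
  · intro K hK hKL J l hl hS
    have := (hF (x J.card)).2.2 K hK hKL J l hl hS
    rw [← hx] at this
    exact this

theorem dichotomy (κ L : ℝ) (hκ : 0 < κ) (hL : 0 < L) :
    ∃ η B : ℝ, 0 < η ∧ 1 ≤ B ∧ ∀ (I : Finset (Fin d)) (K : Set (V d)), Convex ℝ K → K.Nonempty →
      (∀ u ∈ K, ‖u‖ ≤ L) → (∀ u ∈ K, InE I u) →
      (∃ l ∈ I, ∃ n τ : V d, τ l = 1 ∧ InE I τ ∧ ‖τ‖ ≤ B ∧ ∀ u ∈ K, |(u - n) ⬝ᵥ τ| ≤ κ) ∨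
        ∃ n : V d, ∀ t, InE I t → ‖t‖ ≤ η → n + t ∈ K := by
  obtain ⟨η, B, hη, hB, hanti, hmono, h0, hstep⟩ := elim (d := d) κ L hκ hL
  refine ⟨η d, B d, hη d, hB d, ?_⟩
  intro I K hK hne hKL hKI
  have hcard : ∀ J : Finset (Fin d), J.card ≤ d := fun J => by simpa using J.card_le_univ
  have key : ∀ J : Finset (Fin d), J ⊆ I →
      (∃ l ∈ I, ∃ n τ : V d, τ l = 1 ∧ InE I τ ∧ ‖τ‖ ≤ B d ∧ ∀ u ∈ K, |(u - n) ⬝ᵥ τ| ≤ κ) ∨
        Struct K J (η J.card) (B J.card) := by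
    intro J
    induction J using Finset.induction_on with
    | empty => exact fun _ => Or.inr (by simpa using h0 K hne)
    | insert l J hl ih =>
      intro hJ
      rcases ih ((Finset.subset_insert l J).trans hJ) with h | h
      · exact Or.inl h
      · rcases hstep K hK hKL J l hl h with h' | h'
        · obtain ⟨n, τ, h1, h2, h3, h4⟩ := h'
          exact Or.inl ⟨l, hJ (Finset.mem_insert_self l J), n, τ, h1, h2.mono hJ,
            h3.trans (hmono (hcard J)), h4⟩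
        · right
          rw [Finset.card_insert_of_notMem hl]
          exact h'
  rcases key I subset_rfl with h | ⟨n, m, hm, -, hmK⟩
  · exact Or.inl h
  · right
    have hn : n ∈ K := by simpa using hmK 0 (by simpa using (hη _).le)
    refine ⟨n, fun t htI ht => ?_⟩
    have hmem := hmK t (ht.trans (hanti (hcard I)))
    have heq : n + t = n + ∑ i ∈ I, t i • m i := by
      funext j
      by_cases hj : j ∈ I
      · simp only [Pi.add_apply, Finset.sum_apply, Pi.smul_apply, smul_eq_mul]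
        rw [Finset.sum_congr rfl (fun i hi => by rw [hm i hi j hj])]
        simp [hj]
      · rw [hKI _ hmem j hj]
        simp [hKI n hn j hj, htI j hj]
    rw [heq]
    exact hmem

end Pool.Agent.MP_b8fe60_gt

end
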