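import Pool.Agent.MP_b8fe60_gt.Defs
import Pool.Agent.MP_b8fe60_gt.Mg.Elim

-- part MP_b8fe60_gt.Clarke
section

/-
HINTS.  descent_of_ae (mollify): for small ρ put ψ t = ∫ u in ball 0 ρ, F (z - t • e + u); hasDerivAt_integral_of_dominated_loc_of_lip with LipschitzWith.ae_differentiableAt (translate) gives ψ' t ≤ -c vol; mean value inequality; compare with F up to L ρ and let ρ → 0.
uniform_reg: by contradiction, points y i with infDist (y i) M → 0; subsequence converging to a point of M.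
dir_of_clarke: geometric_hahn_banach_open for ball 0 c and the convex set clarke f y, Riesz representative, normalise; if points z n → y of differentiability had ⟪∇f (z n), e⟫ < c / 2, a subsequence of the (bounded) gradients converges to an element of clarke f y.
ctx_of_wdc: f = g - h; transport g, h to V d, lip_ext on a ball of radius R + 1 containing M, f' = max g' h' - h', φ = max g' h' + h', L = max 1 (...).  U = {x | ‖x‖ < R + 1 and toLp x in the thickening}.  For Desc use a globally Lipschitz function that agrees with f near the point (f' read on the Euclidean space; differentiability and gradient are local: Filter.EventuallyEq).  ‖e‖_sup ≤ ‖e‖_2 ≤ 1, and sup-balls of small radius lie in Euclidean balls (continuity of toLp).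
-/

namespace Pool.Agent.MP_b8fe60_gt

open Set Filter Topology

variable {d : ℕ}

open MeasureTheory in
theorem clarke_moll (F : EuclideanSpace ℝ (Fin d) → ℝ) (K : NNReal) (hF : LipschitzWith K F)
    (y e : EuclideanSpace ℝ (Fin d)) (c δ : ℝ) (he : ‖e‖ ≤ 1)
    (h : ∀ z, ‖z - y‖ < 3 * δ → DifferentiableAt ℝ F z → c ≤ fderiv ℝ F z e)
    (z : EuclideanSpace ℝ (Fin d)) (s : ℝ) (hz : ‖z - y‖ ≤ δ) (hs0 : 0 ≤ s) (hs : s ≤ δ)
    (ρ : ℝ) (hρ : 0 < ρ) (hρδ : ρ ≤ δ) :
    F (z - s • e) ≤ F z - c * s + 2 * K * ρ := by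
  set μ : Measure (EuclideanSpace ℝ (Fin d)) := volume.restrict (Metric.ball 0 ρ) with hμ
  have : IsFiniteMeasure μ := isFiniteMeasure_restrict.2 measure_ball_lt_top.ne
  have hm : 0 < μ.real univ := by
    rw [hμ, measureReal_restrict_apply_univ]
    exact ENNReal.toReal_pos (Metric.measure_ball_pos _ _ hρ).ne' measure_ball_lt_top.ne
  have hball : ∀ᵐ u ∂μ, ‖u‖ < ρ := by
    filter_upwards [ae_restrict_mem Metric.isOpen_ball.measurableSet] with u hu
    simpa using hu
  have hcont : ∀ a, Continuous fun u => F (a + u) := fun a =>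
    hF.continuous.comp (continuous_const.add continuous_id)
  have hnear : ∀ a u, ‖u‖ < ρ → |F (a + u) - F a| ≤ K * ρ := fun a u hu => by
    have := hF.dist_le_mul (a + u) a
    rw [Real.dist_eq, dist_eq_norm, add_sub_cancel_left] at this
    exact this.trans (mul_le_mul_of_nonneg_left hu.le K.2)
  have hint : ∀ a, Integrable (fun u => F (a + u)) μ := fun a => by
    refine Integrable.of_bound (hcont a).aestronglyMeasurable (|F a| + K * ρ) ?_
    filter_upwards [hball] with u hu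
    have h1 := hnear a u hu
    have h2 := abs_sub_abs_le_abs_sub (F (a + u)) (F a)
    rw [Real.norm_eq_abs]
    linarith
  have hder : ∀ t : ℝ, Integrable (fun u => -fderiv ℝ F (z - t • e + u) e) μ ∧
      HasDerivAt (fun t : ℝ => ∫ u, F (z - t • e + u) ∂μ)
        (∫ u, -fderiv ℝ F (z - t • e + u) e ∂μ) t := by
    intro t
    refine hasDerivAt_integral_of_dominated_loc_of_lip (s := univ) (bound := fun _ => (K : ℝ))
      univ_mem (Eventually.of_forall fun t => (hcont _).aestronglyMeasurable) (hint _) ?_ ?_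
      (integrable_const _) ?_
    · exact (((measurable_fderiv_apply_const ℝ F e).comp
        (measurable_const_add (z - t • e))).neg).aestronglyMeasurable
    · refine Eventually.of_forall fun u => ?_
      rw [Real.nnabs_coe]
      refine (LipschitzWith.of_dist_le_mul fun t₁ t₂ => ?_).lipschitzOnWith
      refine (hF.dist_le_mul _ _).trans (mul_le_mul_of_nonneg_left ?_ K.2)
      rw [dist_eq_norm, dist_comm, dist_eq_norm,
        show z - t₁ • e + u - (z - t₂ • e + u) = (t₂ - t₁) • e by module, norm_smul]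
      exact mul_le_of_le_one_right (norm_nonneg _) he
    · have h1 : ∀ᵐ u ∂(volume : Measure (EuclideanSpace ℝ (Fin d))),
          DifferentiableAt ℝ F (z - t • e + u) :=
        (measurePreserving_add_left volume (z - t • e)).quasiMeasurePreserving.ae
          hF.ae_differentiableAt
      filter_upwards [ae_restrict_of_ae h1] with u hu
      have h2 : HasDerivAt (fun t : ℝ => z - t • e + u) (-e) t := by
        simpa using (((hasDerivAt_id t).smul_const e).const_sub z).add_const u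
      have h3 := hu.hasFDerivAt.comp_hasDerivAt t h2
      rw [map_neg] at h3
      exact h3
  have hle : ∀ t ∈ interior (Icc 0 s),
      deriv (fun t : ℝ => ∫ u, F (z - t • e + u) ∂μ) t ≤ -c * μ.real univ := by
    intro t ht
    have ht' := interior_subset ht
    rw [(hder t).2.deriv, mul_comm, ← smul_eq_mul, ← integral_const]
    refine integral_mono_ae (hder t).1 (integrable_const _) ?_
    have h1 : ∀ᵐ u ∂(volume : Measure (EuclideanSpace ℝ (Fin d))),
        DifferentiableAt ℝ F (z - t • e + u) :=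
      (measurePreserving_add_left volume (z - t • e)).quasiMeasurePreserving.ae
        hF.ae_differentiableAt
    filter_upwards [ae_restrict_of_ae h1, hball] with u hu hu'
    refine neg_le_neg (h _ ?_ hu)
    have h2 : ‖t • e‖ ≤ δ := by
      rw [norm_smul, Real.norm_eq_abs, abs_of_nonneg ht'.1]
      exact (mul_le_of_le_one_right ht'.1 he).trans (ht'.2.trans hs)
    have h3 := norm_add_le (z - y - t • e) u
    have h4 := norm_sub_le (z - y) (t • e)
    rw [show z - t • e + u - y = z - y - t • e + u by abel]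
    linarith
  have key := (convex_Icc 0 s).image_sub_le_mul_sub_of_deriv_le
    (fun t _ => (hder t).2.continuousAt.continuousWithinAt)
    (fun t _ => (hder t).2.differentiableAt.differentiableWithinAt) hle 0 ⟨le_rfl, hs0⟩ s
    ⟨hs0, le_rfl⟩ hs0
  simp only [zero_smul, sub_zero] at key
  have b1 : μ.real univ * (F (z - s • e) - K * ρ) ≤ ∫ u, F (z - s • e + u) ∂μ := by
    rw [← smul_eq_mul, ← integral_const]
    refine integral_mono_ae (integrable_const _) (hint _) ?_
    filter_upwards [hball] with u hu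
    linarith [(abs_le.1 (hnear (z - s • e) u hu)).1]
  have b2 : ∫ u, F (z + u) ∂μ ≤ μ.real univ * (F z + K * ρ) := by
    rw [← smul_eq_mul, ← integral_const]
    refine integral_mono_ae (hint _) (integrable_const _) ?_
    filter_upwards [hball] with u hu
    linarith [(abs_le.1 (hnear z u hu)).2]
  refine le_of_mul_le_mul_left ?_ hm
  linarith

theorem descent_of_ae (F : EuclideanSpace ℝ (Fin d) → ℝ) (K : NNReal) (hF : LipschitzWith K F)
    (y e : EuclideanSpace ℝ (Fin d)) (c δ : ℝ) (he : ‖e‖ ≤ 1)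
    (h : ∀ z, ‖z - y‖ < 3 * δ → DifferentiableAt ℝ F z → c ≤ fderiv ℝ F z e)
    (z : EuclideanSpace ℝ (Fin d)) (s : ℝ) (hz : ‖z - y‖ ≤ δ) (hs0 : 0 ≤ s) (hs : s ≤ δ) :
    F (z - s • e) ≤ F z - c * s := by
  rcases hs0.eq_or_lt with rfl | hs1
  · simp
  have h1 : Tendsto (fun ρ : ℝ => F z - c * s + 2 * K * ρ) (𝓝[>] 0)
      (𝓝 (F z - c * s + 2 * K * 0)) :=
    ((by fun_prop : Continuous fun ρ : ℝ => F z - c * s + 2 * K * ρ).tendsto 0).mono_left
      nhdsWithin_le_nhds
  rw [mul_zero, add_zero] at h1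
  refine ge_of_tendsto h1 ?_
  filter_upwards [Ioc_mem_nhdsGT (hs1.trans_le hs)] with ρ hρ
  exact clarke_moll F K hF y e c δ he h z s hz hs0 hs ρ hρ.1 hρ.2

theorem uniform_reg (f : EuclideanSpace ℝ (Fin d) → ℝ) (M : Set (EuclideanSpace ℝ (Fin d)))
    (hM : IsCompact M) (h : IsAura f M) :
    ∃ c, 0 < c ∧ ∀ y ∈ Metric.thickening c M, 0 < f y → ∀ u ∈ clarke f y, c ≤ ‖u‖ := by
  by_contra hcon
  push Not at hcon
  choose y hy hfy u hu hun using fun n : ℕ => hcon (1 / ((n : ℝ) + 1)) Nat.one_div_pos_of_nat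
  choose x hx hxy using fun n => Metric.mem_thickening_iff.1 (hy n)
  obtain ⟨a, ha, ψ, hψ, hlim⟩ := hM.tendsto_subseq hx
  have h0 : Tendsto (fun n => 1 / ((ψ n : ℝ) + 1)) atTop (𝓝 0) :=
    tendsto_one_div_add_atTop_nhds_zero_nat.comp hψ.tendsto_atTop
  refine h.2.2.2 ⟨a, y ∘ ψ, u ∘ ψ, ?_, ?_, ?_, fun i => ⟨hfy _, hu _⟩⟩
  · refine hlim.congr_dist (squeeze_zero (fun _ => dist_nonneg) (fun n => ?_) h0)
    rw [dist_comm]
    exact (hxy (ψ n)).le
  · exact squeeze_zero_norm (fun n => (hun (ψ n)).le) h0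
  · rw [h.2.2.1] at ha
    exact ha

theorem dir_of_clarke (f : EuclideanSpace ℝ (Fin d) → ℝ) (hf : LocallyLipschitz f)
    (y : EuclideanSpace ℝ (Fin d)) (c : ℝ) (hc : 0 < c) (h : ∀ u ∈ clarke f y, c ≤ ‖u‖) :
    ∃ (e : EuclideanSpace ℝ (Fin d)) (δ : ℝ), 0 < δ ∧ ‖e‖ ≤ 1 ∧
      ∀ z, ‖z - y‖ < δ → DifferentiableAt ℝ f z → c / 2 ≤ fderiv ℝ f z e := by
  obtain ⟨e, he, hsep⟩ : ∃ e : EuclideanSpace ℝ (Fin d), ‖e‖ ≤ 1 ∧
      ∀ b ∈ clarke f y, 3 * c / 4 ≤ inner ℝ b e := by
    obtain ⟨l, r, h1, h2⟩ := geometric_hahn_banach_open (convex_ball (0 : EuclideanSpace ℝ (Fin d)) c)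
      Metric.isOpen_ball (t := clarke f y) (convex_convexHull ℝ _).closure
      (Set.disjoint_left.2 fun a ha hb => by
        have := h a hb
        rw [mem_ball_zero_iff] at ha
        linarith)
    obtain ⟨v, rfl⟩ := (InnerProductSpace.toDual ℝ (EuclideanSpace ℝ (Fin d))).surjective l
    simp only [InnerProductSpace.toDual_apply_apply] at h1 h2
    rcases eq_or_ne v 0 with rfl | hv
    · refine ⟨0, by simp, fun b hb => ?_⟩
      have h3 := h1 0 (Metric.mem_ball_self hc)
      have h4 := h2 b hb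
      simp only [inner_zero_left] at h3 h4
      linarith
    · have hv' : 0 < ‖v‖ := norm_pos_iff.2 hv
      have hn : ‖‖v‖⁻¹ • v‖ = 1 := by
        rw [norm_smul, norm_inv, norm_norm, inv_mul_cancel₀ hv'.ne']
      refine ⟨‖v‖⁻¹ • v, hn.le, fun b hb => ?_⟩
      have h3 := h1 ((3 * c / 4) • ‖v‖⁻¹ • v) (by
        rw [mem_ball_zero_iff, norm_smul, hn, Real.norm_eq_abs, abs_of_pos (by positivity)]
        linarith)
      have h4 := h2 b hb
      rw [real_inner_smul_right, real_inner_smul_right, real_inner_self_eq_norm_mul_norm,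
        ← mul_assoc ‖v‖⁻¹, inv_mul_cancel₀ hv'.ne', one_mul] at h3
      rw [real_inner_smul_right, real_inner_comm, le_inv_mul_iff₀ hv']
      linarith
  obtain ⟨K, t, ht, hK⟩ := hf y
  obtain ⟨r, hr, hrt⟩ := Metric.mem_nhds_iff.1 ht
  by_contra hcon
  push Not at hcon
  choose z hz hzd hzc using fun n : ℕ =>
    hcon e (min r (1 / ((n : ℝ) + 1))) (lt_min hr Nat.one_div_pos_of_nat) he
  have hb : ∀ n, gradient f (z n) ∈ Metric.closedBall (0 : EuclideanSpace ℝ (Fin d)) K := by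
    intro n
    rw [mem_closedBall_zero_iff, gradient, LinearIsometryEquiv.norm_map]
    refine norm_fderiv_le_of_lipschitzOn ℝ ?_ hK
    refine mem_of_superset (Metric.isOpen_ball.mem_nhds ?_) hrt
    rw [mem_ball_iff_norm]
    exact (hz n).trans_le (min_le_left _ _)
  obtain ⟨a, -, ψ, hψ, hlim⟩ := (isCompact_closedBall _ _).tendsto_subseq hb
  have h0 : Tendsto (fun n => 1 / ((ψ n : ℝ) + 1)) atTop (𝓝 0) :=
    tendsto_one_div_add_atTop_nhds_zero_nat.comp hψ.tendsto_atTop
  have ha : a ∈ clarke f y := by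
    refine subset_closure (subset_convexHull ℝ _ ⟨z ∘ ψ, ?_, fun i => hzd _, hlim⟩)
    refine tendsto_iff_norm_sub_tendsto_zero.2 (squeeze_zero (fun _ => norm_nonneg _) ?_ h0)
    exact fun n => ((hz (ψ n)).trans_le (min_le_right _ _)).le
  have h1 : inner ℝ a e ≤ c / 2 := by
    refine le_of_tendsto' (hlim.inner tendsto_const_nhds) fun n => ?_
    simp only [Function.comp, gradient, InnerProductSpace.toDual_symm_apply]
    exact (hzc _).le
  linarith [hsep a ha]

theorem clarke_norm_le (z : EuclideanSpace ℝ (Fin d)) : ‖(WithLp.ofLp z : V d)‖ ≤ ‖z‖ :=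
  (pi_norm_le_iff_of_nonneg (norm_nonneg _)).2 fun i => PiLp.norm_apply_le z i

theorem ctx_of_wdc (M : Set (EuclideanSpace ℝ (Fin d))) (hM : IsCompact M) (hw : IsWDC M) :
    ∃ (f φ : V d → ℝ) (L c R : ℝ) (U : Set (V d)), Ctx f φ L ∧ 0 < c ∧ 0 ≤ R ∧ IsOpen U ∧
      (∀ x : V d, WithLp.toLp 2 x ∈ M → x ∈ U ∧ f x = 0 ∧ ‖x‖ < R) ∧
      (∀ x ∈ U, f x = 0 → WithLp.toLp 2 x ∈ M) ∧
      ∀ y ∈ U, 0 < f y → Desc f Finset.univ c y := by
  obtain ⟨f, ⟨g, h, hg, hh, hgh⟩, hf⟩ := hw
  obtain ⟨c, hc, hreg⟩ := uniform_reg f M hM hf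
  obtain ⟨R, hR0, hR⟩ := hM.isBounded.subset_ball_lt 0 0
  have hcv : ∀ k : EuclideanSpace ℝ (Fin d) → ℝ, ConvexOn ℝ univ k →
      ConvexOn ℝ univ fun x : V d => k (WithLp.toLp 2 x) := fun k hk =>
    ⟨convex_univ, fun x _ y _ a b ha hb hab => by
      simpa using hk.2 (mem_univ (WithLp.toLp 2 x)) (mem_univ (WithLp.toLp 2 y)) ha hb hab⟩
  obtain ⟨g', Lg, hLg, hg'c, hg'l, hg'e⟩ := lip_ext (hcv g hg) (R + 1) (by linarith)
  obtain ⟨h', Lh, hLh, hh'c, hh'l, hh'e⟩ := lip_ext (hcv h hh) (R + 1) (by linarith)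
  have hmax : ∀ x y, |max (g' x) (h' x) - max (g' y) (h' y)| ≤ (Lg + Lh) * ‖x - y‖ := by
    intro x y
    refine (abs_max_sub_max_le_max _ _ _ _).trans (max_le ?_ ?_)
    · exact (hg'l x y).trans (mul_le_mul_of_nonneg_right (by linarith) (norm_nonneg _))
    · exact (hh'l x y).trans (mul_le_mul_of_nonneg_right (by linarith) (norm_nonneg _))
  have hmc : ConvexOn ℝ univ fun x => max (g' x) (h' x) := hg'c.sup hh'c
  have heq : ∀ x : V d, ‖x‖ ≤ R + 1 → max (g' x) (h' x) - h' x = f (WithLp.toLp 2 x) := by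
    intro x hx
    have h1 := hf.2.1 (WithLp.toLp 2 x)
    rw [hgh _ (mem_univ _)] at h1 ⊢
    rw [hg'e x hx, hh'e x hx, max_eq_left (by linarith)]
  have hlip : ∀ x y, |max (g' x) (h' x) - h' x - (max (g' y) (h' y) - h' y)| ≤
      (1 + Lg + 2 * Lh) * ‖x - y‖ := by
    intro x y
    have h1 := abs_le.1 (hmax x y)
    have h2 := abs_le.1 (hh'l x y)
    have h3 := norm_nonneg (x - y)
    exact abs_le.2 ⟨by linarith [h1.1, h2.2], by linarith [h1.2, h2.1]⟩
  refine ⟨fun x => max (g' x) (h' x) - h' x, fun x => max (g' x) (h' x) + h' x, 1 + Lg + 2 * Lh,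
    c / 2, R, {x | ‖x‖ < R + 1} ∩ WithLp.toLp 2 ⁻¹' Metric.thickening c M,
    ⟨by linarith, fun x => sub_nonneg.2 (le_max_right _ _), hlip, fun x y => ?_, ?_, ?_⟩,
    half_pos hc, hR0.le, ?_, fun x hx => ?_, fun x hx h0 => ?_, fun y hy h0 => ?_⟩
  · have h1 := abs_le.1 (hmax x y)
    have h2 := abs_le.1 (hh'l x y)
    have h3 := norm_nonneg (x - y)
    exact abs_le.2 ⟨by linarith [h1.1, h2.1], by linarith [h1.2, h2.2]⟩
  · refine (hmc.add hmc).congr fun x _ => ?_
    simp only [Pi.add_apply]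
    ring
  · refine (hh'c.add hh'c).congr fun x _ => ?_
    simp only [Pi.add_apply]
    ring
  · exact (isOpen_lt continuous_norm continuous_const).inter
      (Metric.isOpen_thickening.preimage (PiLp.continuous_toLp 2 _))
  · have h1 : ‖x‖ < R := (clarke_norm_le (WithLp.toLp 2 x)).trans_lt (mem_ball_zero_iff.1 (hR hx))
    refine ⟨⟨show ‖x‖ < R + 1 by linarith, Metric.self_subset_thickening hc M hx⟩, ?_, h1⟩
    show max (g' x) (h' x) - h' x = 0
    rw [heq x (by linarith)]
    rw [hf.2.2.1] at hx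
    exact hx
  · have h1 : ‖x‖ < R + 1 := hx.1
    have h2 : max (g' x) (h' x) - h' x = 0 := h0
    rw [heq x h1.le] at h2
    rw [hf.2.2.1]
    exact h2
  · have h1 : ‖y‖ < R + 1 := hy.1
    have h2 : 0 < max (g' y) (h' y) - h' y := h0
    rw [heq y h1.le] at h2
    obtain ⟨e, δ₁, hδ₁, he, hd⟩ := dir_of_clarke f hf.1 (WithLp.toLp 2 y) c hc (hreg _ hy.2 h2)
    let F : EuclideanSpace ℝ (Fin d) → ℝ := fun z =>
      max (g' (WithLp.ofLp z)) (h' (WithLp.ofLp z)) - h' (WithLp.ofLp z)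
    have hF : LipschitzWith ⟨1 + Lg + 2 * Lh, by linarith⟩ F := by
      refine LipschitzWith.of_dist_le_mul fun z w => ?_
      rw [Real.dist_eq, dist_eq_norm]
      refine (hlip _ _).trans (mul_le_mul_of_nonneg_left ?_ (by linarith))
      exact clarke_norm_le (z - w)
    set δ₂ := min δ₁ (R + 1 - ‖y‖) / 3 with hδ₂
    have hδ₂0 : 0 < δ₂ := by
      have := lt_min hδ₁ (sub_pos.2 h1)
      positivity
    have hd' : ∀ z, ‖z - WithLp.toLp 2 y‖ < 3 * δ₂ → DifferentiableAt ℝ F z →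
        c / 2 ≤ fderiv ℝ F z e := by
      intro z hz hzd
      have h3 : ‖z - WithLp.toLp 2 y‖ < min δ₁ (R + 1 - ‖y‖) := by linarith
      have h4 : ‖(WithLp.ofLp z : V d)‖ < R + 1 := by
        have h5 : ‖(WithLp.ofLp z : V d) - y‖ ≤ ‖z - WithLp.toLp 2 y‖ :=
          clarke_norm_le (z - WithLp.toLp 2 y)
        have h6 := h3.trans_le (min_le_right _ _)
        have h7 := norm_le_norm_add_norm_sub' (WithLp.ofLp z : V d) y
        linarith
      have h8 : F =ᶠ[𝓝 z] f := by
        have h9 : ∀ᶠ w in 𝓝 z, ‖(WithLp.ofLp w : V d)‖ < R + 1 :=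
          (isOpen_lt (PiLp.continuous_ofLp 2 _).norm continuous_const).mem_nhds h4
        filter_upwards [h9] with w hw using heq _ hw.le
      rw [h8.fderiv_eq]
      exact hd z (h3.trans_le (min_le_left _ _)) (h8.differentiableAt_iff.1 hzd)
    obtain ⟨δ₃, hδ₃, h3⟩ := Metric.continuousAt_iff.1
      ((PiLp.continuous_toLp 2 (fun _ : Fin d => ℝ)).continuousAt (x := y)) δ₂ hδ₂0
    refine ⟨WithLp.ofLp e, min δ₂ (δ₃ / 2), lt_min hδ₂0 (half_pos hδ₃),
      fun j hj => absurd (Finset.mem_univ j) hj, (clarke_norm_le e).trans he,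
      fun z s _ hz hs0 hs => ?_⟩
    have h4 : ‖WithLp.toLp 2 z - WithLp.toLp 2 y‖ ≤ δ₂ := by
      rw [← dist_eq_norm]
      refine (h3 ?_).le
      rw [dist_eq_norm]
      exact (hz.trans (min_le_right _ _)).trans_lt (half_lt_self hδ₃)
    exact descent_of_ae F _ hF (WithLp.toLp 2 y) e (c / 2) δ₂ he hd' (WithLp.toLp 2 z) s h4 hs0
      (hs.trans (min_le_left _ _))

end Pool.Agent.MP_b8fe60_gt

end

-- part MP_b8fe60_gt.Conv
section

/-! From internal local graphs to DC manifolds. -/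

namespace Pool.Agent.MP_b8fe60_gt

open Set

variable {d : ℕ}

theorem conv_dc {X : Type} [AddCommGroup X] [Module ℝ X] (C : Set X) (hC : Convex ℝ C)
    (ι : X →ₗ[ℝ] V d) (l : V d →L[ℝ] ℝ) (σ : V d → V d) (hσ : DCV σ) :
    IsDCOn C (fun x => l (σ (ι x)) - l (ι x)) := by
  obtain ⟨K, Φ, -, -, -, h⟩ := hσ
  refine ⟨fun x => ‖l‖ * Φ (ι x) + (l (σ (ι x)) - l (ι x)), fun x => ‖l‖ * Φ (ι x),
    ⟨hC, fun x _ y _ a b ha hb hab => ?_⟩, ⟨hC, fun x _ y _ a b ha hb hab => ?_⟩,
    fun x _ => by ring⟩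
  · have h1 := mul_le_mul_of_nonneg_left (h (ι x) (ι y) a b ha hb hab) (norm_nonneg l)
    have h2 := (abs_le.1 (l.le_opNorm (a • σ (ι x) + b • σ (ι y) - σ (a • ι x + b • ι y)))).1
    simp only [map_add, map_sub, map_smul, smul_eq_mul] at h2 ⊢
    linarith
  · have h1 := mul_le_mul_of_nonneg_left
      ((norm_nonneg _).trans (h (ι x) (ι y) a b ha hb hab)) (norm_nonneg l)
    simp only [map_add, map_smul, smul_eq_mul]
    linarith

/-- the coordinate subspace -/
def convW (J : Finset (Fin d)) : Submodule ℝ (EuclideanSpace ℝ (Fin d)) where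
  carrier := {x | ∀ j, j ∉ J → x j = 0}
  add_mem' := fun hx hy j hj => by simp [hx j hj, hy j hj]
  zero_mem' := fun _ _ => rfl
  smul_mem' := fun t x hx j hj => by simp [hx j hj]

theorem conv_finrank (J : Finset (Fin d)) : Module.finrank ℝ (convW J) = J.card := by
  let e : convW J ≃ₗ[ℝ] (J → ℝ) :=
    { toFun := fun x j => x.1 j
      map_add' := fun _ _ => rfl
      map_smul' := fun _ _ => rfl
      invFun := fun y => ⟨WithLp.toLp 2 fun j => if h : j ∈ J then y ⟨j, h⟩ else 0,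
        fun j hj => by simp [hj]⟩
      left_inv := fun x => by
        ext j
        by_cases h : j ∈ J
        · simp [h]
        · simp [h, x.2 j h]
      right_inv := fun y => by
        ext j
        simp [j.2] }
  rw [e.finrank_eq]
  simp

theorem conv_perp (J : Finset (Fin d)) (x : EuclideanSpace ℝ (Fin d)) (hx : ∀ j ∈ J, x j = 0) :
    x ∈ (convW J)ᗮ := by
  rw [Submodule.mem_orthogonal]
  intro u hu
  rw [PiLp.inner_apply]
  refine Finset.sum_eq_zero fun j _ => ?_
  by_cases h : j ∈ J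
  · simp [hx j h]
  · simp [hu j h]

theorem conv_cont {σ : V d → V d} (hσ : DCV σ) : Continuous σ := by
  obtain ⟨K, Φ, hK, h, -⟩ := hσ
  exact (LipschitzWith.of_dist_le_mul (K := ⟨K, hK⟩) fun x y => by
    rw [dist_eq_norm, dist_eq_norm]; exact h x y).continuous

theorem conv_prj_cont (J : Finset (Fin d)) : Continuous (prj J) := by
  refine continuous_pi fun j => ?_
  unfold prj
  split_ifs
  · exact continuous_apply j
  · exact continuous_const

theorem man_isDC (J : Finset (Fin d)) (T : Set (V d)) (hT : Man J T) (hne : T.Nonempty) :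
    IsDCManifold J.card {x : EuclideanSpace ℝ (Fin d) | WithLp.ofLp x ∈ T} := by
  have hof : Continuous (WithLp.ofLp : EuclideanSpace ℝ (Fin d) → V d) := PiLp.continuous_ofLp 2 _
  have hball : ∀ (a : V d) (ε : ℝ),
      IsOpen {x : EuclideanSpace ℝ (Fin d) | ‖WithLp.ofLp x - a‖ < ε} := fun a ε =>
    isOpen_lt (by fun_prop) continuous_const
  refine ⟨?_, fun hJ => ?_, fun hJ a ha => ?_, fun _ _ a ha => ?_⟩
  · obtain ⟨a, ha⟩ := hne
    exact ⟨WithLp.toLp 2 a, ha⟩
  · have hJ' : J = Finset.univ := Finset.eq_univ_of_card J (by simpa using hJ)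
    refine isOpen_iff_forall_mem_open.2 fun a ha => ?_
    obtain ⟨σ, -, h1, ε, hε, h2⟩ := hT _ ha
    refine ⟨_, fun y hy => ?_, hball (WithLp.ofLp a) ε, by simpa using hε⟩
    refine (h2 _ hy).2 (funext fun j => ?_)
    rw [h1 _ j (hJ' ▸ Finset.mem_univ j)]
    simp [prj, hJ']
  · have hJ' : J = ∅ := Finset.card_eq_zero.1 hJ
    obtain ⟨σ, -, -, ε, hε, h2⟩ := hT _ ha
    have h3 : ∀ y : V d, prj J y = 0 := fun y => funext fun j => by simp [prj, hJ']
    have h4 := (h2 _ (by simpa using hε)).1 ha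
    refine ⟨_, hball (WithLp.ofLp a) ε, Set.eq_singleton_iff_unique_mem.2
      ⟨⟨ha, by simpa using hε⟩, fun y hy => ?_⟩⟩
    have h5 := (h2 _ hy.2).1 hy.1
    rw [h3] at h4 h5
    exact WithLp.ofLp_injective 2 (h5.trans h4.symm)
  · obtain ⟨σ, hσ, h1, ε, hε, h2⟩ := hT _ ha
    have h4 := (h2 _ (by simpa using hε)).1 ha
    let π : EuclideanSpace ℝ (Fin d) → convW J := fun y =>
      ⟨WithLp.toLp 2 (prj J (WithLp.ofLp y)), fun j hj => inE_prj J _ j hj⟩
    have hπ : Continuous π :=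
      ((PiLp.continuous_toLp 2 _).comp ((conv_prj_cont J).comp hof)).subtype_mk _
    let φ : convW J → (convW J)ᗮ := fun w =>
      ⟨WithLp.toLp 2 (σ (WithLp.ofLp w.1)) - w.1, conv_perp J _ fun j hj => by simp [h1 _ j hj]⟩
    have hφ : ∀ w : convW J, w.1 + (φ w).1 = WithLp.toLp 2 (σ (WithLp.ofLp w.1)) := fun w => by
      simp [φ]
    have hπφ : ∀ w : convW J, prj J (σ (WithLp.ofLp w.1)) = WithLp.ofLp w.1 := fun w =>
      funext fun j => by
        by_cases h : j ∈ J
        · simp [prj, h, h1 _ j h]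
        · simp [prj, h, w.2 j h]
    have hc : Continuous fun w : convW J => ‖σ (WithLp.ofLp w.1) - WithLp.ofLp a‖ :=
      (((conv_cont hσ).comp (hof.comp continuous_subtype_val)).sub continuous_const).norm
    obtain ⟨r, hr, hr'⟩ := Metric.isOpen_iff.1 (isOpen_lt hc (continuous_const (y := ε))) (π a)
      (by
        change ‖σ (prj J (WithLp.ofLp a)) - WithLp.ofLp a‖ < ε
        rw [← h4]
        simpa using hε)
    refine ⟨(fun w : convW J => w.1 + (φ w).1) '' Metric.ball (π a) r,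
      ⟨convW J, π a, r, φ, conv_finrank J, hr, fun l => ?_, rfl⟩,
      ⟨π a, Metric.mem_ball_self hr, ?_⟩,
      {x | ‖WithLp.ofLp x - WithLp.ofLp a‖ < ε} ∩ π ⁻¹' Metric.ball (π a) r,
      (hball _ _).inter (Metric.isOpen_ball.preimage hπ), ?_⟩
    · obtain ⟨g, hg⟩ := LinearMap.exists_extend l
      have h5 := conv_dc (Metric.ball (π a) r) (convex_ball _ _)
        ((WithLp.linearEquiv 2 ℝ (V d)).toLinearMap.comp (convW J).subtype)
        (LinearMap.toContinuousLinearMap (g.comp (WithLp.linearEquiv 2 ℝ (V d)).symm.toLinearMap))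
        σ hσ
      obtain ⟨u, v, hu, hv, h6⟩ := h5
      refine ⟨u, v, hu, hv, fun x hx => ?_⟩
      rw [← h6 x hx, ← hg]
      exact map_sub g _ _
    · beta_reduce
      rw [hφ]
      change WithLp.toLp 2 (σ (prj J (WithLp.ofLp a))) = a
      rw [← h4]
    · ext y
      constructor
      · rintro ⟨w, hw, rfl⟩
        beta_reduce
        rw [hφ]
        have h5 : ‖σ (WithLp.ofLp w.1) - WithLp.ofLp a‖ < ε := hr' hw
        refine ⟨(h2 _ h5).2 (by rw [hπφ]), h5, ?_⟩
        have h6 : π (WithLp.toLp 2 (σ (WithLp.ofLp w.1))) = w :=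
          Subtype.ext (congrArg (WithLp.toLp 2) (hπφ w))
        rw [mem_preimage, h6]
        exact hw
      · rintro ⟨h5, h6, h7⟩
        refine ⟨π y, h7, ?_⟩
        beta_reduce
        rw [hφ]
        change WithLp.toLp 2 (σ (prj J (WithLp.ofLp y))) = y
        rw [← (h2 _ h6).1 h5]

theorem of_decomp (M : Set (EuclideanSpace ℝ (Fin d)))
    (h : Decomp {x : V d | WithLp.toLp 2 x ∈ M}) :
    ∃ (m : ℕ) (T : Fin m → Set (EuclideanSpace ℝ (Fin d))) (k : Fin m → ℕ),
      (∀ i, k i ≤ d ∧ IsDCManifold (k i) (T i)) ∧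
        (∀ i j, i ≠ j → Disjoint (T i) (T j)) ∧ M = ⋃ i, T i := by
  classical
  obtain ⟨𝒯, hfin, hman, hdis, hun⟩ := h
  have hf : (𝒯 ∩ {T | T.Nonempty}).Finite := hfin.inter_of_left _
  let e := hf.toFinset.equivFin
  have hmem : ∀ i, (e.symm i).1 ∈ 𝒯 ∧ (e.symm i).1.Nonempty := fun i =>
    hf.mem_toFinset.1 (e.symm i).2
  choose J hJ using fun i => hman _ (hmem i).1
  refine ⟨_, fun i => {x | WithLp.ofLp x ∈ (e.symm i).1}, fun i => (J i).card,
    fun i => ⟨by simpa using (J i).card_le_univ, man_isDC _ _ (hJ i) (hmem i).2⟩,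
    fun i j hij => ?_, ?_⟩
  · have h1 : (e.symm i).1 ≠ (e.symm j).1 := fun h => hij (e.symm.injective (Subtype.ext h))
    exact (hdis (hmem i).1 (hmem j).1 h1).preimage WithLp.ofLp
  · ext x
    have h1 : x ∈ M ↔ WithLp.ofLp x ∈ ⋃₀ 𝒯 := by rw [hun]; rfl
    rw [h1, mem_iUnion, mem_sUnion]
    constructor
    · rintro ⟨T, hT, hx⟩
      refine ⟨e ⟨T, hf.mem_toFinset.2 ⟨hT, ⟨_, hx⟩⟩⟩, ?_⟩
      simpa using hx
    · rintro ⟨i, hi⟩
      exact ⟨_, (hmem i).1, hi⟩

end Pool.Agent.MP_b8fe60_gt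

end
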