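import Pool.Agent.MP_b8fe60_gt.Mg.Elim

-- part MP_b8fe60_gt.Retr
section

/-! The DC retraction along the fibres. -/

namespace Pool.Agent.MP_b8fe60_gt

open Set

variable {d : ℕ} {f φ : V d → ℝ} {L : ℝ}

/-- the properties of the boxes that contain the minimisers -/
structure Boxes (φ : V d → ℝ) (R : ℝ) (I : Finset (Fin d)) (η : ℝ)
    (lo hi : V d → Fin d → V d → ℝ) : Prop where
  dlo : ∀ a i, DCV (lo a i)
  dhi : ∀ a i, DCV (hi a i)
  inv : ∀ a i y y', InE I (y' - y) → lo a i y' = lo a i y ∧ hi a i y' = hi a i y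
  ex : ∀ a y, ∃ v, IsMz φ R I a y v
  mem : ∀ a y v, ∀ i ∈ I, IsMz φ R I a y v → lo a i y ≤ v i ∧ v i ≤ hi a i y
  hi_le : ∀ a y v, ∀ i ∈ I, IsMz φ R I (a + Pi.single i η) y v → hi a i y ≤ v i
  le_lo : ∀ a y v, ∀ i ∈ I, IsMz φ R I (a - Pi.single i η) y v → v i ≤ lo a i y

theorem boxes_exists (h : Ctx f φ L) (R : ℝ) (hR : 0 ≤ R) (I : Finset (Fin d)) (η : ℝ)
    (hη : 0 < η) : ∃ lo hi, Boxes φ R I η lo hi := by
  obtain ⟨lo, hi, h1, h2, h3, h4, h5, h6, h7⟩ := exists_boxes h R hR I η hη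
  exact ⟨lo, hi, h1, h2, h3, h4, h5, h6, h7⟩

/-- the box of the slope `a` lies in the fibre ball of radius `r` around `x` -/
def InBox (I : Finset (Fin d)) (lo hi : V d → Fin d → V d → ℝ) (a x : V d) (r : ℝ) : Prop :=
  ∀ i ∈ I, x i - r ≤ lo a i x ∧ hi a i x ≤ x i + r

theorem retr_coord (x y : V d) (i : Fin d) : |x i - y i| ≤ ‖x - y‖ := by
  simpa using norm_le_pi_norm (x - y) i

theorem InBox.mono {R η : ℝ} {I : Finset (Fin d)} {lo hi : V d → Fin d → V d → ℝ}
    (hb : Boxes φ R I η lo hi) {a x x' : V d} {r r' : ℝ} (h : InBox I lo hi a x' r')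
    (hx : InE I (x' - x)) (hr : ‖x' - x‖ + r' ≤ r) : InBox I lo hi a x r := by
  intro i hi'
  obtain ⟨h1, h2⟩ := h i hi'
  obtain ⟨e1, e2⟩ := hb.inv a i x x' hx
  have := abs_le.1 (retr_coord x' x i)
  rw [e1] at h1
  rw [e2] at h2
  constructor <;> linarith [this.1, this.2]

theorem retr_dot (u z : V d) : |u ⬝ᵥ z| ≤ d * ‖u‖ * ‖z‖ := by
  calc |u ⬝ᵥ z| ≤ ∑ i, |u i * z i| := Finset.abs_sum_le_sum_abs _ _
    _ ≤ ∑ _i : Fin d, ‖u‖ * ‖z‖ := Finset.sum_le_sum (fun i _ => by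
        rw [abs_mul]
        exact mul_le_mul (norm_le_pi_norm u i) (norm_le_pi_norm z i) (abs_nonneg _)
          (norm_nonneg _))
    _ = d * ‖u‖ * ‖z‖ := by simp [mul_assoc]

theorem retr_fat (h : Ctx f φ L) (R : ℝ) (I : Finset (Fin d)) (η ε : ℝ) (hη : 0 < η) (hε : 0 < ε)
    (hε1 : ε ≤ 1) :
    ∃ g δ : ℝ, 0 < g ∧ 0 < δ ∧ ∀ (lo hi : V d → Fin d → V d → ℝ) (G : Finset (V d)),
      Boxes φ R I g lo hi → (∀ a ∈ G, InE I a) →
      (∀ u, InE I u → ‖u‖ ≤ L → ∃ a ∈ G, ‖a - u‖ ≤ g) →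
      ∀ (x n : V d) (ω : ℝ), (∀ i ∈ I, |x i| ≤ R) →
        (∀ t, InE I t → ‖t‖ ≤ η → n + t ∈ AS φ I x ω) → ∀ u ∈ AS φ I x ω,
          ∃ a ∈ G, (∀ z, InE I z → |(u - a) ⬝ᵥ z| ≤ ε * ‖z‖) ∧ InBox I lo hi a x (ω / δ) := by
  have hL1 := h.one_le
  have hL : 0 < L := lt_of_lt_of_le one_pos h.one_le
  have hd0 : (0 : ℝ) ≤ d := Nat.cast_nonneg d
  obtain ⟨θ, hθ⟩ : ∃ θ, θ = ε / (4 * L) := ⟨_, rfl⟩
  have hθ0 : 0 < θ := by rw [hθ]; positivity
  have hθe : θ * (4 * L) = ε := by rw [hθ]; field_simp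
  have hθ1 : θ ≤ 1 := by nlinarith
  obtain ⟨g, hg⟩ : ∃ g, g = min (ε / (2 * (d + 1))) (θ * η / 4) := ⟨_, rfl⟩
  have hg0 : 0 < g := by rw [hg]; positivity
  have hg1 : g * (2 * (d + 1)) ≤ ε := by
    rw [← le_div_iff₀ (by positivity), hg]; exact min_le_left _ _
  have hg2 : g ≤ θ * η / 4 := by rw [hg]; exact min_le_right _ _
  refine ⟨g, θ * η / 2, hg0, by positivity, ?_⟩
  intro lo hi G hb hGI hG x n ω hx hn u hu
  have hn0 : n ∈ AS φ I x ω := by simpa using hn 0 (InE.zero I) (by simpa using hη.le)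
  have hcv := AS.convex φ I x ω
  obtain ⟨w, hw⟩ : ∃ w, w = (1 - θ) • u + θ • n := ⟨_, rfl⟩
  have hwK : w ∈ AS φ I x ω := hw ▸ hcv hu hn0 (by linarith) hθ0.le (by ring)
  obtain ⟨a, haG, ha⟩ := hG w hwK.1 (AS.norm_le h hwK)
  have hcube : ∀ t, InE I t → ‖t‖ ≤ θ * η - g → a + t ∈ AS φ I x ω := by
    intro t ht htn
    have h1 : n + θ⁻¹ • (a - w + t) ∈ AS φ I x ω := by
      refine hn _ ((((hGI a haG).sub hwK.1).add ht).smul _) ?_
      rw [norm_smul, norm_inv, Real.norm_eq_abs, abs_of_pos hθ0, inv_mul_le_iff₀ hθ0]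
      linarith [norm_add_le (a - w) t]
    have h2 := hcv hu h1 (show 0 ≤ 1 - θ by linarith) hθ0.le (by ring)
    have e : (1 - θ) • u + θ • (n + θ⁻¹ • (a - w + t)) = a + t := by
      rw [smul_add θ n, smul_smul, mul_inv_cancel₀ hθ0.ne', one_smul, hw]
      abel
    rwa [e] at h2
  have hsn : ∀ i : Fin d, ‖(Pi.single i g : V d)‖ ≤ g := fun i => by
    rw [Pi.norm_single, Real.norm_eq_abs, abs_of_pos hg0]
  refine ⟨a, haG, fun z hz => ?_, fun i hi' => ?_⟩
  · have e : (u - a) ⬝ᵥ z = θ * (u ⬝ᵥ z) - θ * (n ⬝ᵥ z) - (a - w) ⬝ᵥ z := by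
      rw [hw]
      simp only [sub_dotProduct, add_dotProduct, smul_dotProduct, smul_eq_mul]
      ring
    have h1 := abs_le.1 (AS.dot_le h hu hz)
    have h2 := abs_le.1 (AS.dot_le h hn0 hz)
    have h3 := abs_le.1 ((retr_dot (a - w) z).trans
      (mul_le_mul_of_nonneg_right (mul_le_mul_of_nonneg_left ha hd0) (norm_nonneg z)))
    have h4 : d * g * ‖z‖ ≤ ε / 2 * ‖z‖ :=
      mul_le_mul_of_nonneg_right (by nlinarith) (norm_nonneg z)
    have h5 : θ * (L * ‖z‖) = ε / 4 * ‖z‖ := by rw [← hθe]; ring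
    have h6 := mul_le_mul_of_nonneg_left h1.1 hθ0.le
    have h7 := mul_le_mul_of_nonneg_left h1.2 hθ0.le
    have h8 := mul_le_mul_of_nonneg_left h2.1 hθ0.le
    have h9 := mul_le_mul_of_nonneg_left h2.2 hθ0.le
    rw [e, abs_le]
    constructor <;> linarith [h3.1, h3.2]
  · have hδ : 0 < θ * η / 2 := by positivity
    obtain ⟨v, hv⟩ := hb.ex (a + Pi.single i g) x
    obtain ⟨v', hv'⟩ := hb.ex (a - Pi.single i g) x
    have h1 := mz_near hx hδ (fun t ht htn => by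
      rw [add_assoc]
      exact hcube _ ((inE_single hi' g).add ht)
        (by linarith [norm_add_le (Pi.single i g : V d) t, hsn i])) hv
    have h2 := mz_near hx hδ (fun t ht htn => by
      have e : a - Pi.single i g + t = a + (t - Pi.single i g) := by abel
      rw [e]
      exact hcube _ (ht.sub (inE_single hi' g))
        (by linarith [norm_sub_le t (Pi.single i g : V d), hsn i])) hv'
    rw [mul_comm, ← le_div_iff₀ hδ] at h1 h2
    have h3 := abs_le.1 (retr_coord v x i)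
    have h4 := abs_le.1 (retr_coord v' x i)
    have h5 := hb.hi_le a x v i hi' hv
    have h6 := hb.le_lo a x v' i hi' hv'
    constructor <;> linarith [h3.2, h4.1]

theorem retr_centre {R η : ℝ} {I : Finset (Fin d)} (hI : I.Nonempty)
    {lo hi : V d → Fin d → V d → ℝ} (hb : Boxes φ R I η lo hi) (A : Finset (V d))
    (hA : A.Nonempty) :
    ∃ (p : V d → V d) (rA : V d → ℝ), DCV p ∧ DCV rA ∧ (∀ y, InE I (p y - y)) ∧
      (∀ y, 0 ≤ rA y) ∧ (∀ y y', InE I (y' - y) → p y' = p y ∧ rA y' = rA y) ∧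
      (∀ y, ∀ a ∈ A, ∀ v, IsMz φ R I a y v → ‖v - p y‖ ≤ rA y) ∧
      ∀ (x : V d) (r : ℝ), (∀ a ∈ A, InBox I lo hi a x r) → ‖p x - x‖ ≤ r ∧ rA x ≤ r := by
  obtain ⟨LO, hLO⟩ : ∃ LO : Fin d → V d → ℝ, ∀ i y, LO i y = A.inf' hA (fun a => lo a i y) :=
    ⟨_, fun _ _ => rfl⟩
  obtain ⟨HI, hHI⟩ : ∃ HI : Fin d → V d → ℝ, ∀ i y, HI i y = A.sup' hA (fun a => hi a i y) :=
    ⟨_, fun _ _ => rfl⟩
  have dLO : ∀ i, DCV (LO i) := fun i => by
    rw [show LO i = _ from funext (hLO i)]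
    exact DCV.inf' A hA (fun a _ => hb.dlo a i)
  have dHI : ∀ i, DCV (HI i) := fun i => by
    rw [show HI i = _ from funext (hHI i)]
    exact DCV.sup' A hA (fun a _ => hb.dhi a i)
  have hle : ∀ y, ∀ a ∈ A, ∀ v, IsMz φ R I a y v → ∀ i ∈ I, LO i y ≤ v i ∧ v i ≤ HI i y := by
    intro y a ha v hv i hi'
    obtain ⟨h1, h2⟩ := hb.mem a y v i hi' hv
    rw [hLO, hHI]
    exact ⟨(Finset.inf'_le (fun a => lo a i y) ha).trans h1,
      h2.trans (Finset.le_sup' (fun a => hi a i y) ha)⟩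
  have hr : ∀ y, ∀ i ∈ I, (HI i y - LO i y) / 2 ≤ I.sup' hI (fun i => (HI i y - LO i y) / 2) :=
    fun y i hi' => Finset.le_sup' (fun i => (HI i y - LO i y) / 2) hi'
  have hr0 : ∀ y, 0 ≤ I.sup' hI (fun i => (HI i y - LO i y) / 2) := by
    intro y
    obtain ⟨a, ha⟩ := hA
    obtain ⟨i, hi'⟩ := hI
    obtain ⟨v, hv⟩ := hb.ex a y
    obtain ⟨h1, h2⟩ := hle y a ha v hv i hi'
    linarith [hr y i hi']
  refine ⟨fun y j => if j ∈ I then (LO j y + HI j y) / 2 else y j,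
    fun y => I.sup' hI (fun i => (HI i y - LO i y) / 2), ?_, ?_, ?_, hr0, ?_, ?_, ?_⟩
  · refine DCV.pi (fun j => ?_)
    by_cases hj : j ∈ I
    · simp only [hj, if_true]
      exact ((dLO j).add (dHI j)).div_const 2
    · simp only [hj, if_false]
      exact DCV.id.apply j
  · exact DCV.sup' I hI (fun i _ => ((dHI i).sub (dLO i)).div_const 2)
  · intro y j hj
    simp [hj]
  · intro y y' hy
    have e1 : ∀ i, LO i y' = LO i y := fun i => by
      rw [hLO, hLO]
      exact Finset.inf'_congr hA rfl (fun a _ => (hb.inv a i y y' hy).1)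
    have e2 : ∀ i, HI i y' = HI i y := fun i => by
      rw [hHI, hHI]
      exact Finset.sup'_congr hA rfl (fun a _ => (hb.inv a i y y' hy).2)
    constructor
    · funext j
      by_cases hj : j ∈ I
      · simp only [hj, if_true, e1, e2]
      · simp only [hj, if_false]
        exact sub_eq_zero.1 (hy j hj)
    · simp only [e1, e2]
  · intro y a ha v hv
    rw [pi_norm_le_iff_of_nonneg (hr0 y)]
    intro j
    by_cases hj : j ∈ I
    · obtain ⟨h1, h2⟩ := hle y a ha v hv j hj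
      have h3 := hr y j hj
      simp only [Pi.sub_apply, hj, if_true, Real.norm_eq_abs, abs_le]
      constructor <;> linarith
    · have := hv.1 j hj
      simp only [Pi.sub_apply, hj, if_false, Real.norm_eq_abs] at this ⊢
      rw [this, abs_zero]
      exact hr0 y
  · intro x r hx
    have h1 : ∀ i ∈ I, x i - r ≤ LO i x ∧ HI i x ≤ x i + r := fun i hi' => by
      rw [hLO, hHI]
      exact ⟨Finset.le_inf' _ _ (fun a ha => (hx a ha i hi').1),
        Finset.sup'_le _ _ (fun a ha => (hx a ha i hi').2)⟩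
    have h2 : I.sup' hI (fun i => (HI i x - LO i x) / 2) ≤ r :=
      Finset.sup'_le _ _ (fun i hi' => by linarith [(h1 i hi').1, (h1 i hi').2])
    refine ⟨?_, h2⟩
    rw [pi_norm_le_iff_of_nonneg ((hr0 x).trans h2)]
    intro j
    by_cases hj : j ∈ I
    · obtain ⟨a, ha⟩ := hA
      obtain ⟨v, hv⟩ := hb.ex a x
      obtain ⟨h3, h4⟩ := hle x a ha v hv j hj
      simp only [Pi.sub_apply, hj, if_true, Real.norm_eq_abs, abs_le]
      constructor <;> linarith [(h1 j hj).1, (h1 j hj).2]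
    · simp only [Pi.sub_apply, hj, if_false, sub_self, norm_zero]
      exact (hr0 x).trans h2

theorem retr_cone (h : Ctx f φ L) {R : ℝ} {I : Finset (Fin d)} {x q : V d} {ρ ρ₁ ε r : ℝ}
    (hε1 : ε ≤ 1) (hq : InE I (q - x)) (hρ : ‖q - x‖ + ρ ≤ ρ₁) (hR : ‖q‖ + ρ ≤ R)
    (hu : ∀ u ∈ AS φ I x (2 * L * ρ₁), ∃ a v, (∀ z, InE I z → |(u - a) ⬝ᵥ z| ≤ ε * ‖z‖) ∧
      IsMz φ R I a x v ∧ ‖v - q‖ ≤ r) : Cone φ I q ρ ε ((2 * L + 1) * r) := by
  intro z t hz hzn ht0 ht1
  have hL : 0 ≤ L := le_trans zero_le_one h.one_le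
  obtain ⟨u, hu0⟩ := AS.nonempty h I (q + z)
  have hqz : InE I (q + z - x) := by
    have e : q + z - x = (q - x) + z := by abel
    rw [e]; exact hq.add hz
  have hu1 : u ∈ AS φ I x (2 * L * ρ₁) := by
    refine AS.mono ?_ (AS.shift h hqz hu0)
    have e : q + z - x = (q - x) + z := by abel
    have : ‖q + z - x‖ ≤ ρ₁ := by rw [e]; linarith [norm_add_le (q - x) z]
    rw [zero_add]
    exact mul_le_mul_of_nonneg_left this (by positivity)
  obtain ⟨a, v, ha, hv, hvq⟩ := hu u hu1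
  have h1 := hu0.2 (-z) hz.neg
  rw [add_neg_cancel_right, dotProduct_neg] at h1
  have h2 := (abs_le.1 (ha z hz)).2
  rw [sub_dotProduct] at h2
  have htz : ‖t • z‖ ≤ ρ := by
    rw [norm_smul, Real.norm_eq_abs, abs_of_nonneg ht0]
    nlinarith [norm_nonneg z]
  have h3 := hv.2.2 (q + t • z) (by
      have e : q + t • z - x = (q - x) + t • z := by abel
      rw [e]; exact hq.add (hz.smul t))
    (fun i _ => by
      have := norm_le_pi_norm (q + t • z) i
      rw [Real.norm_eq_abs] at this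
      linarith [norm_add_le q (t • z)])
  rw [dotProduct_add, dotProduct_smul, smul_eq_mul] at h3
  have hvI : InE I (v - q) := hv.1.trans hq.symm
  have h4 := (abs_le.1 (ha _ hvI)).1
  have h5 := (abs_le.1 (AS.dot_le h hu1 hvI)).2
  rw [sub_dotProduct, dotProduct_sub a] at h4
  have h6 := (abs_le.1 (h.lipφ v q)).1
  have h7 : ε * ‖v - q‖ ≤ 1 * ‖v - q‖ := mul_le_mul_of_nonneg_right hε1 (norm_nonneg _)
  have h8 : L * ‖v - q‖ ≤ L * r := mul_le_mul_of_nonneg_left hvq hL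
  have h9 : t * (φ (q + z) - φ q) ≤ t * (a ⬝ᵥ z + ε * ‖z‖) :=
    mul_le_mul_of_nonneg_left (by linarith) ht0
  nlinarith

theorem retr_base (h : Ctx f φ L) (R : ℝ) (I : Finset (Fin d)) (c : ℝ)
    (ih : ∀ l ∈ I, ∃ K T, Adm f (I.erase l) K T ∧
      ∀ x, Hyp f R (I.erase l) (I.erase l) c x (K * f x) → f (T x) = 0) :
    ∃ K₀ K T, 0 ≤ K₀ ∧ Adm f I K T ∧
      ∀ x, (∃ l ∈ I, Hyp f R I (I.erase l) c x (K₀ * f x)) → f (T x) = 0 := by
  have hL : 0 ≤ L := le_trans zero_le_one h.one_le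
  choose! K T hT using ih
  obtain ⟨K', S, hS, hSp⟩ := seq_ball h I I T
    (fun l hl => ⟨K l, (hT l hl).1.mono h.nonneg (Finset.erase_subset l I) le_rfl⟩)
  have hK' := hS.1
  have hsum : 0 ≤ ∑ l ∈ I, K l := Finset.sum_nonneg (fun l hl => (hT l hl).1.1)
  refine ⟨K' + (∑ l ∈ I, K l) * (1 + L * K'), K', S, by positivity, hS, ?_⟩
  rintro x ⟨l, hl, hH⟩
  refine hSp x l hl (fun y hy hyn => (hT l hl).2 y ((hH.sub hy ?_).fibre (Finset.erase_subset l I)))
  have h1 : K l ≤ ∑ l ∈ I, K l := Finset.single_le_sum (fun l hl => (hT l hl).1.1) hl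
  have h2 : f y ≤ (1 + L * K') * f x := by
    have := h.f_le y x
    have := mul_le_mul_of_nonneg_left hyn hL
    linarith
  have h3 : K l * f y ≤ (∑ l ∈ I, K l) * ((1 + L * K') * f x) :=
    mul_le_mul h1 h2 (h.nonneg y) hsum
  linarith

theorem retr_step (h : Ctx f φ L) (R : ℝ) (hR : 0 ≤ R) (I : Finset (Fin d)) (hI : I.Nonempty)
    (c : ℝ) (hc : 0 < c)
    (ih : ∀ l ∈ I, ∀ c', 0 < c' → ∃ K T, Adm f (I.erase l) K T ∧
      ∀ x, Hyp f R (I.erase l) (I.erase l) c' x (K * f x) → f (T x) = 0) :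
    ∃ K T, Adm f I K T ∧ ∀ x, Hyp f R I I c x (K * f x) → f (T x) = 0 := by
  classical
  have hL1 := h.one_le
  have hL : 0 < L := lt_of_lt_of_le one_pos h.one_le
  have hd0 : (0 : ℝ) ≤ d := Nat.cast_nonneg d
  obtain ⟨κ, hκ⟩ : ∃ κ, κ = c / (16 * (d + 1)) := ⟨_, rfl⟩
  have hκ0 : 0 < κ := by rw [hκ]; positivity
  have hκe : κ * (16 * (d + 1)) = c := by rw [hκ]; field_simp
  obtain ⟨η, B, hη, hB, hdich⟩ := dichotomy (d := d) κ L hκ0 hL
  obtain ⟨K₀, Kb, T₀, hK₀, hT₀, hP₀⟩ := retr_base h R I (c / (2 * (1 + d * B)))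
    (fun l hl => ih l hl _ (by positivity))
  obtain ⟨ε, hε, hε1, hneck⟩ := neck h R I c B K₀ hc hB hK₀
  obtain ⟨g, δ, hg, hδ, hfat⟩ := retr_fat h R I η ε hη hε hε1
  obtain ⟨lo, hi, hb⟩ := boxes_exists h R hR I g hg
  obtain ⟨G, hGI, hG⟩ := exists_grid I L g hg
  obtain ⟨Kt, hKt⟩ : ∃ Kt, Kt = 4 * d * (2 + 5 * L * (K₀ + 1)) * B / c + 1 := ⟨_, rfl⟩
  have hKt1 : 1 ≤ Kt := by
    have : 0 ≤ 4 * d * (2 + 5 * L * (K₀ + 1)) * B / c := by positivity
    linarith
  obtain ⟨A, hA⟩ : ∃ A : V d → ℝ → Finset (V d),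
      ∀ x r, A x r = G.filter (fun a => InBox I lo hi a x r) := ⟨_, fun _ _ => rfl⟩
  have hAm : ∀ x x' r r', InE I (x' - x) → ‖x' - x‖ + r' ≤ r → A x' r' ⊆ A x r := by
    intro x x' r r' h1 h2 a ha
    rw [hA, Finset.mem_filter] at ha ⊢
    exact ⟨ha.1, ha.2.mono hb h1 h2⟩
  -- the dichotomy at a point
  have hdi : ∀ (Ka K : ℝ) (x : V d), Kt ≤ Ka → K₀ ≤ K → 2 * L * Ka / δ ≤ K → 0 < f x →
      Hyp f R I I c x (K * f x) →
      (∃ l ∈ I, Hyp f R I (I.erase l) (c / (2 * (1 + d * B))) x (K₀ * f x)) ∨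
        ∀ u ∈ AS φ I x (2 * L * (Ka * f x)), ∃ a ∈ A x (K * f x),
          ∀ z, InE I z → |(u - a) ⬝ᵥ z| ≤ ε * ‖z‖ := by
    intro Ka K x hKa hK hK' hf hH
    have hKa0 : 0 < Ka := by linarith
    have hne : (AS φ I x (2 * L * (Ka * f x))).Nonempty :=
      (AS.nonempty h I x).mono (AS.mono (by positivity))
    rcases hdich I _ (AS.convex φ I x _) hne (fun u hu => AS.norm_le h hu) (fun u hu => hu.1) with
      ⟨l, hl, n, τ, h1, h2, h3, h4⟩ | ⟨n, hn⟩
    · left
      have hT : 0 < Ka * f x / B := by positivity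
      have hsec := thin_second h h2 hT.le (by
        have : Ka * f x / B * ‖τ‖ ≤ Ka * f x / B * B := mul_le_mul_of_nonneg_left h3 hT.le
        rw [div_mul_cancel₀ _ (by linarith : B ≠ 0)] at this
        exact mul_le_mul_of_nonneg_left this (by positivity)) h4
      refine ⟨l, hl, hyp_drop h (hH.sub (InE.refl I x) ?_) hc hB h2 h1 h3 hT hsec
        (δ := (K₀ + 1) * f x) (by positivity) (by nlinarith) ?_⟩
      · rw [sub_self, norm_zero, zero_add]
        exact mul_le_mul_of_nonneg_right hK hf.le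
      · have e : (2 * f x + 5 * L * ((K₀ + 1) * f x)) / (Ka * f x / B)
            = (2 + 5 * L * (K₀ + 1)) * B / Ka := by field_simp
        have h5 : d * ((2 + 5 * L * (K₀ + 1)) * B / Ka) ≤ c / 4 := by
          rw [← mul_div_assoc, div_le_iff₀ hKa0]
          have h6 : 4 * d * (2 + 5 * L * (K₀ + 1)) * B / c ≤ Ka := by linarith
          rw [div_le_iff₀ hc] at h6
          linarith
        rw [e]
        nlinarith
    · right
      intro u hu
      obtain ⟨a, haG, h1, h2⟩ := hfat lo hi G hb hGI hG x n _ (fun i _ => by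
        have h3 := norm_le_pi_norm x i
        rw [Real.norm_eq_abs] at h3
        have h4 : 0 ≤ K * f x := mul_nonneg (hK₀.trans hK) hf.le
        linarith [hH.1]) hn u hu
      refine ⟨a, ?_, h1⟩
      rw [hA, Finset.mem_filter]
      refine ⟨haG, h2.mono hb (InE.refl I x) ?_⟩
      rw [sub_self, norm_zero, zero_add]
      have e : 2 * L * (Ka * f x) / δ = 2 * L * Ka / δ * f x := by ring
      rw [e]
      exact mul_le_mul_of_nonneg_right hK' hf.le
  -- induction on the number of boxes in the ball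
  have hlev : ∀ ℓ : ℕ, ∃ K T, Adm f I K T ∧
      (∀ x, (∃ l ∈ I, Hyp f R I (I.erase l) (c / (2 * (1 + d * B))) x (K₀ * f x)) →
        f (T x) = 0) ∧
      ∀ x, Hyp f R I I c x (K * f x) → (A x (K * f x)).card ≤ ℓ → f (T x) = 0 := by
    intro ℓ
    induction ℓ with
    | zero =>
      have h1 : 0 ≤ 2 * L * Kt / δ := by positivity
      refine ⟨Kb + K₀ + 2 * L * Kt / δ, T₀, hT₀.mono h.nonneg subset_rfl (by linarith), hP₀,
        fun x hH hcard => ?_⟩
      rcases (h.nonneg x).eq_or_lt with h0 | h0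
      · exact hT₀.zero h0.symm
      rcases hdi Kt _ x le_rfl (by linarith [hT₀.1]) (by linarith [hT₀.1]) h0 hH with h2 | h2
      · exact hP₀ x h2
      · obtain ⟨u, hu⟩ := AS.nonempty h I x
        obtain ⟨a, ha, -⟩ := h2 u (AS.mono (by positivity) hu)
        rw [Finset.card_eq_zero.1 (Nat.le_zero.1 hcard)] at ha
        exact absurd ha (Finset.notMem_empty a)
    | succ ℓ ihℓ =>
      obtain ⟨K₁, Cl, hCl, hP1, hP2⟩ := ihℓ
      have hK₁ := hCl.1
      have hall : ∀ A₀ ∈ G.powersetCard (ℓ + 1), ∃ (p : V d → V d) (rA : V d → ℝ) (K : ℝ)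
          (N : V d → V d) (R₄ : ℝ), (∀ y, InE I (p y - y)) ∧ (∀ y, 0 ≤ rA y) ∧
          (∀ y y', InE I (y' - y) → p y' = p y ∧ rA y' = rA y) ∧
          (∀ y, ∀ a ∈ A₀, ∀ v, IsMz φ R I a y v → ‖v - p y‖ ≤ rA y) ∧
          (∀ (x : V d) (r : ℝ), (∀ a ∈ A₀, InBox I lo hi a x r) → ‖p x - x‖ ≤ r ∧ rA x ≤ r) ∧
          Adm f I K N ∧ 0 ≤ R₄ ∧ ∀ (y : V d) (ρ : ℝ),
            R₄ * (f (p y) + rA y) ≤ ρ → 2 * ‖y - p y‖ ≤ ρ → Hyp f R I I c (p y) ρ →
            Cone φ I (p y) ρ ε ((2 * L + 1) * rA y) →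
            (∀ (x : V d) (r : ℝ), InE I (x - y) → ‖x - p y‖ + r ≤ ρ → r < rA y →
              (A x r).card ≤ ℓ) → f (N y) = 0 := by
        intro A₀ hA₀
        have hne : A₀.Nonempty := by
          rw [← Finset.card_pos, (Finset.mem_powersetCard.1 hA₀).2]; omega
        obtain ⟨p, rA, h1, h2, h3, h4, h5, h6, h7⟩ := retr_centre hI hb A₀ hne
        obtain ⟨K, N, R₄, h8, h9, h10⟩ := hneck K₁ Cl (fun x r => (A x r).card ≤ ℓ) p rA hCl hP1 hP2
          h1 h2 h3 h4 h5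
        exact ⟨p, rA, K, N, R₄, h3, h4, h5, h6, h7, h8, h9, h10⟩
      choose! p rA Kn N R₄ hpI hr0 hinv hmz hin hN hR₄ hNp using hall
      obtain ⟨Ks, S, hS, hSp⟩ := seq_ball h I (G.powersetCard (ℓ + 1)) N
        (fun A₀ hA₀ => ⟨_, hN A₀ hA₀⟩)
      have hKs := hS.1
      obtain ⟨K', hK'⟩ : ∃ K', K' = K₁ + Ks * (1 + L * K₁) := ⟨_, rfl⟩
      have hK'0 : 0 ≤ K' := by rw [hK']; positivity
      obtain ⟨R₅, hR₅⟩ : ∃ R₅, R₅ = ∑ A₀ ∈ G.powersetCard (ℓ + 1), R₄ A₀ := ⟨_, rfl⟩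
      have hR₅0 : 0 ≤ R₅ := hR₅ ▸ Finset.sum_nonneg hR₄
      obtain ⟨Kρ, hKρ⟩ : ∃ Kρ, Kρ = R₅ * (1 + L * K₁ + K₁) + 2 * (K' + K₁) := ⟨_, rfl⟩
      have hKρ0 : 0 ≤ Kρ := by rw [hKρ]; positivity
      obtain ⟨Ka, hKa⟩ : ∃ Ka, Ka = Kρ + K₁ + Kt := ⟨_, rfl⟩
      have hKa0 : 0 ≤ Ka := by linarith
      have h1 : 0 ≤ 2 * L * Ka / δ := by positivity
      obtain ⟨K, hK⟩ : ∃ K, K = K' + K₀ + Ka + 2 * L * Ka / δ := ⟨_, rfl⟩
      have hcomp := hS.comp h hCl
      rw [← hK'] at hcomp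
      refine ⟨K, _, hcomp.mono h.nonneg subset_rfl (by linarith),
        fun x hx => hS.zero (hP1 x hx), fun x hH hcard => ?_⟩
      rcases (h.nonneg x).eq_or_lt with h0 | h0
      · exact hcomp.zero h0.symm
      have hK₁K : K₁ * f x ≤ K * f x := mul_le_mul_of_nonneg_right (by linarith) h0.le
      by_cases hsmall : (A x (K₁ * f x)).card ≤ ℓ
      · exact hS.zero (hP2 x (hH.sub (InE.refl I x) (by simpa using hK₁K)) hsmall)
      rcases hdi Ka K x (by linarith) (by linarith) (by linarith) h0 hH with h2 | h2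
      · exact hS.zero (hP1 x h2)
      obtain ⟨A₀, hA₀⟩ : ∃ A₀, A₀ = A x (K₁ * f x) := ⟨_, rfl⟩
      have hsub : A₀ ⊆ A x (K * f x) := hA₀ ▸ hAm x x _ _ (InE.refl I x) (by simpa using hK₁K)
      have hcard₀ : A₀.card = ℓ + 1 := by
        have := Finset.card_le_card hsub
        rw [← hA₀] at hsmall
        omega
      have heq : A x (K * f x) = A₀ :=
        (Finset.eq_of_subset_of_card_le hsub (by omega)).symm
      have hmem : A₀ ∈ G.powersetCard (ℓ + 1) :=
        Finset.mem_powersetCard.2 ⟨by rw [hA₀, hA]; exact Finset.filter_subset _ _, hcard₀⟩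
      obtain ⟨hpx, hrx⟩ := hin A₀ hmem x (K₁ * f x) (fun a ha => by
        rw [hA₀, hA] at ha
        exact (Finset.mem_filter.1 ha).2)
      refine hSp (Cl x) A₀ hmem (fun y hy hyn => ?_)
      have hyx : InE I (y - x) := hy.trans (hCl.2.2.1 x)
      obtain ⟨e1, e2⟩ := hinv A₀ hmem x y hyx
      have hyn' : ‖y - x‖ ≤ K' * f x := by
        have h3 : ‖y - x‖ ≤ ‖y - Cl x‖ + ‖Cl x - x‖ := by
          simpa using norm_add_le (y - Cl x) (Cl x - x)
        have h4 := hCl.2.2.2 x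
        have h5 := mul_le_mul_of_nonneg_left (hCl.f_le h x) hKs
        rw [hK']
        linarith
      have hfp : f (p A₀ x) ≤ (1 + L * K₁) * f x := by
        have := h.f_le (p A₀ x) x
        have := mul_le_mul_of_nonneg_left hpx hL.le
        linarith
      have hKK : (K₁ + Kρ) * f x ≤ Ka * f x := mul_le_mul_of_nonneg_right (by linarith) h0.le
      have hKK' : Ka * f x ≤ K * f x := mul_le_mul_of_nonneg_right (by linarith) h0.le
      have hHp : Hyp f R I I c (p A₀ x) (Kρ * f x) := hH.sub (hpI A₀ hmem x) (by linarith)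
      refine hNp A₀ hmem y (Kρ * f x) ?_ ?_ (e1 ▸ hHp) ?_ ?_
      · rw [e1, e2]
        have h3 : R₄ A₀ ≤ R₅ := hR₅ ▸ Finset.single_le_sum hR₄ hmem
        have h4 : R₄ A₀ * (f (p A₀ x) + rA A₀ x) ≤ R₅ * ((1 + L * K₁ + K₁) * f x) :=
          mul_le_mul h3 (by linarith) (add_nonneg (h.nonneg _) (hr0 A₀ hmem x)) hR₅0
        have h5 : 0 ≤ 2 * (K' + K₁) * f x := by positivity
        rw [hKρ]
        linarith
      · rw [e1]
        have h3 : ‖y - p A₀ x‖ ≤ ‖y - x‖ + ‖p A₀ x - x‖ := by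
          simpa using norm_sub_le (y - x) (p A₀ x - x)
        have h5 : 0 ≤ R₅ * (1 + L * K₁ + K₁) * f x := by positivity
        rw [hKρ]
        linarith
      · rw [e1, e2]
        refine retr_cone h (ρ₁ := Ka * f x) hε1 (hpI A₀ hmem x) (by linarith) hHp.1
          (fun u hu => ?_)
        obtain ⟨a, ha, h3⟩ := h2 u hu
        obtain ⟨v, hv⟩ := hb.ex a x
        exact ⟨a, v, h3, hv, hmz A₀ hmem x a (heq ▸ ha) v hv⟩
      · intro x' r hx' hr hlt
        have hx'x : InE I (x' - x) := hx'.trans hyx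
        rw [e1] at hr
        have h3 : ‖x' - x‖ ≤ ‖x' - p A₀ x‖ + ‖p A₀ x - x‖ := by
          simpa using norm_add_le (x' - p A₀ x) (p A₀ x - x)
        have h4 : A x' r ⊆ A₀ := heq ▸ hAm x x' _ _ hx'x (by linarith)
        have h5 : A x' r ≠ A₀ := by
          intro h6
          have h7 := (hin A₀ hmem x' r (fun a ha => by
            rw [← h6, hA] at ha
            exact (Finset.mem_filter.1 ha).2)).2
          rw [(hinv A₀ hmem y x' hx').2] at h7
          linarith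
        have := Finset.card_lt_card (Finset.ssubset_iff_subset_ne.2 ⟨h4, h5⟩)
        omega
  obtain ⟨K, T, h1, -, h2⟩ := hlev G.card
  exact ⟨K, T, h1, fun x hx => h2 x hx (by rw [hA]; exact Finset.card_filter_le _ _)⟩

theorem retraction (h : Ctx f φ L) (R : ℝ) (hR : 0 ≤ R) (I : Finset (Fin d)) (c : ℝ)
    (hc : 0 < c) : ∃ K T, Adm f I K T ∧ ∀ x, Hyp f R I I c x (K * f x) → f (T x) = 0 := by
  induction I using Finset.strongInduction generalizing c with
  | H I ih =>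
    rcases I.eq_empty_or_nonempty with rfl | hI
    · refine ⟨0, _, Adm.id f ∅, fun x hx => ?_⟩
      by_contra hne
      have h0 : 0 < f x := lt_of_le_of_ne (h.nonneg x) (Ne.symm hne)
      obtain ⟨e, δ, hδ, he, -, hd⟩ := hx.2 x (InE.refl _ x) (by simp) h0
      have he0 : e = 0 := funext (fun j => he j (Finset.notMem_empty j))
      have := hd x δ (InE.refl _ x) (by simpa using hδ.le) hδ.le le_rfl
      rw [he0, smul_zero, sub_zero] at this
      nlinarith
    · exact retr_step h R hR I hI c hc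
        (fun l hl c' hc' => ih _ (Finset.erase_ssubset hl) c' hc')

end Pool.Agent.MP_b8fe60_gt

end

-- part MP_b8fe60_gt.BoxStrat
section

/-
HINTS.  r n = 1 / (n + 1).  F n = {w ∈ F | closedBall w (2 r n) ⊆ O ∧ ∀ m < n, ¬ closedBall w (2 r m) ⊆ O}; F is the union of the F n; each F n is totally bounded, take a finite N n ⊆ F n with F n ⊆ ⋃ balls of radius r n.  C = ⋃ n, ⋃ w ∈ N n, closedBall w (r n) ∩ {InE J₀}.  Near a point of O, and near a point outside closure F, only finitely many levels n meet a small ball.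
SignDet C x := ∃ ε > 0, ∀ y y' in the ε-ball, (∀ j, sign (y j - x j) = sign (y' j - x j)) → y ∈ C → y' ∈ C; holds for half spaces {y j ≤ α}, {α ≤ y j}, is stable under finite unions / intersections and local equality, so it holds for C at every x ∈ O.
typ x = the set of j such that, on some ball around x, membership in C is invariant under changing the j-th coordinate (∃ ε > 0, ∀ y y' in the ball, (∀ i ≠ j, y i = y' i) → y ∈ C → y' ∈ C).  For y near x: typ x ⊆ typ y; y j ≠ x j implies j ∈ typ y (SignDet); if y - x ∈ E_{typ x} then translation by y - x preserves C locally (change one coordinate at a time), so y ∈ C and typ y = typ x.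
-/

namespace Pool.Agent.MP_b8fe60_gt

open Set

variable {d : ℕ}

/-- `y` and `y'` lie in the same position relative to `x` in each coordinate -/
def boxstrat_pat (x y y' : V d) : Prop :=
  ∀ j, (y j < x j ↔ y' j < x j) ∧ (x j < y j ↔ x j < y' j)

/-- near `x` the property `P` only depends on the position relative to `x` -/
def boxstrat_sd (P : V d → Prop) (x : V d) : Prop :=
  ∀ᶠ p : V d × V d in nhds (x, x), boxstrat_pat x p.1 p.2 → P p.1 → P p.2

theorem boxstrat_sd_le (x : V d) (j : Fin d) (α : ℝ) : boxstrat_sd (fun y => y j ≤ α) x := by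
  rcases lt_trichotomy (x j) α with h | h | h
  · have h1 : ∀ᶠ p : V d × V d in nhds (x, x), p.2 j < α :=
      (isOpen_lt (by fun_prop) continuous_const).mem_nhds h
    exact h1.mono fun p hp _ _ => hp.le
  · refine Filter.Eventually.of_forall fun p hp h1 => ?_
    rw [← h] at h1 ⊢
    exact not_lt.1 fun h2 => not_lt.2 h1 ((hp j).2.2 h2)
  · have h1 : ∀ᶠ p : V d × V d in nhds (x, x), α < p.1 j :=
      (isOpen_lt continuous_const (by fun_prop)).mem_nhds h
    exact h1.mono fun p hp _ h2 => absurd h2 (not_le.2 hp)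

theorem boxstrat_sd_ge (x : V d) (j : Fin d) (α : ℝ) : boxstrat_sd (fun y => α ≤ y j) x := by
  rcases lt_trichotomy (x j) α with h | h | h
  · have h1 : ∀ᶠ p : V d × V d in nhds (x, x), p.1 j < α :=
      (isOpen_lt (by fun_prop) continuous_const).mem_nhds h
    exact h1.mono fun p hp _ h2 => absurd h2 (not_le.2 hp)
  · refine Filter.Eventually.of_forall fun p hp h1 => ?_
    rw [← h] at h1 ⊢
    exact not_lt.1 fun h2 => not_lt.2 h1 ((hp j).1.2 h2)
  · have h1 : ∀ᶠ p : V d × V d in nhds (x, x), α < p.2 j :=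
      (isOpen_lt continuous_const (by fun_prop)).mem_nhds h
    exact h1.mono fun p hp _ _ => hp.le

theorem boxstrat_sd_and {P Q : V d → Prop} {x : V d} (hP : boxstrat_sd P x)
    (hQ : boxstrat_sd Q x) : boxstrat_sd (fun y => P y ∧ Q y) x :=
  (Filter.Eventually.and hP hQ).mono fun _ h h1 h2 => ⟨h.1 h1 h2.1, h.2 h1 h2.2⟩

theorem boxstrat_sd_all {ι : Type} {S : Set ι} (hS : S.Finite) {P : ι → V d → Prop} {x : V d}
    (h : ∀ i ∈ S, boxstrat_sd (P i) x) : boxstrat_sd (fun y => ∀ i ∈ S, P i y) x :=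
  ((Filter.eventually_all_finite hS).2 h).mono fun _ h h1 h2 i hi => h i hi h1 (h2 i hi)

theorem boxstrat_sd_ex {ι : Type} {S : Set ι} (hS : S.Finite) {P : ι → V d → Prop} {x : V d}
    (h : ∀ i ∈ S, boxstrat_sd (P i) x) : boxstrat_sd (fun y => ∃ i ∈ S, P i y) x :=
  ((Filter.eventually_all_finite hS).2 h).mono fun _ h h1 ⟨i, hi, h2⟩ => ⟨i, hi, h i hi h1 h2⟩

theorem boxstrat_sd_congr {P Q : V d → Prop} {x : V d} (h : ∀ᶠ y in nhds x, P y ↔ Q y)
    (hP : boxstrat_sd P x) : boxstrat_sd Q x := by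
  have h1 : ∀ᶠ p : V d × V d in nhds (x, x), P p.1 ↔ Q p.1 :=
    (continuous_fst.tendsto (x, x)).eventually h
  have h2 : ∀ᶠ p : V d × V d in nhds (x, x), P p.2 ↔ Q p.2 :=
    (continuous_snd.tendsto (x, x)).eventually h
  filter_upwards [hP, h1, h2] with p a b c h3 h4 using c.1 (a h3 (b.2 h4))

theorem boxstrat_sd_box (J₀ : Finset (Fin d)) (w x : V d) {r : ℝ} (hr : 0 ≤ r) :
    boxstrat_sd (fun y => dist y w ≤ r ∧ InE J₀ y) x := by
  have h1 := boxstrat_sd_all (finite_univ (α := Fin d)) fun j _ =>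
    boxstrat_sd_and (boxstrat_sd_ge x j (w j - r)) (boxstrat_sd_le x j (w j + r))
  have h2 := boxstrat_sd_all (toFinite {j | j ∉ J₀}) fun j _ =>
    boxstrat_sd_and (boxstrat_sd_ge x j 0) (boxstrat_sd_le x j 0)
  refine boxstrat_sd_congr (Filter.Eventually.of_forall fun y => and_congr ?_ ?_)
    (boxstrat_sd_and h1 h2)
  · rw [dist_pi_le_iff hr]
    refine forall_congr' fun j => ?_
    rw [Real.dist_eq, abs_le]
    exact ⟨fun h => ⟨by linarith [(h trivial).1], by linarith [(h trivial).2]⟩,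
      fun h _ => ⟨by linarith [h.1], by linarith [h.2]⟩⟩
  · exact forall_congr' fun j => ⟨fun h hj => le_antisymm (h hj).2 (h hj).1,
      fun h hj => ⟨(h hj).ge, (h hj).le⟩⟩

theorem boxstrat_closed_box (J₀ : Finset (Fin d)) (w : V d) (r : ℝ) :
    IsClosed {y : V d | dist y w ≤ r ∧ InE J₀ y} := by
  refine (Metric.isClosed_closedBall (x := w) (ε := r)).inter (s₂ := {y : V d | InE J₀ y}) ?_
  have h : {y : V d | InE J₀ y} = ⋂ j ∈ {j | j ∉ J₀}, {y : V d | y j = 0} := by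
    ext y; simp [InE]
  rw [h]
  exact isClosed_biInter fun j _ => isClosed_eq (continuous_apply j) continuous_const

theorem boxstrat_exists (O F : Set (V d)) (hO : IsOpen O) (hFO : F ⊆ O)
    (hF : Bornology.IsBounded F) (J₀ : Finset (Fin d)) (hJ : ∀ w ∈ F, InE J₀ w) :
    ∃ C : Set (V d), F ⊆ C ∧ C ⊆ O ∧ (∀ w ∈ C, InE J₀ w) ∧ closure C ⊆ C ∪ closure F ∧
      ∀ x ∈ C, boxstrat_sd (· ∈ C) x := by
  classical
  let r : ℕ → ℝ := fun n => 1 / ((n : ℝ) + 1)
  have r0 : ∀ n, 0 < r n := fun n => Nat.one_div_pos_of_nat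
  have rm : ∀ m n, m ≤ n → r n ≤ r m := fun m n h => Nat.one_div_le_one_div h
  have rs : ∀ δ : ℝ, 0 < δ → ∃ m, r m < δ := fun δ h => exists_nat_one_div_lt h
  let P : ℕ → V d → Prop := fun n w => Metric.closedBall w (2 * r n) ⊆ O
  have hN : ∀ n, ∃ N : Set (V d), N ⊆ {w | w ∈ F ∧ P n w ∧ ∀ m < n, ¬ P m w} ∧ N.Finite ∧
      {w | w ∈ F ∧ P n w ∧ ∀ m < n, ¬ P m w} ⊆ ⋃ y ∈ N, Metric.ball y (r n) := fun n =>
    Metric.finite_approx_of_totallyBounded (hF.isCompact_closure.totallyBounded.subset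
      fun w hw => subset_closure hw.1) (r n) (r0 n)
  choose N hN1 hN2 hN3 using hN
  let C : Set (V d) := {y | ∃ n, ∃ w ∈ N n, dist y w ≤ r n ∧ InE J₀ y}
  let D : ℕ → Set (V d) := fun m => {y | ∃ n ∈ Iic m, ∃ w ∈ N n, dist y w ≤ r n ∧ InE J₀ y}
  have hDC : ∀ m, D m ⊆ C := fun m y ⟨n, _, h⟩ => ⟨n, h⟩
  have hDcl : ∀ m, IsClosed (D m) := fun m => by
    have h : D m = ⋃ n ∈ Iic m, ⋃ w ∈ N n, {y | dist y w ≤ r n ∧ InE J₀ y} := by
      ext y
      simp only [D, mem_iUnion, mem_ofPred_eq, exists_prop]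
    rw [h]
    exact (finite_Iic m).isClosed_biUnion fun n _ =>
      (hN2 n).isClosed_biUnion fun w _ => boxstrat_closed_box J₀ w _
  have hloc : ∀ x, x ∈ O ∨ x ∉ closure F → ∃ m, ∀ y, dist y x < r m → y ∈ C → y ∈ D m := by
    rintro x (hx | hx)
    · obtain ⟨δ, hδ, hb⟩ := Metric.isOpen_iff.1 hO x hx
      obtain ⟨m, hm⟩ := rs (δ / 4) (by linarith)
      refine ⟨m, fun y hy ⟨n, w, hw, h1⟩ => ⟨n, ?_, w, hw, h1⟩⟩
      by_contra hn
      have hn' : m < n := not_le.1 hn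
      refine (hN1 n hw).2.2 m hn' fun z hz => hb ?_
      have h2 := dist_triangle4 z w y x
      rw [dist_comm w y] at h2
      rw [Metric.mem_closedBall] at hz
      rw [Metric.mem_ball]
      linarith [rm m n hn'.le, h1.1]
    · rw [Metric.mem_closure_iff] at hx
      push Not at hx
      obtain ⟨δ, hδ, hb⟩ := hx
      obtain ⟨m, hm⟩ := rs (δ / 2) (by linarith)
      refine ⟨m, fun y hy ⟨n, w, hw, h1⟩ => ⟨n, ?_, w, hw, h1⟩⟩
      by_contra hn
      have hn' : m < n := not_le.1 hn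
      have h2 := dist_triangle x y w
      rw [dist_comm x y] at h2
      linarith [rm m n hn'.le, h1.1, hb w (hN1 n hw).1]
  have hCO : C ⊆ O := fun y ⟨n, w, hw, h1, _⟩ =>
    (hN1 n hw).2.1 (Metric.mem_closedBall.2 (by linarith [r0 n]))
  refine ⟨C, fun w hw => ?_, hCO, fun y ⟨_, _, _, _, h⟩ => h, fun x hx => ?_, fun x hx => ?_⟩
  · have hex : ∃ n, P n w := by
      obtain ⟨δ, hδ, hb⟩ := Metric.isOpen_iff.1 hO w (hFO hw)
      obtain ⟨m, hm⟩ := rs (δ / 2) (by linarith)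
      exact ⟨m, (Metric.closedBall_subset_ball (by linarith)).trans hb⟩
    obtain ⟨y, hy, h1⟩ := mem_iUnion₂.1
      (hN3 (Nat.find hex) ⟨hw, Nat.find_spec hex, fun m hm => Nat.find_min hex hm⟩)
    exact ⟨_, y, hy, (Metric.mem_ball.1 h1).le, hJ w hw⟩
  · by_cases hxF : x ∈ closure F
    · exact Or.inr hxF
    · obtain ⟨m, hm⟩ := hloc x (Or.inr hxF)
      refine Or.inl (hDC m ?_)
      rw [← (hDcl m).closure_eq]
      refine closure_mono (s := Metric.ball x (r m) ∩ C) (fun y hy => hm y hy.1 hy.2) ?_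
      exact Metric.isOpen_ball.inter_closure ⟨Metric.mem_ball_self (r0 m), hx⟩
  · obtain ⟨m, hm⟩ := hloc x (Or.inl (hCO hx))
    have h1 : boxstrat_sd (· ∈ D m) x := boxstrat_sd_ex (finite_Iic m) fun n _ =>
      boxstrat_sd_ex (hN2 n) fun w _ => boxstrat_sd_box J₀ w x (r0 n).le
    refine boxstrat_sd_congr ?_ h1
    filter_upwards [Metric.ball_mem_nhds x (r0 m)] with y hy using ⟨fun h => hDC m h, hm y hy⟩

/-- on the ball, membership in `C` does not depend on the coordinate `j` -/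
def boxstrat_inv (C : Set (V d)) (j : Fin d) (x : V d) (ε : ℝ) : Prop :=
  ∀ y y', ‖y - x‖ < ε → ‖y' - x‖ < ε → (∀ i, i ≠ j → y i = y' i) → y ∈ C → y' ∈ C

theorem boxstrat_inv_mono {C : Set (V d)} {j : Fin d} {x y : V d} {ε δ : ℝ}
    (h : boxstrat_inv C j x ε) (hδ : ‖y - x‖ + δ ≤ ε) : boxstrat_inv C j y δ := by
  have key : ∀ z, ‖z - y‖ < δ → ‖z - x‖ < ε := fun z hz => by
    linarith [norm_sub_le_norm_sub_add_norm_sub z y x]
  exact fun z z' h1 h2 => h z z' (key z h1) (key z' h2)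

theorem boxstrat_move {C : Set (V d)} {x : V d} {ε : ℝ} (hε : 0 < ε) (S : Finset (Fin d))
    (h : ∀ j ∈ S, boxstrat_inv C j x ε) : ∀ z z', ‖z - x‖ < ε → ‖z' - x‖ < ε →
    InE S (z' - z) → z ∈ C → z' ∈ C := by
  induction S using Finset.induction_on with
  | empty =>
    intro z z' _ _ h1 h2
    have h3 : z' = z := funext fun j => sub_eq_zero.1 (h1 j (Finset.notMem_empty j))
    rwa [h3]
  | insert j S _ ih =>
    intro z z' hz hz' h1 h2
    have h3 : ‖Function.update z j (z' j) - x‖ < ε := by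
      rw [pi_norm_lt_iff hε] at hz hz' ⊢
      intro i
      by_cases hi : i = j
      · subst hi; simpa using hz' i
      · simpa [hi] using hz i
    refine ih (fun i hi => h i (Finset.mem_insert_of_mem hi)) _ z' h3 hz' (fun i hi => ?_)
      (h j (Finset.mem_insert_self _ _) z _ hz h3 (fun i hi => by simp [hi]) h2)
    by_cases hij : i = j
    · subst hij; simp
    · simpa [hij] using h1 i (by simp [hij, hi])

theorem box_strat (O F : Set (V d)) (hO : IsOpen O) (hFO : F ⊆ O) (hF : Bornology.IsBounded F)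
    (J₀ : Finset (Fin d)) (hJ : ∀ w ∈ F, InE J₀ w) :
    ∃ (C : Set (V d)) (typ : V d → Finset (Fin d)), F ⊆ C ∧ C ⊆ O ∧ (∀ w ∈ C, InE J₀ w) ∧
      closure C ⊆ C ∪ closure F ∧
      ∀ x ∈ C, typ x ⊆ J₀ ∧ ∃ ε, 0 < ε ∧ ∀ y, ‖y - x‖ < ε →
        ((y ∈ C ∧ typ y = typ x) ↔ InE (typ x) (y - x)) := by
  classical
  obtain ⟨C, h1, h2, h3, h4, h5⟩ := boxstrat_exists O F hO hFO hF J₀ hJ
  let typ : V d → Finset (Fin d) := fun x =>
    Finset.univ.filter fun j => ∃ ε, 0 < ε ∧ boxstrat_inv C j x ε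
  have mem : ∀ x j, j ∈ typ x ↔ ∃ ε, 0 < ε ∧ boxstrat_inv C j x ε := fun x j => by simp [typ]
  refine ⟨C, typ, h1, h2, h3, h4, fun x hx => ⟨fun j hj => ?_, ?_⟩⟩
  · obtain ⟨ε, hε, h⟩ := (mem x j).1 hj
    by_contra hn
    have h6 : ‖Function.update x j (x j + ε / 2) - x‖ < ε := by
      rw [pi_norm_lt_iff hε]
      intro i
      by_cases hi : i = j
      · subst hi
        simp only [Pi.sub_apply, Function.update_self, add_sub_cancel_left, Real.norm_eq_abs]
        rw [abs_of_pos (by linarith)]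
        linarith
      · simpa [hi] using hε
    have h7 := h3 _ (h x _ (by simpa using hε) h6 (fun i hi => by simp [hi]) hx) j hn
    rw [Function.update_self, h3 x hx j hn] at h7
    linarith
  · have h6 : ∀ᶠ ε in nhdsWithin (0 : ℝ) (Ioi 0), ∀ j ∈ typ x, boxstrat_inv C j x ε := by
      refine (Filter.eventually_all_finset _).2 fun j hj => ?_
      obtain ⟨ε, hε, h⟩ := (mem x j).1 hj
      filter_upwards [Ioo_mem_nhdsGT hε] with δ hδ
      exact boxstrat_inv_mono h (by simpa using hδ.2.le)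
    obtain ⟨ε₀, hε₀, h7⟩ := Metric.eventually_nhds_iff.1 (h5 x hx)
    obtain ⟨ε, hinv, hε, hεε⟩ := (h6.and (Ioo_mem_nhdsGT hε₀)).exists
    have hsd : ∀ y y', ‖y - x‖ < ε → ‖y' - x‖ < ε → boxstrat_pat x y y' → y ∈ C → y' ∈ C :=
      fun y y' a b => h7 (y := (y, y')) (by
        rw [Prod.dist_eq, dist_eq_norm, dist_eq_norm]
        exact max_lt (a.trans hεε) (b.trans hεε))
    have hmv := boxstrat_move hε (typ x) hinv
    refine ⟨ε, hε, fun y hy => ⟨fun h j hj => ?_, fun h => ⟨hmv x y (by simpa using hε) hy h hx,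
      Finset.Subset.antisymm (fun j hj => ?_) fun j hj => ?_⟩⟩⟩
    · rw [Pi.sub_apply]
      by_contra hne
      refine hj (h.2 ▸ (mem y j).2 ⟨min (ε - ‖y - x‖) |y j - x j|,
        lt_min (by linarith) (abs_pos.2 hne), fun z z' a b c => ?_⟩)
      have key : ∀ z : V d, ‖z - y‖ < min (ε - ‖y - x‖) |y j - x j| →
          ‖z - x‖ < ε ∧ (z j < x j ↔ y j < x j) ∧ (x j < z j ↔ x j < y j) := fun z hz => by
        rw [lt_min_iff] at hz
        have h8 : |z j - y j| < |y j - x j| := lt_of_le_of_lt (norm_le_pi_norm (z - y) j) hz.2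
        refine ⟨by linarith [norm_sub_le_norm_sub_add_norm_sub z y x, hz.1], ?_⟩
        rw [abs_lt] at h8
        rcases lt_or_gt_of_ne hne with h9 | h9
        · rw [abs_of_neg h9] at h8
          exact ⟨iff_of_true (by linarith [h8.2]) (by linarith),
            iff_of_false (by linarith [h8.2]) (by linarith)⟩
        · rw [abs_of_pos h9] at h8
          exact ⟨iff_of_false (by linarith [h8.1]) (by linarith),
            iff_of_true (by linarith [h8.1]) (by linarith)⟩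
      refine hsd z z' (key z a).1 (key z' b).1 fun i => ?_
      by_cases hi : i = j
      · subst hi
        exact ⟨(key z a).2.1.trans (key z' b).2.1.symm, (key z a).2.2.trans (key z' b).2.2.symm⟩
      · rw [c i hi]
        exact ⟨Iff.rfl, Iff.rfl⟩
    · obtain ⟨δ, hδ, hi⟩ := (mem y j).1 hj
      refine (mem x j).2 ⟨min δ (ε - ‖y - x‖), lt_min hδ (by linarith), fun z z' a b c hz => ?_⟩
      have key : ∀ z : V d, ‖z - x‖ < min δ (ε - ‖y - x‖) →
          ‖z - x‖ < ε ∧ ‖z + (y - x) - x‖ < ε ∧ ‖z + (y - x) - y‖ < δ := fun z hz => by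
        rw [lt_min_iff] at hz
        have e1 : z + (y - x) - x = (z - x) + (y - x) := by abel
        have e2 : z + (y - x) - y = z - x := by abel
        rw [e1, e2]
        exact ⟨by linarith [norm_nonneg (y - x), hz.2],
          by linarith [norm_add_le (z - x) (y - x), hz.2], hz.1⟩
      have h8 := hmv z _ (key z a).1 (key z a).2.1 (by simpa using h) hz
      have h9 := hi _ _ (key z a).2.2 (key z' b).2.2 (fun i hi => by simp [c i hi]) h8
      exact hmv _ z' (key z' b).2.1 (key z' b).1 (by simpa using h.neg) h9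
    · exact (mem y j).2 ⟨ε - ‖y - x‖, by linarith, boxstrat_inv_mono (hinv j hj) (by linarith)⟩

end Pool.Agent.MP_b8fe60_gt

end

-- part MP_b8fe60_gt.Ext
section

/-
HINTS.  O = interior {w | s w ∈ M ∧ s w ∉ Y}, F = prj J₀ '' (X \ Y); take C, typ from box_strat; Y' = Y ∪ s '' C.  prj J₀ (s w) = w for w ∈ C.  Closedness: if y ∈ closure (s '' C) then w = prj J₀ y ∈ closure C and y = s w; if w ∈ closure F then s w ∈ X (closed), so y ∈ Y or w ∈ F ⊆ C.
New pieces: for each J the set s '' {w ∈ C | typ w = J}; Man J with σ w = s (x - prj J x + prj J w) at the point a = s x.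
-/

namespace Pool.Agent.MP_b8fe60_gt

open Set

variable {d : ℕ}

theorem decomp_empty : Decomp (∅ : Set (V d)) :=
  ⟨∅, finite_empty, fun _ h => h.elim, pairwiseDisjoint_empty, sUnion_empty⟩

theorem ext_norm_prj (I : Finset (Fin d)) (z : V d) : ‖prj I z‖ ≤ ‖z‖ := by
  refine (pi_norm_le_iff_of_nonneg (norm_nonneg z)).2 fun j => ?_
  by_cases hj : j ∈ I
  · simpa [prj, hj] using norm_le_pi_norm z j
  · simp [prj, hj]

theorem ext_prj_sub (I : Finset (Fin d)) (y z : V d) : prj I y - prj I z = prj I (y - z) := by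
  funext j
  by_cases hj : j ∈ I <;> simp [prj, hj]

theorem ext_prj_s {J₀ : Finset (Fin d)} {s : V d → V d} (hsJ : ∀ y, ∀ j ∈ J₀, s y j = y j)
    {w : V d} (hw : InE J₀ w) : prj J₀ (s w) = w := by
  funext j
  by_cases hj : j ∈ J₀
  · simp [prj, hj, hsJ w j hj]
  · simp [prj, hj, hw j hj]

theorem ext_man (J₀ : Finset (Fin d)) (s : V d → V d) (hs : DCV s)
    (hsJ : ∀ y, ∀ j ∈ J₀, s y j = y j) (C : Set (V d)) (typ : V d → Finset (Fin d))
    (hC : ∀ w ∈ C, InE J₀ w)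
    (ht : ∀ x ∈ C, typ x ⊆ J₀ ∧ ∃ ε, 0 < ε ∧ ∀ y, ‖y - x‖ < ε →
        ((y ∈ C ∧ typ y = typ x) ↔ InE (typ x) (y - x))) (J : Finset (Fin d)) :
    Man J (s '' {w | w ∈ C ∧ typ w = J}) := by
  rintro a ⟨x, ⟨hxC, hxJ⟩, rfl⟩
  obtain ⟨hsub, ε, hε, hloc⟩ := ht x hxC
  rw [hxJ] at hsub hloc
  refine ⟨fun w => s ((x - prj J x) + prj J w), ?_, ?_, ε, hε, fun y hy => ⟨?_, ?_⟩⟩
  · exact hs.comp ((DCV.const (x - prj J x)).add (dcv_prj J))
  · intro y j hj
    show s ((x - prj J x) + prj J y) j = y j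
    rw [hsJ _ j (hsub hj)]
    simp [prj, hj]
  · rintro ⟨w, ⟨hwC, hwJ⟩, rfl⟩
    have h1 : ‖w - x‖ < ε := by
      have : w - x = prj J₀ (s w - s x) := by
        rw [← ext_prj_sub, ext_prj_s hsJ (hC w hwC), ext_prj_s hsJ (hC x hxC)]
      rw [this]
      exact (ext_norm_prj _ _).trans_lt hy
    have h2 : InE J (w - x) := (hloc w h1).1 ⟨hwC, hwJ⟩
    show s w = s ((x - prj J x) + prj J (prj J (s w)))
    congr 1
    funext j
    by_cases hj : j ∈ J
    · simp [prj, hj, hsJ w j (hsub hj)]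
    · have := h2 j hj
      simp only [Pi.sub_apply] at this
      simp only [prj, hj, Pi.add_apply, Pi.sub_apply, if_false]
      linarith
  · intro hyw
    have hyw' : y = s ((x - prj J x) + prj J (prj J y)) := hyw
    set w := (x - prj J x) + prj J (prj J y) with hw
    have h0 : w - x = prj J (y - s x) := by
      funext j
      by_cases hj : j ∈ J
      · simp [hw, prj, hj, hsJ x j (hsub hj)]
      · simp [hw, prj, hj]
    have h1 : ‖w - x‖ < ε := by
      rw [h0]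
      exact (ext_norm_prj _ _).trans_lt hy
    have h2 : InE J (w - x) := by
      rw [h0]
      exact inE_prj _ _
    exact ⟨w, (hloc w h1).2 h2, hyw'.symm⟩

theorem extend (M Y X : Set (V d)) (hY : IsClosed Y) (hYM : Y ⊆ M) (hdY : Decomp Y)
    (hX : IsClosed X) (hXb : Bornology.IsBounded X) (J₀ : Finset (Fin d)) (s : V d → V d)
    (hs : DCV s) (hsJ : ∀ y, ∀ j ∈ J₀, s y j = y j)
    (hb : ∀ b ∈ X, b ∉ Y → s (prj J₀ b) = b ∧ ∀ᶠ w in nhds (prj J₀ b), s w ∈ M) :
    ∃ Y', IsClosed Y' ∧ Y' ⊆ M ∧ Decomp Y' ∧ Y ⊆ Y' ∧ X ⊆ Y' := by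
  have hsc : Continuous s := hs.continuous
  have hpc : Continuous (prj J₀ : V d → V d) := (dcv_prj J₀).continuous
  have hFO : prj J₀ '' (X \ Y) ⊆ interior {w | s w ∈ M ∧ s w ∉ Y} := by
    rintro _ ⟨b, ⟨hbX, hbY⟩, rfl⟩
    obtain ⟨h1, h2⟩ := hb b hbX hbY
    rw [mem_interior_iff_mem_nhds]
    have h3 : ∀ᶠ w in nhds (prj J₀ b), s w ∉ Y := by
      have : s ⁻¹' Yᶜ ∈ nhds (prj J₀ b) := by
        refine (hY.isOpen_compl.preimage hsc).mem_nhds ?_
        show s (prj J₀ b) ∈ Yᶜ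
        rw [h1]
        exact hbY
      exact this
    exact h2.and h3
  have hFb : Bornology.IsBounded (prj J₀ '' (X \ Y)) := by
    obtain ⟨R, hR⟩ := hXb.exists_norm_le
    refine (Metric.isBounded_closedBall (x := (0 : V d)) (r := R)).subset ?_
    rintro _ ⟨b, ⟨hbX, _⟩, rfl⟩
    rw [mem_closedBall_zero_iff]
    exact (ext_norm_prj _ _).trans (hR b hbX)
  obtain ⟨C, typ, hFC, hCO, hCJ, hcl, ht⟩ := box_strat _ _ isOpen_interior hFO hFb J₀
    (by
      rintro _ ⟨b, _, rfl⟩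
      exact inE_prj _ _)
  have hCM : ∀ w ∈ C, s w ∈ M ∧ s w ∉ Y := fun w hw =>
    interior_subset (s := {w | s w ∈ M ∧ s w ∉ Y}) (hCO hw)
  have hXY : X ⊆ Y ∪ s '' C := by
    intro b hbX
    by_cases hbY : b ∈ Y
    · exact Or.inl hbY
    · exact Or.inr ⟨prj J₀ b, hFC ⟨b, ⟨hbX, hbY⟩, rfl⟩, (hb b hbX hbY).1⟩
  refine ⟨Y ∪ s '' C, ?_, ?_, ?_, subset_union_left, hXY⟩
  · rw [← closure_subset_iff_isClosed, closure_union, hY.closure_eq]
    refine union_subset subset_union_left ?_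
    have hK : IsClosed {y : V d | prj J₀ y ∈ closure C ∧ s (prj J₀ y) = y} :=
      (isClosed_closure.preimage hpc).inter (isClosed_eq (hsc.comp hpc) continuous_id)
    have hsub : s '' C ⊆ {y : V d | prj J₀ y ∈ closure C ∧ s (prj J₀ y) = y} := by
      rintro _ ⟨w, hw, rfl⟩
      have := ext_prj_s hsJ (hCJ w hw)
      exact ⟨by rw [this]; exact subset_closure hw, by rw [this]⟩
    intro y hy
    obtain ⟨h1, h2⟩ := closure_minimal hsub hK hy
    rcases hcl h1 with h3 | h3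
    · exact Or.inr ⟨_, h3, h2⟩
    · refine hXY ?_
      have h4 : prj J₀ '' (X \ Y) ⊆ s ⁻¹' X := by
        rintro _ ⟨b, ⟨hbX, hbY⟩, rfl⟩
        show s (prj J₀ b) ∈ X
        rw [(hb b hbX hbY).1]
        exact hbX
      have h5 : s (prj J₀ y) ∈ X := closure_minimal h4 (hX.preimage hsc) h3
      rwa [h2] at h5
  · refine union_subset hYM ?_
    rintro _ ⟨w, hw, rfl⟩
    exact (hCM w hw).1
  · obtain ⟨𝒯, hfin, hman, hdis, hun⟩ := hdY
    refine ⟨𝒯 ∪ range (fun J : Finset (Fin d) => s '' {w | w ∈ C ∧ typ w = J}),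
      hfin.union (finite_range _), ?_, ?_, ?_⟩
    · rintro T (hT | ⟨J, rfl⟩)
      · exact hman T hT
      · exact ⟨J, ext_man J₀ s hs hsJ C typ hCJ ht J⟩
    · have hmix : ∀ T ∈ 𝒯, ∀ J : Finset (Fin d),
          Disjoint T (s '' {w | w ∈ C ∧ typ w = J}) := by
        intro T hT J
        rw [Set.disjoint_left]
        rintro y hyT ⟨w, ⟨hwC, _⟩, rfl⟩
        exact (hCM w hwC).2 (hun ▸ mem_sUnion_of_mem hyT hT)
      rintro T (hT | ⟨J, rfl⟩) T' (hT' | ⟨J', rfl⟩) hne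
      · exact hdis hT hT' hne
      · exact hmix T hT J'
      · exact (hmix T' hT' J).symm
      · show Disjoint (s '' {w | w ∈ C ∧ typ w = J}) (s '' {w | w ∈ C ∧ typ w = J'})
        rw [Set.disjoint_left]
        rintro _ ⟨w, ⟨hwC, hwJ⟩, rfl⟩ ⟨w', ⟨hwC', hwJ'⟩, h⟩
        have hww : w' = w := by
          rw [← ext_prj_s hsJ (hCJ w hwC), ← ext_prj_s hsJ (hCJ w' hwC'), h]
        apply hne
        rw [← hwJ, ← hwJ', hww]
    · rw [sUnion_union, hun, sUnion_range]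
      congr 1
      ext y
      simp only [mem_iUnion, mem_image, mem_ofPred_eq]
      constructor
      · rintro ⟨J, w, ⟨hw, _⟩, rfl⟩
        exact ⟨w, hw, rfl⟩
      · rintro ⟨w, hw, rfl⟩
        exact ⟨typ w, w, ⟨hw, rfl⟩, rfl⟩

end Pool.Agent.MP_b8fe60_gt

end

-- part MP_b8fe60_gt.Top
section

/-! The stratification by the size of the subdifferential of the control function. -/

namespace Pool.Agent.MP_b8fe60_gt

open Set Filter Topology

variable {d : ℕ} {f φ : V d → ℝ} {L : ℝ}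

theorem top_min {α : Type} (s : Finset α) (P : α → ℝ → Prop)
    (h : ∀ a ∈ s, ∃ ω, 0 < ω ∧ P a ω) (anti : ∀ a ω ω', ω' ≤ ω → P a ω → P a ω') :
    ∃ ω, 0 < ω ∧ ∀ a ∈ s, P a ω := by
  classical
  induction s using Finset.induction_on with
  | empty => exact ⟨1, one_pos, fun a ha => absurd ha (Finset.notMem_empty a)⟩
  | insert b s _ ih =>
    obtain ⟨ω, hω, h1⟩ := ih (fun a ha => h a (Finset.mem_insert_of_mem ha))
    obtain ⟨ω', hω', h2⟩ := h b (Finset.mem_insert_self b s)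
    refine ⟨min ω ω', lt_min hω hω', fun a ha => ?_⟩
    rcases Finset.mem_insert.1 ha with rfl | ha
    · exact anti _ _ _ (min_le_right _ _) h2
    · exact anti _ _ _ (min_le_left _ _) (h1 a ha)

theorem top_many {α β : Type} (Good : Set β → Prop) (Y₀ : Set β) (h₀ : Good Y₀) (s : Finset α)
    (X : α → Set β) (h : ∀ j ∈ s, ∀ Y, Good Y → Y₀ ⊆ Y → ∃ Y', Good Y' ∧ Y ⊆ Y' ∧ X j ⊆ Y') :
    ∃ Y', Good Y' ∧ Y₀ ⊆ Y' ∧ ∀ j ∈ s, X j ⊆ Y' := by
  classical
  induction s using Finset.induction_on with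
  | empty => exact ⟨Y₀, h₀, subset_rfl, fun a ha => absurd ha (Finset.notMem_empty a)⟩
  | insert b s _ ih =>
    obtain ⟨Y, h1, h2, h3⟩ := ih (fun a ha => h a (Finset.mem_insert_of_mem ha))
    obtain ⟨Y', h4, h5, h6⟩ := h b (Finset.mem_insert_self b s) Y h1 h2
    refine ⟨Y', h4, h2.trans h5, fun a ha => ?_⟩
    rcases Finset.mem_insert.1 ha with rfl | ha
    · exact h6
    · exact (h3 a ha).trans h5

theorem Struct.mono {K K' : Set (V d)} {J : Finset (Fin d)} {η B : ℝ} (h : Struct K J η B)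
    (hK : K ⊆ K') : Struct K' J η B := by
  obtain ⟨n, m, h1, h2, h3⟩ := h
  exact ⟨n, m, h1, h2, fun t ht => hK (h3 t ht)⟩

/-- points of `M` where the subdifferential is fat in the directions of `I` -/
def Sig (φ : V d → ℝ) (M : Set (V d)) (η B : ℕ → ℝ) (I : Finset (Fin d)) : Set (V d) :=
  {x | x ∈ M ∧ ∀ ω, 0 < ω → Struct (AS φ Finset.univ x ω) I (η I.card) (B I.card)}

theorem top_univ (z : V d) : InE Finset.univ z := fun j hj => absurd (Finset.mem_univ j) hj

theorem sig_closed (h : Ctx f φ L) {M : Set (V d)} (hM : IsClosed M) (η B : ℕ → ℝ)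
    (I : Finset (Fin d)) : IsClosed (Sig φ M η B I) := by
  have hL : 0 < L := lt_of_lt_of_le one_pos h.one_le
  refine isClosed_of_closure_subset (fun x hx => ⟨?_, fun ω hω => ?_⟩)
  · exact hM.closure_subset (closure_mono (fun y hy => hy.1) hx)
  · obtain ⟨y, hy, hxy⟩ := Metric.mem_closure_iff.1 hx (ω / (4 * L)) (by positivity)
    refine (hy.2 (ω / 2) (by positivity)).mono (fun u hu => ?_)
    refine AS.mono ?_ (AS.shift h (top_univ _) hu)
    rw [dist_comm, dist_eq_norm, lt_div_iff₀ (by positivity)] at hxy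
    linarith

theorem sig_cover (h : Ctx f φ L) {R g : ℝ} {M : Set (V d)} {η B : ℕ → ℝ} {I : Finset (Fin d)}
    {lo hi : V d → Fin d → V d → ℝ} (hb : Boxes φ R I g lo hi) (hg : 0 < g)
    (hgη : 2 * g ≤ η I.card) {G : Finset (V d)} (hGI : ∀ a ∈ G, InE I a)
    (hG : ∀ u, InE I u → ‖u‖ ≤ L → ∃ a ∈ G, ‖a - u‖ ≤ g) {x : V d} (hx : x ∈ Sig φ M η B I)
    (hxR : ‖x‖ ≤ R) : ∃ a ∈ G, ∀ i ∈ I, hi a i x = x i := by
  have hall : ∃ a ∈ G, ∀ ω, 0 < ω →
      (a ∈ AS φ I x ω ∧ ∀ i ∈ I, a + Pi.single i g ∈ AS φ I x ω) := by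
    by_contra hne
    obtain ⟨ω, hω, h1⟩ := top_min G
      (fun a ω => ¬ (a ∈ AS φ I x ω ∧ ∀ i ∈ I, a + Pi.single i g ∈ AS φ I x ω))
      (fun a ha => by
        by_contra h2
        exact hne ⟨a, ha, fun ω hω => by
          by_contra h3
          exact h2 ⟨ω, hω, h3⟩⟩)
      (fun a ω ω' hle h2 h3 => h2 ⟨AS.mono hle h3.1, fun i hi' => AS.mono hle (h3.2 i hi')⟩)
    obtain ⟨n, hn, hc⟩ := struct_cube (hx.2 ω hω)
    have hn0 : n ∈ AS φ I x ω := by
      simpa using hc 0 (InE.zero I) (by simp only [norm_zero]; linarith)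
    obtain ⟨a, ha, han⟩ := hG n hn (AS.norm_le h hn0)
    refine h1 a ha ⟨?_, fun i hi' => ?_⟩
    · simpa using hc (a - n) ((hGI a ha).sub hn) (by linarith)
    · have h2 : ‖(Pi.single i g : V d)‖ ≤ g := by
        rw [Pi.norm_single, Real.norm_eq_abs, abs_of_pos hg]
      have h3 := hc (a - n + Pi.single i g) (((hGI a ha).sub hn).add (inE_single hi' g))
        (by linarith [norm_add_le (a - n) (Pi.single i g : V d)])
      have e : n + (a - n + Pi.single i g) = a + Pi.single i g := by abel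
      rwa [e] at h3
  have hmz : ∀ a, (∀ ω, 0 < ω → a ∈ AS φ I x ω) → IsMz φ R I a x x := by
    intro a ha
    refine ⟨InE.refl I x, fun i _ => ?_, fun z hz _ => ?_⟩
    · have := norm_le_pi_norm x i
      rw [Real.norm_eq_abs] at this
      linarith
    · refine le_of_forall_pos_le_add (fun ω hω => ?_)
      have := (ha ω hω).2 (z - x) hz
      rw [add_sub_cancel, dotProduct_sub] at this
      linarith
  obtain ⟨a, ha, h1⟩ := hall
  refine ⟨a, ha, fun i hi' => le_antisymm ?_ ?_⟩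
  · exact hb.hi_le a x x i hi' (hmz _ (fun ω hω => (h1 ω hω).2 i hi'))
  · exact (hb.mem a x x i hi' (hmz _ (fun ω hω => (h1 ω hω).1))).2

theorem sig_desc (h : Ctx f φ L) {c κ : ℝ} (hc : 0 < c) (hκ : 0 < κ) (hκc : d * (8 * κ) ≤ c / 2)
    {M : Set (V d)} {η B : ℕ → ℝ} (hB : ∀ j, 1 ≤ B j)
    (hel : ∀ K : Set (V d), Convex ℝ K → (∀ u ∈ K, ‖u‖ ≤ L) →
      ∀ (J : Finset (Fin d)) (l : Fin d), l ∉ J → Struct K J (η J.card) (B J.card) →
        Thin K J l κ (B J.card) ∨ Struct K (insert l J) (η (J.card + 1)) (B (J.card + 1)))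
    {I : Finset (Fin d)} {b : V d} (hb : b ∈ Sig φ M η B I) (hf : f b = 0)
    (hn : ∀ l, l ∉ I → b ∉ Sig φ M η B (insert l I)) :
    ∃ δ, 0 < δ ∧ ∀ y, ‖y - b‖ ≤ δ → Desc f Finset.univ c y →
      Desc f I (c / (2 * (1 + d * B I.card))) y := by
  have hL : 0 < L := lt_of_lt_of_le one_pos h.one_le
  have hB0 : 0 < B I.card := lt_of_lt_of_le one_pos (hB _)
  obtain ⟨ω, hω, h1⟩ := top_min Iᶜ
    (fun l ω => ¬ Struct (AS φ Finset.univ b ω) (insert l I) (η (I.card + 1)) (B (I.card + 1)))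
    (fun l hl => by
      have hl' := Finset.mem_compl.1 hl
      by_contra h2
      refine hn l hl' ⟨hb.1, fun ω hω => ?_⟩
      rw [Finset.card_insert_of_notMem hl']
      by_contra h3
      exact h2 ⟨ω, hω, h3⟩)
    (fun l ω ω' hle h2 h3 => h2 (h3.mono (AS.mono hle)))
  have h2 : ∀ l ∈ Iᶜ, ∃ n τ : V d, τ l = 1 ∧ InE (insert l I) τ ∧ ‖τ‖ ≤ B I.card ∧
      ∀ u ∈ AS φ Finset.univ b ω, |(u - n) ⬝ᵥ τ| ≤ κ := fun l hl =>
    (hel _ (AS.convex φ _ b ω) (fun u hu => AS.norm_le h hu) I l (Finset.mem_compl.1 hl)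
      (hb.2 ω hω)).resolve_right (h1 l hl)
  choose! n τ hτ using h2
  obtain ⟨T, hT⟩ : ∃ T, T = ω / (2 * L * B I.card) := ⟨_, rfl⟩
  have hT0 : 0 < T := by rw [hT]; positivity
  have hTe : T * (2 * L * B I.card) = ω := by rw [hT]; field_simp
  obtain ⟨δ, hδ⟩ : ∃ δ, δ = 4 * κ * T / (5 * L) := ⟨_, rfl⟩
  have hδ0 : 0 < δ := by rw [hδ]; positivity
  have hδe : (2 * f b + 5 * L * δ) / T = 4 * κ := by rw [hδ, hf]; field_simp; ring
  refine ⟨δ / 2, by positivity, fun y hy hD => ?_⟩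
  have := desc_drop (Λ := Iᶜ) (δ := min (δ / 2) T) (ε := 8 * κ) hD hc (hB I.card) τ
    (fun l hl => ⟨top_univ _, (hτ l hl).1, fun l' hl' hne => (hτ l hl).2.1 l' (by
        rw [Finset.mem_insert]
        rintro (h3 | h3)
        · exact hne h3
        · exact Finset.mem_compl.1 hl' h3), (hτ l hl).2.2.1⟩)
    (by positivity) (by positivity)
    (fun l hl z s hz hs => by
      have hsec := thin_second h (top_univ (τ l)) hT0.le (by
        have := mul_le_mul_of_nonneg_left (hτ l hl).2.2.1 hT0.le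
        have := mul_le_mul_of_nonneg_left this (show 0 ≤ 2 * L by positivity)
        linarith) (hτ l hl).2.2.2
      have h3 : ‖z - b‖ ≤ ‖z - y‖ + ‖y - b‖ := by simpa using norm_add_le (z - y) (y - b)
      have h4 := slope_le h (δ := δ) hT0 hsec z s (by linarith [min_le_left (δ / 2) T])
        (hs.trans (min_le_right _ _))
      rw [hδe] at h4
      linarith)
    hκc
  have e : Finset.univ \ Iᶜ = I := by ext j; simp
  rwa [e] at this

theorem decomp_of_ctx (h : Ctx f φ L) (c R : ℝ) (hc : 0 < c) (hR : 0 ≤ R) (U M : Set (V d))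
    (hU : IsOpen U) (hM : IsClosed M) (hMU : ∀ x ∈ M, x ∈ U ∧ f x = 0 ∧ ‖x‖ < R)
    (hUM : ∀ x ∈ U, f x = 0 → x ∈ M) (hD : ∀ y ∈ U, 0 < f y → Desc f Finset.univ c y) :
    Decomp M := by
  classical
  have hL : 0 < L := lt_of_lt_of_le one_pos h.one_le
  have hd0 : (0 : ℝ) ≤ d := Nat.cast_nonneg d
  obtain ⟨κ, hκ⟩ : ∃ κ, κ = c / (16 * (d + 1)) := ⟨_, rfl⟩
  have hκ0 : 0 < κ := by rw [hκ]; positivity
  have hκe : κ * (16 * (d + 1)) = c := by rw [hκ]; field_simp
  obtain ⟨η, B, hη, hB, -, -, h0, hel⟩ := elim (d := d) κ L hκ0 hL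
  have hMb : Bornology.IsBounded M :=
    (Metric.isBounded_ball (x := (0 : V d)) (r := R)).subset
      (fun x hx => mem_ball_zero_iff.2 (hMU x hx).2.2)
  obtain ⟨Good, hGood⟩ : ∃ Good : Set (V d) → Prop,
      ∀ Y, Good Y ↔ IsClosed Y ∧ Y ⊆ M ∧ Decomp Y := ⟨_, fun _ => Iff.rfl⟩
  have hone : ∀ (I : Finset (Fin d)) (Y : Set (V d)), Good Y →
      (∀ l, l ∉ I → Sig φ M η B (insert l I) ⊆ Y) →
      ∃ Y', Good Y' ∧ Y ⊆ Y' ∧ Sig φ M η B I ⊆ Y' := by
    intro I Y₀ hY₀ hup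
    have hB0 : 0 < B I.card := lt_of_lt_of_le one_pos (hB _)
    have hg : 0 < η I.card / 2 := by linarith [hη I.card]
    obtain ⟨K, T, hT, hTp⟩ := retraction h R hR I (c / (2 * (1 + d * B I.card))) (by positivity)
    obtain ⟨lo, hi, hb⟩ := boxes_exists h R hR I _ hg
    obtain ⟨G, hGI, hG⟩ := exists_grid I L _ hg
    obtain ⟨Y', h1, h2, h3⟩ := top_many Good Y₀ hY₀ G
      (fun a => Sig φ M η B I ∩ {x | ∀ i ∈ I, hi a i x = x i}) (fun a _ Y hY hYY => by
        obtain ⟨hY1, hY2, hY3⟩ := (hGood Y).1 hY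
        obtain ⟨ya, hya⟩ : ∃ ya : V d → V d, ∀ w j, ya w j = if j ∈ I then hi a j w else w j :=
          ⟨fun w j => if j ∈ I then hi a j w else w j, fun _ _ => rfl⟩
        have dya : DCV ya := DCV.pi (fun j => by
          by_cases hj : j ∈ I
          · simp only [hya, hj, if_true]; exact hb.dhi a j
          · simp only [hya, hj, if_false]; exact DCV.id.apply j)
        have hcl : IsClosed {x : V d | ∀ i ∈ I, hi a i x = x i} := by
          have e : {x : V d | ∀ i ∈ I, hi a i x = x i} = ⋂ i ∈ I, {x : V d | hi a i x = x i} := by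
            ext x; simp
          rw [e]
          exact isClosed_biInter (fun i _ =>
            isClosed_eq (hb.dhi a i).continuous (continuous_apply i))
        obtain ⟨Y', g1, g2, g3, g4, g5⟩ := extend M Y _ hY1 hY2 hY3
          ((sig_closed h hM η B I).inter hcl) (hMb.subset (fun x hx => hx.1.1)) Iᶜ
          (fun w => T (ya w)) (hT.2.1.comp dya)
          (fun y j hj => by
            have hj' := Finset.mem_compl.1 hj
            have := hT.2.2.1 (ya y) j hj'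
            rw [Pi.sub_apply, sub_eq_zero, hya, if_neg hj'] at this
            exact this)
          (fun b hb' hbY => by
            obtain ⟨hbU, hbf, hbR⟩ := hMU b hb'.1.1
            have e : ya (prj Iᶜ b) = b := by
              funext j
              rw [hya]
              by_cases hj : j ∈ I
              · rw [if_pos hj, (hb.inv a j b (prj Iᶜ b) (fun i hi' => by simp [prj, hi'])).2]
                exact hb'.2 j hj
              · simp [prj, hj]
            refine ⟨by show T (ya (prj Iᶜ b)) = b; rw [e, hT.fix hbf], ?_⟩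
            obtain ⟨δ, hδ, hδp⟩ := sig_desc h hc hκ0 (by nlinarith) hB hel hb'.1 hbf
              (fun l hl hs => hbY (hYY (hup l hl hs)))
            obtain ⟨r, hr, hrU⟩ := Metric.isOpen_iff.1 hU b hbU
            obtain ⟨ρ, hρ⟩ : ∃ ρ, ρ = min δ (min r (R - ‖b‖)) := ⟨_, rfl⟩
            have hρ0 : 0 < ρ := by rw [hρ]; exact lt_min hδ (lt_min hr (by linarith))
            have hρ1 : ρ ≤ δ := hρ ▸ min_le_left _ _
            have hρ2 : ρ ≤ r := hρ ▸ (min_le_right _ _).trans (min_le_left _ _)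
            have hρ3 : ρ ≤ R - ‖b‖ := hρ ▸ (min_le_right _ _).trans (min_le_right _ _)
            have hcont : Continuous (fun w => ‖ya w - b‖ + K * f (ya w)) :=
              ((dya.continuous.sub continuous_const).norm).add
                (continuous_const.mul (h.dcv.continuous.comp dya.continuous))
            have hev : ∀ᶠ w in 𝓝 (prj Iᶜ b), ‖ya w - b‖ + K * f (ya w) < ρ :=
              hcont.continuousAt.eventually_lt continuousAt_const (by simp [e, hbf, hρ0])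
            refine hev.mono (fun w hw => ?_)
            have hnear : ∀ y, ‖y - ya w‖ ≤ K * f (ya w) → ‖y - b‖ < ρ := fun y hy => by
              have : ‖y - b‖ ≤ ‖y - ya w‖ + ‖ya w - b‖ := by
                simpa using norm_add_le (y - ya w) (ya w - b)
              linarith
            have hin : ∀ y, ‖y - b‖ < ρ → y ∈ U := fun y hy =>
              hrU (by rw [Metric.mem_ball, dist_eq_norm]; linarith)
            refine hUM _ (hin _ (hnear _ (hT.2.2.2 _))) (hTp _ ⟨?_, fun y _ hy hf => ?_⟩)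
            · have : ‖ya w‖ ≤ ‖b‖ + ‖ya w - b‖ := by simpa using norm_add_le b (ya w - b)
              linarith
            · exact hδp y (by linarith [hnear y hy]) (hD y (hin y (hnear y hy)) hf))
        exact ⟨Y', (hGood Y').2 ⟨g1, g2, g3⟩, g4, g5⟩)
    refine ⟨Y', h1, h2, fun x hx => ?_⟩
    obtain ⟨a, ha, h4⟩ := sig_cover h hb hg (by linarith) hGI hG hx (hMU x hx.1).2.2.le
    exact h3 a ha ⟨hx, h4⟩
  have hind : ∀ n : ℕ, ∃ Y, Good Y ∧ ∀ I : Finset (Fin d), d + 1 ≤ I.card + n →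
      Sig φ M η B I ⊆ Y := by
    intro n
    induction n with
    | zero =>
      refine ⟨∅, (hGood _).2 ⟨isClosed_empty, empty_subset _, decomp_empty⟩, fun I hI => ?_⟩
      have := Finset.card_le_univ I
      rw [Fintype.card_fin] at this
      omega
    | succ n ih =>
      obtain ⟨Y, hY, hup⟩ := ih
      obtain ⟨Y', h1, -, h3⟩ := top_many Good Y hY
        (Finset.univ.filter (fun I : Finset (Fin d) => d + 1 ≤ I.card + (n + 1)))
        (fun I => Sig φ M η B I) (fun I hI Y₁ hY₁ hYY => hone I Y₁ hY₁ (fun l hl =>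
          (hup _ (by
            rw [Finset.card_insert_of_notMem hl]
            have := (Finset.mem_filter.1 hI).2
            omega)).trans hYY))
      exact ⟨Y', h1, fun I hI => h3 I (Finset.mem_filter.2 ⟨Finset.mem_univ I, hI⟩)⟩
  obtain ⟨Y, hY, h1⟩ := hind (d + 1)
  obtain ⟨-, h2, h3⟩ := (hGood Y).1 hY
  have e : M = Y := subset_antisymm (fun x hx => h1 ∅ (by simp) ⟨hx, fun ω hω =>
    h0 _ ((AS.nonempty h _ x).mono (AS.mono hω.le))⟩) h2
  rw [e]
  exact h3

end Pool.Agent.MP_b8fe60_gt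

end
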